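import Pool.Agent.L0h47.NF.M.SCF2
import Pool.Agent.L0h47.NF.V.C12

/-!
# Module C1: conjugation by `SL_n(F)` acts trivially on the germs of homomorphisms
-/

set_option autoImplicit false
set_option linter.all false

namespace Pool.Agent.L0h47.NF

open Matrix NumberField IsDedekindDomain
open scoped WithZero
open Pool.Agent.L0h47.CG (tvr Ele EV ele_top ev_field tvr_mem mtr mtr_mul mtr_one mtr_inj)

namespace C1m

variable {n : ℕ} {F : Type} [Field F] [NumberField F]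

/-- matrices over the integers as matrices over `F` -/
noncomputable def mF : GL (Fin n) (𝓞 F) →* GL (Fin n) F :=
  Matrix.GeneralLinearGroup.map (algebraMap (𝓞 F) F)

lemma mF_apply (B : GL (Fin n) (𝓞 F)) (i j : Fin n) :
    (mF B).1 i j = algebraMap (𝓞 F) F (B.1 i j) := rfl

lemma alg_inj : Function.Injective (algebraMap (𝓞 F) F) :=
  FaithfulSMul.algebraMap_injective (𝓞 F) F

/-- entries of congruence matrices -/
lemma entries {N : ℕ} (hN : N ≠ 0) {γ : GQ n F} (h : dg n γ ∈ KN n F N) :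
    ∃ Z : Matrix (Fin n) (Fin n) (𝓞 F), ∀ i j, γ.1.1 i j =
      algebraMap (𝓞 F) F ((1 : Matrix (Fin n) (Fin n) (𝓞 F)) i j + (N : 𝓞 F) * Z i j) := by
  have key : ∀ i j, ∃ z : 𝓞 F, γ.1.1 i j =
      algebraMap (𝓞 F) F ((1 : Matrix (Fin n) (Fin n) (𝓞 F)) i j + (N : 𝓞 F) * z) := by
    intro i j
    have hNF : (N : F) ≠ 0 := by exact_mod_cast hN
    have h1 : ∀ v : Pl F, v.valuation F
        ((γ.1.1 i j - (1 : Matrix (Fin n) (Fin n) F) i j) / (N : F)) ≤ 1 := by
      intro v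
      have h2 := (h v).2 i j
      have e1 : ((dg n γ).1 v).1 i j - (1 : Matrix (Fin n) (Fin n) (Kv v)) i j =
          cst v (γ.1.1 i j - (1 : Matrix (Fin n) (Fin n) F) i j) := by
        rw [map_sub]
        congr 1
        rw [Matrix.one_apply, Matrix.one_apply]
        split_ifs <;> simp
      rw [Matrix.sub_apply, e1] at h2
      have e2 : ((N : ℕ) : Kv v) = cst v (N : F) := by simp
      rw [e2, vv_cst, vv_cst] at h2
      rw [map_div₀]
      refine div_le_one_of_le₀ h2 ?_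
      exact zero_le
    obtain ⟨z, hz⟩ := HeightOneSpectrum.mem_integers_of_valuation_le_one (R := 𝓞 F) F _ h1
    refine ⟨z, ?_⟩
    have h3 : (algebraMap (𝓞 F) F z) =
      (γ.1.1 i j - (1 : Matrix (Fin n) (Fin n) F) i j) / (N : F) := hz
    have h4 : algebraMap (𝓞 F) F ((1 : Matrix (Fin n) (Fin n) (𝓞 F)) i j) =
        (1 : Matrix (Fin n) (Fin n) F) i j := by
      rw [Matrix.one_apply, Matrix.one_apply]
      split_ifs <;> simp
    rw [map_add, map_mul, h3, h4, map_natCast, mul_div_cancel₀ _ hNF]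
    ring
  choose z hz using key
  exact ⟨fun i j => z i j, hz⟩

lemma exists_int {N : ℕ} (hN : N ≠ 0) {γ : GQ n F} (h : dg n γ ∈ KN n F N) :
    ∃ B : GL (Fin n) (𝓞 F), mF B = γ.1 ∧ B ∈ CgR n (𝓞 F) ((N : ℕ) : 𝓞 F) := by
  obtain ⟨Z, hZ⟩ := entries hN h
  obtain ⟨Z', hZ'⟩ := entries hN (γ := γ⁻¹) (by rw [map_inv]; exact inv_mem h)
  have inj : ∀ X Y : Matrix (Fin n) (Fin n) (𝓞 F),
      X.map (algebraMap (𝓞 F) F) = Y.map (algebraMap (𝓞 F) F) → X = Y := by
    intro X Y hXY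
    ext i j
    exact congrArg _ (alg_inj (congrFun (congrFun hXY i) j))
  obtain ⟨X, hX⟩ : ∃ X : Matrix (Fin n) (Fin n) (𝓞 F),
      X = fun i j => (1 : Matrix (Fin n) (Fin n) (𝓞 F)) i j + (N : 𝓞 F) * Z i j := ⟨_, rfl⟩
  obtain ⟨Y, hY⟩ : ∃ Y : Matrix (Fin n) (Fin n) (𝓞 F),
      Y = fun i j => (1 : Matrix (Fin n) (Fin n) (𝓞 F)) i j + (N : 𝓞 F) * Z' i j := ⟨_, rfl⟩
  have eX : X.map (algebraMap (𝓞 F) F) = γ.1.1 := by
    funext i j
    rw [hX]
    exact (hZ i j).symm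
  have eY : Y.map (algebraMap (𝓞 F) F) = (γ.1⁻¹).1 := by
    funext i j
    rw [hY]
    exact (hZ' i j).symm
  refine ⟨⟨X, Y, ?_, ?_⟩, ?_, ?_⟩
  · apply inj
    rw [Matrix.map_mul, eX, eY, ← Units.val_mul, mul_inv_cancel]
    exact (Matrix.map_one _ (map_zero _) (map_one _)).symm
  · apply inj
    rw [Matrix.map_mul, eX, eY, ← Units.val_mul, inv_mul_cancel]
    exact (Matrix.map_one _ (map_zero _) (map_one _)).symm
  · apply Units.ext
    exact eX
  · rw [mem_CgR]
    intro i j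
    show _ ∣ X i j - _
    rw [hX]
    exact ⟨Z i j, by ring⟩

lemma mem_KN_of {N : ℕ} {γ : GQ n F} {B : GL (Fin n) (𝓞 F)} (h1 : mF B = γ.1)
    (h2 : B ∈ CgR n (𝓞 F) ((N : ℕ) : 𝓞 F)) : dg n γ ∈ KN n F N := by
  have key : ∀ (B : GL (Fin n) (𝓞 F)), B ∈ CgR n (𝓞 F) ((N : ℕ) : 𝓞 F) → ∀ v : Pl F,
      Bd ((loc n v (mF B)).1 - 1) (vv v ((N : ℕ) : Kv v)) := by
    intro B hB v i j
    obtain ⟨z, hz⟩ := mem_CgR.1 hB i j
    have e1 : (loc n v (mF B)).1 i j - (1 : Matrix (Fin n) (Fin n) (Kv v)) i j =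
        cst v (algebraMap (𝓞 F) F (B.1 i j - (1 : Matrix (Fin n) (Fin n) (𝓞 F)) i j)) := by
      rw [map_sub, map_sub]
      congr 1
      rw [Matrix.one_apply, Matrix.one_apply]
      split_ifs <;> simp
    rw [Matrix.sub_apply, e1, hz, map_mul, map_mul, map_mul, map_natCast, map_natCast]
    exact mul_le_of_le_one_right' (vv_int v z)
  intro v
  refine Cg_of (g := (dg n γ).1 v) ?_ ?_
  · have := key B h2 v
    rw [h1] at this
    exact this
  · have := key B⁻¹ (inv_mem h2) v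
    rw [map_inv, h1] at this
    exact this

/-- matrices of determinant one -/
noncomputable def gq (ν : GL (Fin n) (𝓞 F)) (h : ν.1.det = 1) : GQ n F :=
  ⟨mF ν, by
    intro φ
    have e : (mF ν).1.det = 1 := by
      have e1 : (mF ν).1 = (algebraMap (𝓞 F) F).mapMatrix ν.1 := rfl
      rw [e1, ← RingHom.map_det, h, map_one]
    rw [e, map_one]
    exact one_pos⟩

section
variable {A : Type} [AddCommGroup A]

lemma addOn_one {N : ℕ} {φ : GQ n F → A} (hφ : AddOn N φ) : φ 1 = 0 := by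
  have h := hφ 1 1 (by rw [map_one]; exact one_mem _) (by rw [map_one]; exact one_mem _)
  rw [mul_one] at h
  exact left_eq_add.1 h

lemma addOn_inv {N : ℕ} {φ : GQ n F → A} (hφ : AddOn N φ) {γ : GQ n F}
    (h : dg n γ ∈ KN n F N) : φ γ⁻¹ = - φ γ := by
  have h1 := hφ γ γ⁻¹ h (by rw [map_inv]; exact inv_mem h)
  rw [mul_inv_cancel, addOn_one hφ] at h1
  exact (neg_eq_of_add_eq_zero_right h1.symm).symm

lemma addOn_pow {N : ℕ} {φ : GQ n F → A} (hφ : AddOn N φ) {γ : GQ n F}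
    (h : dg n γ ∈ KN n F N) (w : ℕ) : φ (γ ^ w) = w • φ γ := by
  induction w with
  | zero => rw [pow_zero, zero_smul, addOn_one hφ]
  | succ w ih =>
    rw [pow_succ, hφ _ _ (by rw [map_pow]; exact pow_mem h _) h, ih, succ_nsmul]

/-- the kernel of `φ` in the matrices of determinant one -/
noncomputable def Kr {N : ℕ} {φ : GQ n F → A} (hφ : AddOn N φ) : Subgroup (GL (Fin n) (𝓞 F)) where
  carrier := {ν | ν ∈ CgR n (𝓞 F) ((N : ℕ) : 𝓞 F) ∧ ∃ h : ν.1.det = 1, φ (gq ν h) = 0}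
  one_mem' := by
    refine ⟨one_mem _, by rw [Units.val_one, det_one], ?_⟩
    have e : gq (1 : GL (Fin n) (𝓞 F)) (by rw [Units.val_one, det_one]) = (1 : GQ n F) :=
      Subtype.ext (map_one mF)
    rw [e]
    exact addOn_one hφ
  mul_mem' := by
    rintro a b ⟨ha, ha', ha0⟩ ⟨hb, hb', hb0⟩
    refine ⟨mul_mem ha hb, by rw [Units.val_mul, det_mul, ha', hb', one_mul], ?_⟩
    have e : gq (a * b) (by rw [Units.val_mul, det_mul, ha', hb', one_mul]) =
      gq a ha' * gq b hb' := Subtype.ext (map_mul mF a b)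
    rw [e, hφ _ _ (mem_KN_of rfl ha) (mem_KN_of rfl hb), ha0, hb0, add_zero]
  inv_mem' := by
    rintro a ⟨ha, ha', ha0⟩
    have h1 : (a⁻¹).1.det = 1 := by
      have h2 : (a⁻¹).1.det * a.1.det = 1 := by
        rw [← det_mul, ← Units.val_mul, inv_mul_cancel, Units.val_one, det_one]
      rwa [ha', mul_one] at h2
    refine ⟨inv_mem ha, h1, ?_⟩
    have e : gq a⁻¹ h1 = (gq a ha')⁻¹ := Subtype.ext (map_inv mF a)
    rw [e, addOn_inv hφ (mem_KN_of rfl ha), ha0, neg_zero]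

lemma el_pow {R : Type} [CommRing R] (i j : Fin n) (h : i ≠ j) (t : R) (w : ℕ) :
    (el i j h t) ^ w = el i j h ((w : R) * t) := by
  induction w with
  | zero => rw [pow_zero, Nat.cast_zero, zero_mul, el_zero]
  | succ w ih =>
    rw [pow_succ, ih, ← el_add]
    congr 1
    push_cast
    ring

lemma el_det {R : Type} [CommRing R] (i j : Fin n) (h : i ≠ j) (t : R) :
    (el i j h t).1.det = 1 := det_transvection_of_ne i j h t

lemma NE_le_Kr {N w : ℕ} (hwA : ∀ a : A, w • a = 0) {φ : GQ n F → A} (hφ : AddOn N φ) :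
    NE n (𝓞 F) (((2 * N * w : ℕ)) : 𝓞 F) ≤ Kr hφ := by
  unfold NE Subgroup.normalClosure
  rw [Subgroup.closure_le]
  intro x hx
  rw [Group.mem_conjugatesOfSet_iff] at hx
  obtain ⟨_, ⟨i, j, h, t, rfl⟩, hconj⟩ := hx
  obtain ⟨g, hg⟩ := isConj_iff.1 hconj
  obtain ⟨y, hy⟩ : ∃ y : GL (Fin n) (𝓞 F), y = g * el i j h ((N : 𝓞 F) * (2 * t)) * g⁻¹ :=
    ⟨_, rfl⟩
  have hyC : y ∈ CgR n (𝓞 F) ((N : ℕ) : 𝓞 F) := by
    rw [hy]
    exact instNormCg.conj_mem _ (NE_le (qq_eq_one.1 (qq_el_M i j h _))) g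
  have hconjdet : ∀ z : GL (Fin n) (𝓞 F), (g * z * g⁻¹).1.det = z.1.det := by
    intro z
    rw [Units.val_mul, Units.val_mul, det_mul, det_mul, mul_right_comm, ← det_mul,
      ← Units.val_mul, mul_inv_cancel, Units.val_one, det_one, one_mul]
  have hyd : y.1.det = 1 := by
    rw [hy, hconjdet, el_det]
  have hxy : x = y ^ w := by
    rw [← hg, hy, conj_pow, el_pow]
    have e : SpecialLinearGroup.toGL (tvr i j h ((((2 * N * w : ℕ)) : 𝓞 F) * t)) =
      el i j h ((((2 * N * w : ℕ)) : 𝓞 F) * t) := rfl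
    rw [e]
    congr 3
    push_cast
    ring
  have hxd : x.1.det = 1 := by
    rw [hxy, Units.val_pow_eq_pow_val, det_pow, hyd, one_pow]
  refine ⟨by rw [hxy]; exact pow_mem hyC w, hxd, ?_⟩
  have e : gq x hxd = (gq y hyd) ^ w := by
    apply Subtype.ext
    show mF x = (mF y) ^ w
    rw [hxy, map_pow]
  rw [e, addOn_pow hφ (mem_KN_of rfl hyC), hwA]

/-- integral elementary matrices act trivially -/
lemma int_mem (hS : S_SCF) (hn : 3 ≤ n) {w : ℕ} (hw : w ≠ 0) (hwA : ∀ a : A, w • a = 0)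
    (e : SpecialLinearGroup (Fin n) (𝓞 F)) (he : e ∈ Ele n (𝓞 F)) :
    mF (SpecialLinearGroup.toGL e) ∈ C12m.Zg n F A := by
  intro N φ hN hφ
  have hM0 : 2 * N * w ≠ 0 := mul_ne_zero (mul_ne_zero two_ne_zero hN) hw
  refine ⟨2 * N * w, hM0, fun x hx => ?_⟩
  obtain ⟨B, hB, hBc⟩ := exists_int hM0 hx
  have h1 := hS (𝓞 F) n hn (((2 * N * w : ℕ)) : 𝓞 F) (by exact_mod_cast hM0) (by
    intro hu
    have h2 : IsUnit ((2 : ℕ) : 𝓞 F) := by
      have e1 : (((2 * N * w : ℕ)) : 𝓞 F) = ((2 : ℕ) : 𝓞 F) * ((N : 𝓞 F) * (w : 𝓞 F)) := by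
        push_cast; ring
      rw [e1] at hu
      exact isUnit_of_mul_isUnit_left hu
    have h3 := h2.map (Algebra.norm ℤ)
    have h4 : Algebra.norm ℤ ((2 : ℕ) : 𝓞 F) = 2 ^ Module.finrank ℤ (𝓞 F) := by
      have := Algebra.norm_algebraMap (R := ℤ) (S := 𝓞 F) 2
      simpa using this
    rw [h4, Int.isUnit_iff] at h3
    have h5 : 0 < Module.finrank ℤ (𝓞 F) := by
      rw [NumberField.RingOfIntegers.rank]
      exact Module.finrank_pos
    obtain ⟨d, hd⟩ : ∃ d, Module.finrank ℤ (𝓞 F) = d + 1 :=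
      ⟨Module.finrank ℤ (𝓞 F) - 1, by omega⟩
    rw [hd, pow_succ] at h3
    omega) B (mem_CgR.1 hBc) e he
  obtain ⟨h2, h3, h4⟩ := NE_le_Kr hwA hφ h1
  have hxN : dg n x ∈ KN n F N := KN_anti ⟨2 * w, by ring⟩ hx
  have e1 : cj (mF (SpecialLinearGroup.toGL e)) x =
      gq (SpecialLinearGroup.toGL e * B * (SpecialLinearGroup.toGL e)⁻¹ * B⁻¹) h3 * x := by
    apply Subtype.ext
    show mF (SpecialLinearGroup.toGL e) * x.1 * (mF (SpecialLinearGroup.toGL e))⁻¹ =
      mF (SpecialLinearGroup.toGL e * B * (SpecialLinearGroup.toGL e)⁻¹ * B⁻¹) * x.1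
    rw [← hB]
    simp only [map_mul, map_inv]
    group
  rw [e1, hφ _ _ (mem_KN_of rfl h2) hxN, h4, zero_add]

end

/-- the diagonal matrix with entry `c` at `i` -/
noncomputable def dI (i : Fin n) (c : Fˣ) : GL (Fin n) F where
  val := diagonal (Function.update 1 i (c : F))
  inv := diagonal (Function.update 1 i ((c⁻¹ : Fˣ) : F))
  val_inv := by
    rw [diagonal_mul_diagonal, ← diagonal_one]
    congr 1
    funext k
    by_cases hk : k = i
    · subst hk; simp
    · simp [Function.update_of_ne hk]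
  inv_val := by
    rw [diagonal_mul_diagonal, ← diagonal_one]
    congr 1
    funext k
    by_cases hk : k = i
    · subst hk; simp
    · simp [Function.update_of_ne hk]

lemma conj_el (i j : Fin n) (h : i ≠ j) (c : Fˣ) :
    el i j h (c : F) = dI i c * el i j h (1 : F) * (dI i c)⁻¹ := by
  rw [eq_mul_inv_iff_mul_eq]
  apply Units.ext
  rw [Units.val_mul, Units.val_mul, el_val, el_val]
  show transvection i j (c : F) * diagonal (Function.update 1 i (c : F)) =
    diagonal (Function.update 1 i (c : F)) * transvection i j 1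
  unfold transvection
  rw [Matrix.add_mul, Matrix.mul_add, Matrix.one_mul, Matrix.mul_one]
  congr 1
  ext a b
  rw [Matrix.mul_diagonal, Matrix.diagonal_mul, Matrix.single_apply, Matrix.single_apply]
  by_cases hab : i = a ∧ j = b
  · obtain ⟨rfl, rfl⟩ := hab
    rw [if_pos ⟨rfl, rfl⟩, if_pos ⟨rfl, rfl⟩, Function.update_self,
      Function.update_of_ne (Ne.symm h)]
    simp
  · rw [if_neg hab, if_neg hab, zero_mul, mul_zero]

lemma mF_el (i j : Fin n) (h : i ≠ j) :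
    mF (SpecialLinearGroup.toGL (tvr i j h (1 : 𝓞 F))) = el i j h (1 : F) := by
  apply Units.ext
  ext a b
  rw [mF_apply]
  show algebraMap (𝓞 F) F (transvection i j 1 a b) = transvection i j 1 a b
  unfold transvection
  rw [Matrix.add_apply, Matrix.add_apply, map_add, Matrix.one_apply, Matrix.one_apply,
    Matrix.single_apply, Matrix.single_apply]
  split_ifs <;> simp

end C1m

open C1m in
theorem c1b (h : S_SCF) : S_C1 := by
  intro n F _ _ A _ hn w hw hwA N hN φ hφ δ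
  have hel : ∀ (i j : Fin n) (hij : i ≠ j) (x : F), el i j hij x ∈ C12m.Zg n F A := by
    intro i j hij x
    by_cases hx : x = 0
    · subst hx
      rw [el_zero]
      exact one_mem _
    · have h1 : el i j hij (1 : F) ∈ C12m.Zg n F A := by
        rw [← mF_el]
        exact int_mem h hn hw hwA _ (tvr_mem _ _ _ _)
      have h2 := conj_el i j hij (Units.mk0 x hx)
      rw [Units.val_mk0] at h2
      rw [h2]
      exact C12m.Zg_normal h1 _
  have hall : ∀ B : SpecialLinearGroup (Fin n) F,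
      SpecialLinearGroup.toGL B ∈ C12m.Zg n F A := by
    intro B
    have hle : Ele n F ≤ (C12m.Zg n F A).comap SpecialLinearGroup.toGL := by
      unfold Ele
      rw [Subgroup.closure_le]
      rintro _ ⟨i, j, hij, x, rfl⟩
      exact hel i j hij x
    exact hle (ele_top (ev_field F) n B)
  obtain ⟨M, hM, h1⟩ := hall δ⁻¹ N φ hN hφ
  refine ⟨M, hM, fun γ hγ => ?_⟩
  rw [← h1 γ hγ]
  congr 1
  apply Subtype.ext
  show (SpecialLinearGroup.toGL δ)⁻¹ * γ.1 * SpecialLinearGroup.toGL δ =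
    SpecialLinearGroup.toGL δ⁻¹ * γ.1 * (SpecialLinearGroup.toGL δ⁻¹)⁻¹
  rw [map_inv, inv_inv]

end Pool.Agent.L0h47.NF
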