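import Pool.Agent.L0h47.NF.Stm

/-! # Module COB: cocycles that vanish on small stabilisers are coboundaries -/

set_option autoImplicit false

namespace Pool.Agent.L0h47.NF

open Matrix NumberField IsDedekindDomain
open scoped WithZero

variable {n : ℕ} {F : Type} [Field F] [NumberField F] {A : Type}

/-- the double coset relation of depth `N` -/
def dcos (n : ℕ) (F : Type) [Field F] [NumberField F] (N : ℕ) : Setoid (AG n F) where
  r x y := ∃ γ : GQ n F, ∃ κ ∈ KN n F N, y = dg n γ * x * κ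
  iseqv := by
    refine ⟨fun x => ⟨1, 1, one_mem _, by simp⟩, ?_, ?_⟩
    · rintro x y ⟨γ, κ, hκ, rfl⟩
      refine ⟨γ⁻¹, κ⁻¹, inv_mem hκ, ?_⟩
      rw [map_inv]
      group
    · rintro x y z ⟨γ, κ, hκ, rfl⟩ ⟨γ', κ', hκ', rfl⟩
      refine ⟨γ' * γ, κ * κ', mul_mem hκ hκ', ?_⟩
      rw [map_mul]
      group

/-- the depth can be chosen constant on the double cosets -/
lemma exists_depth [AddCommGroup A] {c : GQ n F → AG n F → A} (hc : IsCoc c) {N : ℕ} (hN : N ≠ 0)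
    (hinv : ∀ γ x, ∀ κ ∈ KN n F N, c γ (x * κ) = c γ x)
    (hz : ∀ r : AG n F, ∃ M : ℕ, M ≠ 0 ∧ ∀ γ : GQ n F, r⁻¹ * dg n γ * r ∈ KN n F M → c γ r = 0) :
    ∃ M : AG n F → ℕ, (∀ x, M x ≠ 0) ∧ (∀ x, N ∣ M x) ∧
      (∀ γ x, ∀ κ ∈ KN n F N, M (dg n γ * x * κ) = M x) ∧
      ∀ x γ, x⁻¹ * dg n γ * x ∈ KN n F (M x) → c γ x = 0 := by
  choose M₀ hM₀ hz using hz
  let s : Setoid (AG n F) := dcos n F N
  let r : AG n F → AG n F := fun x => (Quotient.mk s x).out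
  have hr : ∀ x, ∃ γ : GQ n F, ∃ κ ∈ KN n F N, x = dg n γ * r x * κ := by
    intro x
    exact Quotient.exact (s := s) (Quotient.out_eq (Quotient.mk s x))
  have hr' : ∀ γ x, ∀ κ ∈ KN n F N, r (dg n γ * x * κ) = r x := by
    intro γ x κ hκ
    have h2 : Quotient.mk s x = Quotient.mk s (dg n γ * x * κ) :=
      Quotient.sound (s := s) ⟨γ, κ, hκ, rfl⟩
    show (Quotient.mk s (dg n γ * x * κ)).out = (Quotient.mk s x).out
    rw [h2]
  refine ⟨fun x => M₀ (r x) * N, fun x => mul_ne_zero (hM₀ _) hN, fun x => dvd_mul_left _ _,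
    fun γ x κ hκ => by show M₀ (r (dg n γ * x * κ)) * N = _; rw [hr' γ x κ hκ], ?_⟩
  intro x γ hx
  obtain ⟨γ₀, k, hk, e⟩ := hr x
  have hk1 : k ∈ KN n F 1 := KN_le_one N hk
  have hη : (r x)⁻¹ * dg n (γ₀⁻¹ * γ * γ₀) * r x ∈ KN n F (M₀ (r x) * N) := by
    have h1 := KN_conj' hk1 hx
    have h2 : k * (x⁻¹ * dg n γ * x) * k⁻¹ = (r x)⁻¹ * dg n (γ₀⁻¹ * γ * γ₀) * r x := by
      have e' : x * k⁻¹ = dg n γ₀ * r x := by
        conv_lhs => rw [e]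
        group
      calc k * (x⁻¹ * dg n γ * x) * k⁻¹ = (x * k⁻¹)⁻¹ * dg n γ * (x * k⁻¹) := by group
        _ = _ := by rw [e', map_mul, map_mul, map_inv]; group
    rw [← h2]
    exact h1
  have hz1 : c (γ₀⁻¹ * γ * γ₀) (r x) = 0 := hz _ _ (KN_anti (dvd_mul_right _ _) hη)
  have e1 : γ₀ * (γ₀⁻¹ * γ * γ₀) = γ * γ₀ := by group
  have h1 := hc γ₀ (γ₀⁻¹ * γ * γ₀) (dg n γ₀ * r x)
  rw [e1, inv_mul_cancel_left, hz1, add_zero, hc] at h1
  have e2 : (dg n γ)⁻¹ * (dg n γ₀ * r x) =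
      dg n γ₀ * r x * ((r x)⁻¹ * dg n (γ₀⁻¹ * γ * γ₀) * r x)⁻¹ := by
    rw [map_mul, map_mul, map_inv]
    group
  rw [e2, hinv _ _ _ (inv_mem (KN_anti (dvd_mul_left _ _) hη))] at h1
  have h2 : c γ (dg n γ₀ * r x) = 0 := by
    exact left_eq_add.mp (by rw [add_comm]; exact h1.symm)
  rw [e, hinv _ _ _ hk]
  exact h2

theorem cob : S_COB := by
  intro n F _ _ A _ c hc N hN hinv hz
  obtain ⟨M, hM, hNM, hMi, hz⟩ := exists_depth hc hN hinv hz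
  let s : Setoid (AG n F) :=
    { r := fun x y => ∃ γ : GQ n F, ∃ κ ∈ KN n F (M x), y = dg n γ * x * κ
      iseqv := by
        refine ⟨fun x => ⟨1, 1, one_mem _, by simp⟩, ?_, ?_⟩
        · rintro x y ⟨γ, κ, hκ, rfl⟩
          refine ⟨γ⁻¹, κ⁻¹, ?_, ?_⟩
          · rw [hMi γ x κ (KN_anti (hNM x) hκ)]
            exact inv_mem hκ
          · rw [map_inv]
            group
        · rintro x y z ⟨γ, κ, hκ, rfl⟩ ⟨γ', κ', hκ', rfl⟩
          rw [hMi γ x κ (KN_anti (hNM x) hκ)] at hκ'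
          refine ⟨γ' * γ, κ * κ', mul_mem hκ hκ', ?_⟩
          rw [map_mul]
          group }
  let r : AG n F → AG n F := fun x => (Quotient.mk s x).out
  have hr : ∀ x, ∃ γ : GQ n F, ∃ κ ∈ KN n F (M (r x)), x = dg n γ * r x * κ := by
    intro x
    exact Quotient.exact (s := s) (Quotient.out_eq (Quotient.mk s x))
  have hr' : ∀ γ x, ∀ κ ∈ KN n F (M x), r (dg n γ * x * κ) = r x := by
    intro γ x κ hκ
    have h2 : Quotient.mk s x = Quotient.mk s (dg n γ * x * κ) :=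
      Quotient.sound (s := s) ⟨γ, κ, hκ, rfl⟩
    show (Quotient.mk s (dg n γ * x * κ)).out = (Quotient.mk s x).out
    rw [h2]
  choose γ₀ κ₀ hκ₀ h₀ using hr
  have hMr : ∀ x, M (r x) = M x := by
    intro x
    conv_rhs => rw [h₀ x]
    rw [hMi _ _ _ (KN_anti (hNM _) (hκ₀ x))]
  let f : AG n F → A := fun x => c (γ₀ x)⁻¹ (r x)
  have key : ∀ x γ, ∀ κ ∈ KN n F (M (r x)), x = dg n γ * r x * κ → f x = c γ⁻¹ (r x) := by
    intro x γ κ hκ hx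
    show c (γ₀ x)⁻¹ (r x) = _
    have e1 : (r x)⁻¹ * dg n (γ⁻¹ * γ₀ x) * r x = κ * (κ₀ x)⁻¹ := by
      have h1 : dg n (γ₀ x) * r x * κ₀ x = dg n γ * r x * κ := by rw [← hx, ← h₀ x]
      have h2 : dg n (γ₀ x) * r x = dg n γ * r x * κ * (κ₀ x)⁻¹ := by
        rw [← h1]; group
      rw [map_mul, map_inv, mul_assoc, mul_assoc (dg n γ)⁻¹, h2]
      group
    have hmem : κ * (κ₀ x)⁻¹ ∈ KN n F (M (r x)) := mul_mem hκ (inv_mem (hκ₀ x))
    have e2 : (r x)⁻¹ * dg n (γ⁻¹ * γ₀ x)⁻¹ * r x = (κ * (κ₀ x)⁻¹)⁻¹ := by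
      rw [← e1, map_inv]
      group
    have hz1 : c (γ⁻¹ * γ₀ x)⁻¹ (r x) = 0 := by
      apply hz
      rw [e2]
      exact inv_mem hmem
    have e3 : (γ₀ x)⁻¹ = (γ⁻¹ * γ₀ x)⁻¹ * γ⁻¹ := by group
    rw [e3, hc, hz1, zero_add]
    have e4 : (dg n (γ⁻¹ * γ₀ x)⁻¹)⁻¹ * r x = r x * (κ * (κ₀ x)⁻¹) := by
      rw [← e1, map_inv, inv_inv]
      group
    rw [e4, hinv _ _ _ (KN_anti (hNM _) hmem)]
  refine ⟨f, ?_, ?_⟩
  · intro g
    refine ⟨M g, hM g, fun κ hκ => ?_⟩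
    have h1 : r (g * κ) = r g := by
      have := hr' 1 g κ hκ
      rwa [map_one, one_mul] at this
    have hκ' : κ ∈ KN n F (M (r g)) := by rw [hMr]; exact hκ
    rw [key (g * κ) (γ₀ g) (κ₀ g * κ) (by rw [h1]; exact mul_mem (hκ₀ g) hκ')
      (by rw [h1, ← mul_assoc, ← h₀ g]), h1]
  · intro γ x
    unfold dF
    have e1 : (dg n γ)⁻¹ * x = dg n (γ⁻¹ * γ₀ x) * r x * κ₀ x := by
      conv_lhs => rw [h₀ x]
      rw [map_mul, map_inv]
      group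
    have h1 : r ((dg n γ)⁻¹ * x) = r x := by
      have := hr' γ⁻¹ x 1 (one_mem _)
      rwa [map_inv, mul_one] at this
    rw [key ((dg n γ)⁻¹ * x) (γ⁻¹ * γ₀ x) (κ₀ x) (by rw [h1]; exact hκ₀ x) (by rw [h1]; exact e1),
      h1]
    have e2 : (γ⁻¹ * γ₀ x)⁻¹ = (γ₀ x)⁻¹ * γ := by group
    rw [e2, hc]
    have e3 : (dg n (γ₀ x)⁻¹)⁻¹ * r x = x * (κ₀ x)⁻¹ := by
      rw [map_inv, inv_inv]
      calc dg n (γ₀ x) * r x = (dg n (γ₀ x) * r x * κ₀ x) * (κ₀ x)⁻¹ := by group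
        _ = _ := by rw [← h₀ x]
    rw [e3, hinv _ _ _ (inv_mem (KN_anti (hNM _) (hκ₀ x)))]
    show c γ x = c (γ₀ x)⁻¹ (r x) + c γ x - c (γ₀ x)⁻¹ (r x)
    abel

end Pool.Agent.L0h47.NF
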