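import Pool.Agent.L0h47.NF.Stm

/-!
# Project NF (helper47), module EIG: the Satake polynomial at the places with `q ≡ 1`
-/

set_option autoImplicit false
set_option linter.all false

namespace Pool.Agent.L0h47.NF

open Matrix NumberField IsDedekindDomain
open scoped WithZero

namespace Eig

lemma dvd_choose {p : ℕ} (hp : p.Prime) (a m j : ℕ) (hj : ¬ p ^ a ∣ j) :
    p ∣ (p ^ a * m).choose j := by
  haveI : Fact p.Prime := ⟨hp⟩
  rw [← CharP.cast_eq_zero_iff (ZMod p) p]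
  have h1 : ((1 : Polynomial (ZMod p)) + Polynomial.X) ^ (p ^ a * m) =
      Polynomial.expand (ZMod p) (p ^ a) ((1 + Polynomial.X) ^ m) := by
    rw [pow_mul, add_pow_char_pow, one_pow, map_pow, map_add, map_one, Polynomial.expand_X]
  have h2 := congrArg (fun f : Polynomial (ZMod p) => f.coeff j) h1
  rw [Polynomial.coeff_one_add_X_pow, Polynomial.coeff_expand (pow_pos hp.pos a), if_neg hj] at h2
  exact h2

end Eig

theorem eig (h1 : S_SMC) (h2 : S_TJ) (h3 : S_LOW) (h4 : S_DEG) (h5 : S_SAT) : S_EIG := by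
  intro n F _ _ Sg L p O _ W _ _ C hn hp k _ _ _ _ θ t i hi hne v hv
  set τ : ℕ → k := fun j => θ (FreeAlgebra.ι O ⟨v, td n v.1 j⟩) with hτ
  obtain ⟨a, m, hm, hnm⟩ := Nat.exists_eq_pow_mul_and_not_dvd (show n ≠ 0 by omega) p hp.ne_one
  have hp0 : p ≠ 0 := hp.ne_zero
  have hT : ∀ j, j ≤ n → Sem C v.1 (FreeAlgebra.ι O ⟨v, td n v.1 j⟩) (deg n v.1 j) j :=
    fun j hj => h2 n F Sg L p O W C v j hn hp0 hj
  obtain ⟨hmul, hcomb, hone⟩ := h1 n F Sg L p O W C v.1
  have hθ : ∀ P D e, (p : ℤ) ∣ D → Sem C v.1 P D e → θ P = 0 := fun P D e hD hP =>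
    h3 n F Sg L p O W C v.1 P D e hD hP i hi k θ hne
  have hpow : ∀ (P : FreeAlgebra O (HI n Sg)) (D : ℤ) (e : ℕ), Sem C v.1 P D e →
      ∀ r : ℕ, Sem C v.1 (P ^ r) (D ^ r) (r * e) := by
    intro P D e hP r
    induction r with
    | zero => rw [pow_zero, pow_zero, zero_mul]; exact hone
    | succ r ih =>
      rw [pow_succ, pow_succ, Nat.succ_mul]
      exact hmul _ _ _ _ _ _ ih hP
  have hdeg : ∀ j, j ≤ n → (deg n v.1 j : ℤ) ≡ (n.choose j : ℤ) [ZMOD p] := fun j hj =>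
    Int.natCast_modEq_iff.2 (h4 n F v.1 p j hp hj hv)
  -- the first condition
  have c1 : ∀ j, j ≤ n → ¬ p ^ a ∣ j → τ j = 0 := by
    intro j hj hja
    refine hθ _ _ _ ?_ (hT j hj)
    have e1 := hdeg j hj
    rw [← Int.modEq_zero_iff_dvd]
    refine e1.trans ?_
    rw [Int.modEq_zero_iff_dvd]
    have := Eig.dvd_choose hp a m j hja
    rw [← hnm] at this
    exact_mod_cast this
  -- the second condition
  have c2 : ∀ i, i ≤ m → (n.choose (p ^ a) : k) ^ i * τ (p ^ a * i) =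
      (n.choose (p ^ a * i) : k) * τ (p ^ a) ^ i := by
    intro s hs
    have hm0 : 0 < m := by
      rcases Nat.eq_zero_or_pos m with h | h
      · rw [h] at hm; exact absurd (dvd_zero p) hm
      · exact h
    have hj1 : p ^ a ≤ n := by
      rw [hnm]; exact Nat.le_mul_of_pos_right _ hm0
    have hj2 : p ^ a * s ≤ n := by
      conv_rhs => rw [hnm]
      exact Nat.mul_le_mul_left _ hs
    have q1 := hT (p ^ a * s) hj2
    have q2 := hpow _ _ _ (hT (p ^ a) hj1) s
    rw [mul_comm s] at q2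
    have q3 := hcomb _ _ _ _ _ ((n.choose (p ^ a) : ℤ) ^ s) (-(n.choose (p ^ a * s) : ℤ)) q1 q2
    have q4 := hθ _ _ _ ?_ q3
    · rw [map_add, map_zsmul, map_zsmul, map_pow] at q4
      simp only [zsmul_eq_mul] at q4
      push_cast at q4
      have q5 : (n.choose (p ^ a) : k) ^ s * τ (p ^ a * s) +
          -(n.choose (p ^ a * s) : k) * τ (p ^ a) ^ s = 0 := q4
      linear_combination q5
    · rw [← Int.modEq_zero_iff_dvd]
      have e1 := (hdeg (p ^ a * s) hj2).mul_left ((n.choose (p ^ a) : ℤ) ^ s)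
      have e2 := ((hdeg (p ^ a) hj1).pow s).mul_left (-(n.choose (p ^ a * s) : ℤ))
      refine (e1.add e2).trans ?_
      rw [show (n.choose (p ^ a) : ℤ) ^ s * (n.choose (p ^ a * s) : ℤ) +
        -(n.choose (p ^ a * s) : ℤ) * (n.choose (p ^ a) : ℤ) ^ s = 0 by ring]
  obtain ⟨c, hc⟩ := h5 n p hp (by omega) k a m hnm hm τ c1 c2
  refine ⟨c, ?_⟩
  rw [← hc]
  unfold satake
  have hq : ((qv v.1 : ℕ) : k) = 1 := by
    obtain ⟨d, hd⟩ := hv
    have : ((qv v.1 : ℕ) : k) - 1 = 0 := by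
      have e := congrArg (fun z : ℤ => (z : k)) hd
      push_cast at e
      rw [e, CharP.cast_eq_zero, zero_mul]
    exact sub_eq_zero.1 this
  refine Finset.sum_congr rfl fun j _ => ?_
  rw [hq, _root_.one_zpow, mul_one]

end Pool.Agent.L0h47.NF
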