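import Pool.Agent.L0h47.NF.Stm

/-!
# The final result from the statements of the parts
-/

set_option autoImplicit false

namespace Pool.Agent.L0h47.NF

open Matrix NumberField IsDedekindDomain

theorem fin (h1 : S_EIG) (h2 : S_GAL) (h3 : S_RTH) : S_FIN := by
  intro n F _ _ Sg L p O _ W _ _ C hn hp k _ _ _ _ θ e t he E _ _ _ _ ρ hatt hirr i hi
  by_contra hlt
  rw [not_le] at hlt
  obtain ⟨Γ, _, _, π, χ, hsurj, hfrob⟩ := h2 F E p hp Sg
  have hee : e * e = 1 := by rcases he with h | h <;> rw [h] <;> norm_num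
  refine h3 n (by omega) p hp k Γ Gal(E/F) π χ ρ hsurj ?_ hirr
  intro g hg
  obtain ⟨v, hv, hdvd, P, hP, hPv, hPf⟩ := hfrob (g ^ e) (by rw [map_zpow, hg, _root_.one_zpow])
  obtain ⟨c, hc⟩ := h1 n F Sg L p O W C hn hp k θ t i hlt hi ⟨v, hv⟩ hdvd
  refine ⟨c, ?_⟩
  rw [← hc, ← hatt.frob ⟨v, hv⟩ P hP hPv (π (g ^ e)) hPf]
  congr 3
  rw [map_zpow, ← _root_.zpow_mul, hee, zpow_one]

end Pool.Agent.L0h47.NF
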