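import Pool.Agent.L0h47.NF.Stm
import Pool.Agent.W401.Cheb.Main

/-!
# Frobenius elements at places with `q ≡ 1` modulo `p`
-/

set_option autoImplicit false

namespace Pool.Agent.L0h47.NF

open Matrix NumberField IsDedekindDomain Polynomial
open Pool.Agent.W401.Cheb (HasFrob xp infinite_frob)

namespace GALm

/-- a Frobenius element that fixes the roots of unity of order `N` -/
lemma frob_cong' {L' : Type} [Field L'] [NumberField L'] {N : ℕ} [NeZero N] {ζ : L'}
    (hζ : IsPrimitiveRoot ζ N) {l : ℕ} [hl : Fact l.Prime] (hlN : ¬ l ∣ N)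
    (φ : 𝓞 L' →+* AlgebraicClosure (ZMod l)) (σ : Gal(L'/ℚ)) (h : HasFrob l φ σ)
    (hfix : σ ζ = ζ) : N ∣ l - 1 := by
  have hζ' : IsPrimitiveRoot hζ.toInteger N := hζ.toInteger_isPrimitiveRoot
  have h1 : σ • hζ.toInteger = hζ.toInteger := by
    apply RingOfIntegers.ext
    exact hfix
  have h2 := h hζ.toInteger
  rw [h1] at h2
  have hNl : NeZero ((N : ℕ) : AlgebraicClosure (ZMod l)) := by
    refine ⟨fun h0 => hlN ?_⟩
    exact (CharP.cast_eq_zero_iff (AlgebraicClosure (ZMod l)) l N).mp h0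
  have hprim : IsPrimitiveRoot (φ hζ.toInteger) N := by
    rw [← isRoot_cyclotomic_iff]
    have h3 : IsRoot (cyclotomic N (𝓞 L')) hζ.toInteger := hζ'.isRoot_cyclotomic (NeZero.pos N)
    have h4 := h3.map (f := φ)
    rwa [map_cyclotomic] at h4
  have hne : φ hζ.toInteger ≠ 0 := hprim.ne_zero (NeZero.ne N)
  apply hprim.dvd_of_pow_eq_one
  have hpos : l = (l - 1) + 1 := (Nat.succ_pred_eq_of_pos hl.out.pos).symm
  apply mul_right_cancel₀ hne
  rw [one_mul, ← pow_succ, ← hpos, ← h2]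

/-- the kernel of a homomorphism to the algebraic closure with values fixed by Frobenius has
norm `l` -/
lemma absNorm_ker {F : Type} [Field F] [NumberField F] {l : ℕ} [hl : Fact l.Prime]
    (φ : 𝓞 F →+* AlgebraicClosure (ZMod l)) (h : ∀ x, φ x ^ l = φ x) :
    Ideal.absNorm (RingHom.ker φ) = l := by
  have hcard : Nat.card (𝓞 F ⧸ RingHom.ker φ) = l := by
    have e1 := (RingHom.quotientKerEquivRange φ).toEquiv
    rw [Nat.card_congr e1]
    have h2 : φ.range = (algebraMap (ZMod l) (AlgebraicClosure (ZMod l))).range := by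
      apply le_antisymm
      · rintro _ ⟨x, rfl⟩
        obtain ⟨z, hz⟩ := W54.ChTor.frob_fixed l (φ x) (h x)
        exact ⟨z, hz⟩
      · rintro _ ⟨z, rfl⟩
        refine ⟨((z.val : ℕ) : 𝓞 F), ?_⟩
        rw [map_natCast]
        have h3 : algebraMap (ZMod l) (AlgebraicClosure (ZMod l)) ((z.val : ℕ) : ZMod l) =
            ((z.val : ℕ) : AlgebraicClosure (ZMod l)) := map_natCast _ _
        rw [← h3, ZMod.natCast_zmod_val]
    rw [h2]
    have h4 : Nat.card (algebraMap (ZMod l) (AlgebraicClosure (ZMod l))).range =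
        Nat.card (ZMod l) := by
      symm
      apply Nat.card_congr
      exact Equiv.ofBijective
        ((algebraMap (ZMod l) (AlgebraicClosure (ZMod l))).rangeRestrict)
        ⟨fun a b hab => (algebraMap (ZMod l) (AlgebraicClosure (ZMod l))).injective
          (congrArg Subtype.val hab), RingHom.rangeRestrict_surjective _⟩
    rw [h4, Nat.card_eq_fintype_card, ZMod.card]
  rw [Ideal.absNorm_apply, Submodule.cardQuot_apply]
  exact hcard

/-- the main statement, with the big field as a variable -/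
theorem core (F E L' : Type) [Field F] [NumberField F] [Field E] [NumberField E] [Field L']
    [NumberField L'] [Algebra F E] [Algebra F L'] [Algebra E L'] [IsScalarTower F E L']
    [IsGalois F E] [IsGalois ℚ L'] (p : ℕ) [hp : Fact p.Prime] {ζ : L'}
    (hζ : IsPrimitiveRoot ζ p) (S : Finset (Pl F)) :
    ∃ (Γ : Type) (_ : Group Γ) (_ : Finite Γ) (π : Γ →* Gal(E/F)) (χ : Γ →* (ZMod p)ˣ),
    Function.Surjective π ∧ ∀ g : Γ, χ g = 1 → ∃ v : Pl F, v ∉ S ∧ (p : ℤ) ∣ (qv v : ℤ) - 1 ∧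
      ∃ P : Ideal (𝓞 E), P.IsPrime ∧ (∀ a ∈ v.asIdeal, algebraMap (𝓞 F) (𝓞 E) a ∈ P) ∧
        ∀ x : 𝓞 E, π g • x - x ^ (qv v) ∈ P := by
  have hGF : IsGalois F L' := IsGalois.tower_top_of_isGalois ℚ F L'
  have hnp : NeZero p := ⟨hp.out.ne_zero⟩
  refine ⟨Gal(L'/F), inferInstance, inferInstance, AlgEquiv.restrictNormalHom E,
    hζ.autToPow F, AlgEquiv.restrictNormalHom_surjective L', ?_⟩
  intro g hg
  have hfix : g ζ = ζ := by
    rw [← hζ.autToPow_spec F g, hg, Units.val_one]
    have : Fact (1 < p) := ⟨hp.out.one_lt⟩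
    rw [ZMod.val_one, pow_one]
  obtain ⟨σ, hσ⟩ : ∃ σ : Gal(L'/ℚ), ∀ x : L', σ x = g x :=
    ⟨g.restrictScalars ℚ, fun x => rfl⟩
  have hinf := infinite_frob L' σ
  have hfin : ({p} ∪ (qv '' (S : Set (Pl F)))).Finite :=
    (Set.finite_singleton p).union (S.finite_toSet.image _)
  obtain ⟨l, ⟨hl, hx⟩, hbad⟩ := (hinf.sdiff hfin).nonempty
  rw [Set.mem_union, not_or] at hbad
  have hlf : Fact l.Prime := ⟨hl⟩
  unfold xp at hx
  rw [dif_pos hl] at hx
  obtain ⟨⟨φ, hφ⟩⟩ : Nonempty {φ : 𝓞 L' →+* AlgebraicClosure (ZMod l) // HasFrob l φ σ} := by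
    by_contra h
    rw [not_nonempty_iff] at h
    exact hx Nat.card_of_isEmpty
  have hlp : ¬ l ∣ p := by
    intro h
    apply hbad.1
    rcases (Nat.dvd_prime hp.out).1 h with h1 | h1
    · exact absurd h1 hl.one_lt.ne'
    · exact h1
  have hdvd := frob_cong' hζ hlp φ σ hφ (by rw [hσ, hfix])
  -- the restriction to `F`
  obtain ⟨ψ, hψ⟩ : ∃ ψ : 𝓞 F →+* AlgebraicClosure (ZMod l),
      ψ = φ.comp (algebraMap (𝓞 F) (𝓞 L')) := ⟨_, rfl⟩
  have hψl : ∀ x, ψ x ^ l = ψ x := by
    intro x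
    rw [hψ, RingHom.comp_apply, ← hφ]
    congr 1
    apply RingOfIntegers.ext
    show σ (algebraMap F L' (x : F)) = algebraMap F L' (x : F)
    rw [hσ, AlgEquiv.commutes]
  have hnorm : Ideal.absNorm (RingHom.ker ψ) = l := absNorm_ker ψ hψl
  have hker : RingHom.ker ψ ≠ ⊥ := by
    intro h
    rw [h, Ideal.absNorm_bot] at hnorm
    exact hl.ne_zero hnorm.symm
  let v : Pl F := ⟨RingHom.ker ψ, RingHom.ker_isPrime _, hker⟩
  have hqv : qv v = l := hnorm
  refine ⟨v, ?_, ?_, ?_⟩
  · intro h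
    exact hbad.2 ⟨v, h, hqv⟩
  · rw [hqv]
    have h1 : ((l - 1 : ℕ) : ℤ) = (l : ℤ) - 1 := by
      rw [Nat.cast_sub hl.one_lt.le, Nat.cast_one]
    rw [← h1]
    exact_mod_cast hdvd
  · obtain ⟨ρ, hρ⟩ : ∃ ρ : 𝓞 E →+* AlgebraicClosure (ZMod l),
        ρ = φ.comp (algebraMap (𝓞 E) (𝓞 L')) := ⟨_, rfl⟩
    refine ⟨RingHom.ker ρ, RingHom.ker_isPrime _, ?_, ?_⟩
    · intro a ha
      have ha' : ψ a = 0 := ha
      rw [RingHom.mem_ker, hρ, RingHom.comp_apply]
      rw [hψ, RingHom.comp_apply] at ha'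
      rw [← ha']
      congr 1
      apply RingOfIntegers.ext
      show algebraMap E L' (algebraMap F E (a : F)) = algebraMap F L' (a : F)
      rw [← IsScalarTower.algebraMap_apply]
    · intro x
      rw [hqv, RingHom.mem_ker, map_sub, map_pow, sub_eq_zero, hρ, RingHom.comp_apply,
        RingHom.comp_apply, ← hφ]
      congr 1
      apply RingOfIntegers.ext
      show algebraMap E L' ((AlgEquiv.restrictNormalHom E g) (x : E)) =
        σ (algebraMap E L' (x : E))
      rw [hσ]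
      exact AlgEquiv.restrictNormal_commutes g E (x : E)

/-- existence of the big field -/
theorem exists_big (F E : Type) [Field F] [NumberField F] [Field E] [NumberField E]
    [Algebra F E] (p : ℕ) [hp : Fact p.Prime] :
    ∃ (L' : Type) (_ : Field L') (_ : NumberField L') (_ : Algebra F L') (_ : Algebra E L')
      (_ : IsScalarTower F E L') (_ : IsGalois ℚ L') (ζ : L'), IsPrimitiveRoot ζ p := by
  have hnp : NeZero p := ⟨hp.out.ne_zero⟩
  let K1 := CyclotomicField p E
  have hK1 : NumberField K1 := IsCyclotomicExtension.numberField {p} E K1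
  have hζ : IsPrimitiveRoot (IsCyclotomicExtension.zeta p E K1) p :=
    IsCyclotomicExtension.zeta_spec p E K1
  let L' := IntermediateField.normalClosure ℚ K1 (AlgebraicClosure K1)
  have hn0 : Normal ℚ (AlgebraicClosure K1) := by
    have h1 : IsAlgClosure ℚ (AlgebraicClosure K1) :=
      IsAlgClosure.ofAlgebraic ℚ K1 (AlgebraicClosure K1)
    exact IsAlgClosure.normal ℚ (AlgebraicClosure K1)
  have hn : Normal ℚ L' := normalClosure.normal ℚ K1 (AlgebraicClosure K1)
  have hf : FiniteDimensional ℚ L' :=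
    normalClosure.is_finiteDimensional ℚ K1 (AlgebraicClosure K1)
  have hNL : NumberField L' := { to_charZero := inferInstance, to_finiteDimensional := hf }
  let i1 : Algebra E L' := ((algebraMap K1 L').comp (algebraMap E K1)).toAlgebra
  let i2 : Algebra F L' := ((algebraMap E L').comp (algebraMap F E)).toAlgebra
  have h3 : IsScalarTower F E L' := IsScalarTower.of_algebraMap_eq (fun x => rfl)
  have hG : IsGalois ℚ L' := ⟨⟩
  exact ⟨L', inferInstance, hNL, i2, i1, h3, hG, algebraMap K1 L' _,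
    hζ.map_of_injective (algebraMap K1 L').injective⟩

end GALm

theorem gal : S_GAL := by
  intro F E _ _ _ _ _ _ p hp S
  have : Fact p.Prime := ⟨hp⟩
  obtain ⟨L', _, _, _, _, _, _, ζ, hζ⟩ := GALm.exists_big F E p
  exact GALm.core F E L' p hζ S

end Pool.Agent.L0h47.NF
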