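import Pool.Agent.L0h47.NF.Stm

/-!
# Translates of a cocycle by adelic matrices with the same determinants
-/

set_option autoImplicit false

namespace Pool.Agent.L0h47.NF

open Matrix NumberField IsDedekindDomain
open scoped WithZero
open Pool.Agent.L0h47.CG (tvr Ele EV ele_top mtr mtr_mul mtr_one mtr_inj)

section
variable {n : ℕ} {F : Type} [Field F] [NumberField F] {A : Type} [AddCommGroup A]

lemma IsCoc.one' {c : GQ n F → AG n F → A} (hc : IsCoc c) (x : AG n F) : c 1 x = 0 := by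
  have h := hc 1 1 x
  rw [mul_one, map_one, inv_one, one_mul] at h
  exact left_eq_add.1 h

lemma IsCoc.inv' {c : GQ n F → AG n F → A} (hc : IsCoc c) (δ : GQ n F) (x : AG n F) :
    c δ⁻¹ x = - c δ (dg n δ * x) := by
  have h := hc δ⁻¹ δ x
  rw [inv_mul_cancel, hc.one', map_inv, inv_inv] at h
  exact eq_neg_of_add_eq_zero_left h.symm

/-- the value of a cocycle at a translate by a rational matrix -/
lemma IsCoc.trans' {c : GQ n F → AG n F → A} (hc : IsCoc c) (δ γ : GQ n F) (x : AG n F) :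
    c γ (dg n δ * x) = c (δ⁻¹ * γ * δ) x -
      (c δ ((dg n γ)⁻¹ * (dg n δ * x)) - c δ (dg n δ * x)) := by
  have h1 := hc δ⁻¹ (γ * δ) x
  rw [map_inv, inv_inv, hc γ δ, hc.inv'] at h1
  rw [mul_assoc, h1]
  abel

end

/-- HST -/
theorem hst (h1 : S_SA) (h2 : S_C1) (h3 : S_COB) : S_HST := by
  intro n F _ _ A _ hn w hw hwA c hc N hN hinv y y' hyy
  -- invariance of `c` under right translations
  obtain ⟨Na, hNa, ha⟩ := exists_conj_KN y hN
  obtain ⟨Nb, hNb, hb⟩ := exists_conj_KN y' hN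
  have htr : ∀ (z κ : AG n F) (γ : GQ n F) (x : AG n F), z⁻¹ * κ * z ∈ KN n F N →
      c γ (x * κ * z) = c γ (x * z) := by
    intro z κ γ x hz
    have e : x * κ * z = x * z * (z⁻¹ * κ * z) := by group
    rw [e, hinv γ _ _ hz]
  refine h3 n F A (fun γ x => c γ (x * y) - c γ (x * y')) ?_ (Na * Nb) (mul_ne_zero hNa hNb) ?_ ?_
  · intro γ δ x
    show c (γ * δ) (x * y) - c (γ * δ) (x * y') = (c γ (x * y) - c γ (x * y')) +
      (c δ ((dg n γ)⁻¹ * x * y) - c δ ((dg n γ)⁻¹ * x * y'))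
    rw [hc γ δ, hc γ δ, mul_assoc, mul_assoc]
    abel
  · intro γ x κ hκ
    show c γ (x * κ * y) - c γ (x * κ * y') = c γ (x * y) - c γ (x * y')
    rw [htr y κ γ x (ha κ (KN_anti (dvd_mul_right _ _) hκ)),
      htr y' κ γ x (hb κ (KN_anti (dvd_mul_left _ _) hκ))]
  · intro r
    -- the base point
    set x0 : AG n F := r * y with hx0
    obtain ⟨N2, hN2, hc2⟩ := exists_conj_KN x0 hN
    obtain ⟨δ, hδ⟩ := h1 n F (x0 * (y⁻¹ * y') * x0⁻¹) (by
      intro v
      have e : ((x0 * (y⁻¹ * y') * x0⁻¹).1 v).1.det = 1 := by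
        have e1 : (x0 * (y⁻¹ * y') * x0⁻¹).1 v =
            x0.1 v * ((y.1 v)⁻¹ * y'.1 v) * (x0.1 v)⁻¹ := rfl
        rw [e1, Units.val_mul, Units.val_mul, Units.val_mul, Matrix.det_mul, Matrix.det_mul,
          Matrix.det_mul, ← hyy v]
        have e2 : ∀ g : LG n v, (g⁻¹).1.det * g.1.det = 1 := by
          intro g
          rw [← Matrix.det_mul, ← Units.val_mul, inv_mul_cancel, Units.val_one, Matrix.det_one]
        have e3 := e2 (y.1 v)
        have e4 := e2 (x0.1 v)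
        rw [e3, mul_one, mul_comm]
        exact e4
      exact e) N2 hN2
    set d : AG n F := dg n (sQ δ) with hd
    -- `r y' = d x0 k`
    obtain ⟨k, hk, hrk⟩ : ∃ k ∈ KN n F N, r * y' = d * x0 * k := by
      refine ⟨x0⁻¹ * (d⁻¹ * (x0 * (y⁻¹ * y') * x0⁻¹)) * x0, hc2 _ hδ, ?_⟩
      rw [hx0]
      group
    have hval : ∀ γ, c γ (r * y') = c γ (d * x0) := by
      intro γ
      rw [hrk, hinv γ _ _ hk]
    -- the homomorphism
    obtain ⟨M2, hM2, hφ⟩ := h2 n F A hn w hw hwA N2 hN2 (fun γ => c γ x0) (by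
      intro γ γ' hγ _
      show c (γ * γ') x0 = c γ x0 + c γ' x0
      rw [hc γ γ']
      congr 1
      have e : (dg n γ)⁻¹ * x0 = x0 * (x0⁻¹ * (dg n γ)⁻¹ * x0) := by group
      rw [e]
      exact hinv γ' _ _ (hc2 _ (inv_mem hγ))) δ
    obtain ⟨M3, hM3, hm3⟩ := exists_conj_KN' r hM2
    obtain ⟨M4, hM4, hm4⟩ := exists_conj_KN (r⁻¹ * d * x0) hN
    refine ⟨M3 * M4, mul_ne_zero hM3 hM4, ?_⟩
    intro γ hγ
    show c γ (r * y) - c γ (r * y') = 0
    rw [hval γ, ← hx0, hc.trans' (sQ δ) γ x0]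
    have e1 : c ((sQ δ)⁻¹ * γ * sQ δ) x0 = c γ x0 := by
      refine hφ γ ?_
      have := hm3 _ (KN_anti (dvd_mul_right _ _) hγ)
      have e : r * (r⁻¹ * dg n γ * r) * r⁻¹ = dg n γ := by group
      rwa [e] at this
    have e2 : c (sQ δ) ((dg n γ)⁻¹ * (dg n (sQ δ) * x0)) = c (sQ δ) (dg n (sQ δ) * x0) := by
      have h5 := hm4 _ (inv_mem (KN_anti (dvd_mul_left _ _) hγ))
      have e : (dg n γ)⁻¹ * (dg n (sQ δ) * x0) = dg n (sQ δ) * x0 *
          ((r⁻¹ * d * x0)⁻¹ * (r⁻¹ * dg n γ * r)⁻¹ * (r⁻¹ * d * x0)) := by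
        rw [hd]
        group
      rw [e]
      exact hinv _ _ _ h5
    rw [e1, e2, sub_self, sub_zero, sub_self]

end Pool.Agent.L0h47.NF
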