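import Pool.Agent.L0h47.NF.Stm

/-!
# Module IDT: left invariant locally constant functions depend only on the determinants
-/

set_option autoImplicit false

namespace Pool.Agent.L0h47.NF

open Matrix NumberField IsDedekindDomain

theorem idt (h : S_SA) : S_IDT := by
  intro n F _ _ A Φ hinv hLC g g' hdet
  obtain ⟨N, hN, hΦ⟩ := hLC g
  obtain ⟨M, hM, hconj⟩ := exists_conj_KN g hN
  have ha : ∀ v, ((g' * g⁻¹).1 v).1.det = 1 := by
    intro v
    have e : (g' * g⁻¹).1 v = g'.1 v * (g.1 v)⁻¹ := rfl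
    rw [e, Units.val_mul, Matrix.det_mul, ← hdet v, ← Matrix.det_mul, ← Units.val_mul,
      mul_inv_cancel, Units.val_one, Matrix.det_one]
  obtain ⟨δ, hδ⟩ := h n F (g' * g⁻¹) ha M hM
  obtain ⟨k, hk⟩ : ∃ k, k = (dg n (sQ δ))⁻¹ * (g' * g⁻¹) := ⟨_, rfl⟩
  rw [← hk] at hδ
  have e1 : g' = dg n (sQ δ) * (k * g) := by
    rw [hk]
    group
  have e2 : k * g = g * (g⁻¹ * k * g) := by group
  rw [e1, hinv, e2, hΦ _ (hconj k hδ)]

end Pool.Agent.L0h47.NF
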