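import Pool.Agent.L0h47.NF.Stm

/-!
# Project NF (helper47), module LOW: from functions to cohomology in degrees zero and one
-/

set_option autoImplicit false
set_option linter.all false

namespace Pool.Agent.L0h47.NF

open Matrix NumberField IsDedekindDomain CategoryTheory
open scoped WithZero

namespace Low

variable {n : ℕ} {F : Type} [Field F] [NumberField F] {Sg : Finset (Pl F)} {L : Level n Sg}
  {p : ℕ} {O : Type} [CommRing O] {W : Type} [AddCommGroup W] [Module O W]

/-- the Hecke algebra commutes with the left translations -/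
lemma opF_rep (C : Coef L p O W) (Q : FreeAlgebra O (HI n Sg)) (γ : GQ n F) (f : C.Fn) :
    opF C Q (C.rep γ f) = C.rep γ (opF C Q f) := by
  induction Q using FreeAlgebra.induction generalizing f with
  | grade0 r =>
    unfold opF
    rw [AlgHom.commutes, Module.algebraMap_end_apply, Module.algebraMap_end_apply, map_smul]
  | grade1 a =>
    unfold opF
    rw [FreeAlgebra.lift_ι_apply]
    apply Subtype.ext
    funext g
    exact hecke_left f.1 a.2 (dg n γ)⁻¹ g
  | mul a b ha hb =>
    rw [map_mul, Module.End.mul_apply, Module.End.mul_apply, hb, ha]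
  | add a b ha hb =>
    rw [map_add, LinearMap.add_apply, LinearMap.add_apply, ha, hb, map_add]

lemma z_coc (C : Coef L p O W) (z : groupCohomology.cocycles₁ (Rep.of C.rep)) :
    IsCoc (fun γ => (show C.Fn from z γ).1) := by
  intro γ δ x
  have h := (groupCohomology.mem_cocycles₁_iff (A := Rep.of C.rep) z).mp z.2 γ δ
  have h2 := congrArg (fun F : C.Fn => F.1 x) h
  show (show C.Fn from z (γ * δ)).1 x = _
  rw [add_comm]
  exact h2

/-- the Hecke algebra on cocycles -/
noncomputable def mapZ (C : Coef L p O W) (Q : FreeAlgebra O (HI n Sg))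
    (z : groupCohomology.cocycles₁ (Rep.of C.rep)) : groupCohomology.cocycles₁ (Rep.of C.rep) :=
  ⟨fun γ => opF C Q (show C.Fn from z γ), by
    rw [groupCohomology.mem_cocycles₁_iff]
    intro γ δ
    have h := (groupCohomology.mem_cocycles₁_iff (A := Rep.of C.rep) z).mp z.2 γ δ
    have h1 : (show C.Fn from z (γ * δ)) = C.rep γ (show C.Fn from z δ) + (show C.Fn from z γ) := h
    show opF C Q (show C.Fn from z (γ * δ)) = C.rep γ (opF C Q (show C.Fn from z δ)) +
      opF C Q (show C.Fn from z γ)
    rw [h1, map_add, opF_rep]⟩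

lemma z_ext (C : Coef L p O W) {z z' : groupCohomology.cocycles₁ (Rep.of C.rep)}
    (h : ∀ γ, (show C.Fn from z γ) = (show C.Fn from z' γ)) : z = z' := by
  apply groupCohomology.cocycles₁_ext
  intro γ
  exact h γ

lemma T_pi (C : Coef L p O W) (a : HI n Sg) (z z' : groupCohomology.cocycles₁ (Rep.of C.rep))
    (h : ∀ γ, (show C.Fn from z' γ) = C.heckeFn a.1.1 a.1.2 a.2 (show C.Fn from z γ)) :
    C.T 1 a ((groupCohomology.H1π (Rep.of C.rep)).hom z) =
      (groupCohomology.H1π (Rep.of C.rep)).hom z' := by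
  have h1 := groupCohomology.H1π_comp_map_apply (MonoidHom.id (GQ n F))
    (C.heckeRep a.1.1 a.1.2 a.2) z
  refine h1.trans ?_
  congr 1
  apply z_ext
  intro γ
  rw [h]
  rfl

lemma hAct_pi (C : Coef L p O W) (Q : FreeAlgebra O (HI n Sg)) :
    ∀ z : groupCohomology.cocycles₁ (Rep.of C.rep),
      C.hAct 1 Q ((groupCohomology.H1π (Rep.of C.rep)).hom z) =
        (groupCohomology.H1π (Rep.of C.rep)).hom (mapZ C Q z) := by
  induction Q using FreeAlgebra.induction with
  | grade0 r =>
    intro z
    unfold Coef.hAct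
    rw [AlgHom.commutes, Module.algebraMap_end_apply, ← map_smul]
    congr 1
    apply z_ext
    intro γ
    show r • (show C.Fn from z γ) = opF C (algebraMap O _ r) (show C.Fn from z γ)
    unfold opF
    rw [AlgHom.commutes, Module.algebraMap_end_apply]
  | grade1 a =>
    intro z
    unfold Coef.hAct
    rw [FreeAlgebra.lift_ι_apply]
    apply T_pi
    intro γ
    show opF C (FreeAlgebra.ι O a) (show C.Fn from z γ) = _
    unfold opF
    rw [FreeAlgebra.lift_ι_apply]
  | mul a b ha hb =>
    intro z
    rw [map_mul, Module.End.mul_apply, hb, ha]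
    congr 1
    apply z_ext
    intro γ
    show opF C a (opF C b (show C.Fn from z γ)) = opF C (a * b) (show C.Fn from z γ)
    rw [map_mul, Module.End.mul_apply]
  | add a b ha hb =>
    intro z
    rw [map_add, LinearMap.add_apply, ha, hb, ← map_add]
    congr 1
    apply z_ext
    intro γ
    show opF C a (show C.Fn from z γ) + opF C b (show C.Fn from z γ) =
      opF C (a + b) (show C.Fn from z γ)
    rw [map_add, LinearMap.add_apply]

lemma pi_zero (C : Coef L p O W) (z : groupCohomology.cocycles₁ (Rep.of C.rep))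
    (f : C.Fn) (h : ∀ γ, (show C.Fn from z γ) = C.rep γ f - f) :
    (groupCohomology.H1π (Rep.of C.rep)).hom z = 0 := by
  have h1 := (groupCohomology.H1π_eq_zero_iff (A := Rep.of C.rep) z).mpr
  apply h1
  refine ⟨f, ?_⟩
  funext γ
  exact (h γ).symm

/-- the functions of a class in degree zero -/
noncomputable def phi (C : Coef L p O W) : C.H 0 →ₗ[O] C.Fn :=
  C.rep.invariants.subtype ∘ₗ (groupCohomology.H0Iso (Rep.of C.rep)).toLinearEquiv.toLinearMap

lemma phi_inj (C : Coef L p O W) : Function.Injective (phi C) := by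
  intro x y hxy
  apply (groupCohomology.H0Iso (Rep.of C.rep)).toLinearEquiv.injective
  exact Subtype.ext hxy

lemma phi_inv (C : Coef L p O W) (h : C.H 0) (γ : GQ n F) : C.rep γ (phi C h) = phi C h :=
  ((groupCohomology.H0Iso (Rep.of C.rep)).toLinearEquiv h).2 γ

lemma hAct_phi (C : Coef L p O W) (Q : FreeAlgebra O (HI n Sg)) :
    ∀ h : C.H 0, phi C (C.hAct 0 Q h) = opF C Q (phi C h) := by
  induction Q using FreeAlgebra.induction with
  | grade0 r =>
    intro h
    unfold Coef.hAct opF
    rw [AlgHom.commutes, AlgHom.commutes, Module.algebraMap_end_apply,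
      Module.algebraMap_end_apply, map_smul]
  | grade1 a =>
    intro h
    unfold Coef.hAct opF
    rw [FreeAlgebra.lift_ι_apply, FreeAlgebra.lift_ι_apply]
    have h1 := groupCohomology.map_id_comp_H0Iso_hom_apply (C.heckeRep a.1.1 a.1.2 a.2) h
    exact congrArg (fun F : C.rep.invariants => F.1) h1
  | mul a b ha hb =>
    intro h
    rw [map_mul, map_mul, Module.End.mul_apply, Module.End.mul_apply, ha, hb]
  | add a b ha hb =>
    intro h
    rw [map_add, map_add, LinearMap.add_apply, LinearMap.add_apply, map_add, ha, hb]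

end Low

theorem low (h : S_SMC) : S_LOW := by
  intro n F _ _ Sg L p O _ W _ _ C v P D e hD hP i hi k _ _ θ hne
  obtain ⟨hmul, -, hone⟩ := h n F Sg L p O W C v
  have hpow : ∀ m : ℕ, ∃ e', Sem C v (P ^ m) (D ^ m) e' := by
    intro m
    induction m with
    | zero => exact ⟨0, by rw [pow_zero, pow_zero]; exact hone⟩
    | succ m ih =>
      obtain ⟨e', he'⟩ := ih
      exact ⟨e' + e, by rw [pow_succ, pow_succ]; exact hmul _ _ _ _ _ _ he' hP⟩
  obtain ⟨r, hr⟩ := C.tors
  obtain ⟨e', hS⟩ := hpow r
  have hkill : ∀ w : W, D ^ r • w = 0 := by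
    intro w
    obtain ⟨d, hd⟩ := hD
    have h1 : D ^ r = d ^ r * ((p ^ r : ℕ) : ℤ) := by
      rw [hd]; push_cast; ring
    rw [h1, mul_smul, natCast_zsmul, hr, smul_zero]
  interval_cases i
  · obtain ⟨x, hx⟩ := hne
    have h1 : C.hAct 0 (P ^ r) x = 0 := by
      apply Low.phi_inj C
      rw [Low.hAct_phi, map_zero]
      apply Subtype.ext
      funext g
      rw [hS.h0 (Low.phi C x) (by
        intro γ g
        have h3 := congrArg (fun f : C.Fn => f.1 (dg n γ * g)) (Low.phi_inv C x γ)
        have h4 : (Low.phi C x).1 ((dg n γ)⁻¹ * (dg n γ * g)) = (Low.phi C x).1 (dg n γ * g) := h3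
        rw [inv_mul_cancel_left] at h4
        exact h4.symm) g, hkill]
      rfl
    have h2 := hx _ h1
    rw [map_pow] at h2
    exact eq_zero_of_pow_eq_zero h2
  · obtain ⟨x, hx⟩ := hne
    have hsurj : Function.Surjective (groupCohomology.H1π (Rep.of C.rep)).hom :=
      (ModuleCat.epi_iff_surjective _).mp inferInstance
    obtain ⟨z, rfl⟩ := hsurj x
    obtain ⟨f, hf, hfz⟩ := hS.z (fun γ => (show C.Fn from z γ)) (Low.z_coc C z)
    obtain ⟨f', -, hf', hf'k⟩ := hS.k f hf (fun γ => opF C (P ^ r) (show C.Fn from z γ)) (by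
      intro γ x
      have h1 := hfz γ x
      rw [hkill, sub_zero] at h1
      exact h1)
    have hfn : f' ∈ C.Fn := by
      intro g κ
      have h1 := hf'k κ g
      rw [hkill, sub_eq_zero] at h1
      rw [← h1]
      have h2 : C.act κ⁻¹ * C.act κ = 1 := by rw [← map_mul, inv_mul_cancel, map_one]
      have h3 := congrArg (fun T : Module.End O W => T (f' (g * κ.1))) h2
      exact h3.symm
    have h1 : C.hAct 1 (P ^ r * P ^ r) ((groupCohomology.H1π (Rep.of C.rep)).hom z) = 0 := by
      rw [Low.hAct_pi]
      apply Low.pi_zero C _ ⟨f', hfn⟩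
      intro γ
      show opF C (P ^ r * P ^ r) (show C.Fn from z γ) = _
      rw [map_mul, Module.End.mul_apply]
      apply Subtype.ext
      funext g
      exact hf' γ g
    have h2 := hx _ h1
    rw [map_mul, map_pow, ← pow_add] at h2
    exact eq_zero_of_pow_eq_zero h2

end Pool.Agent.L0h47.NF
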