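import Pool.Agent.L0h47.NF.Stm

/-!
# The group `SL_n(O_v)` is perfect
-/

set_option autoImplicit false

namespace Pool.Agent.L0h47.NF

open Matrix NumberField IsDedekindDomain
open scoped WithZero
open Pool.Agent.L0h47.CG (tvr Ele EV ele_top mtr mtr_mul mtr_one mtr_inj Movable movable_clear
  tvr_apply tvr_mem)

namespace PRFm

/-- unimodular vectors over local rings are movable -/
lemma ev_local (R : Type*) [CommRing R] [IsLocalRing R] : EV R := by
  have key : ∀ (n : ℕ) (v : Fin (n + 2) → R) (i : Fin (n + 2)), i ≠ 0 → IsUnit (v i) →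
      Movable v := by
    intro n v i hi hv
    obtain ⟨u, hu⟩ := hv
    apply Movable.of (tvr_mem 0 i (Ne.symm hi) ((1 - v 0) * (↑u⁻¹ : R)))
    apply movable_clear
    rw [tvr_apply, if_pos rfl, ← hu, mul_assoc, Units.inv_mul]
    ring
  intro n v r h
  have hne : ∃ i, IsUnit (v i) := by
    by_contra hcon
    push Not at hcon
    have h1 : ∑ k, r k * v k ∈ IsLocalRing.maximalIdeal R := by
      refine Ideal.sum_mem _ fun k _ => Ideal.mul_mem_left _ _ ?_
      rw [IsLocalRing.mem_maximalIdeal]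
      exact hcon k
    rw [h, IsLocalRing.mem_maximalIdeal] at h1
    exact h1 isUnit_one
  obtain ⟨i, hi⟩ := hne
  by_cases hi0 : i = 0
  · subst hi0
    have h10 : (1 : Fin (n + 2)) ≠ 0 := (by simp)
    obtain ⟨u, hu⟩ := hi
    apply Movable.of (tvr_mem 1 0 h10 ((1 - v 1) * (↑u⁻¹ : R)))
    apply key n _ 1 h10
    rw [tvr_apply, if_pos rfl, ← hu, mul_assoc, Units.inv_mul]
    have e : v 1 + (1 - v 1) * 1 = 1 := by ring
    rw [e]
    exact isUnit_one
  · exact key n v i hi0 hi

/-- the commutator relation -/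
lemma comm_rel {n : ℕ} {R : Type*} [CommRing R] (i j k : Fin n) (hij : i ≠ j) (hik : i ≠ k)
    (hkj : k ≠ j) (t : R) :
    tvr i k hik t * tvr k j hkj 1 = tvr i j hij t * (tvr k j hkj 1 * tvr i k hik t) := by
  apply Subtype.ext
  show transvection i k t * transvection k j 1 =
    transvection i j t * (transvection k j 1 * transvection i k t)
  unfold transvection
  simp only [add_mul, mul_add, one_mul, mul_one, single_mul_single_same,
    single_mul_single_of_ne _ _ _ _ hij.symm, single_mul_single_of_ne _ _ _ _ hkj.symm]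
  simp only [mul_zero, add_zero]
  abel

/-- the ring of integers of the completion -/
noncomputable abbrev Ov {F : Type} [Field F] [NumberField F] (v : Pl F) := v.adicCompletionIntegers F

variable {n : ℕ} {F : Type} [Field F] [NumberField F] {v : Pl F}

/-- the embedding of `SL_n(O_v)` -/
noncomputable def em (n : ℕ) (v : Pl F) : SpecialLinearGroup (Fin n) (Ov v) →* LG n v :=
  (SpecialLinearGroup.toGL).comp (SpecialLinearGroup.map (Ov v).subtype)

lemma em_val (B : SpecialLinearGroup (Fin n) (Ov v)) (i j : Fin n) :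
    (em n v B).1 i j = (B.1 i j : Kv v) := rfl

lemma em_mem (B : SpecialLinearGroup (Fin n) (Ov v)) : em n v B ∈ U n v := by
  have h : ∀ B : SpecialLinearGroup (Fin n) (Ov v), Bd (em n v B).1 1 := by
    intro B i j
    rw [em_val]
    exact (B.1 i j).2
  refine ⟨h B, ?_⟩
  rw [← map_inv]
  exact h _

lemma em_det (B : SpecialLinearGroup (Fin n) (Ov v)) : (em n v B).1.det = 1 :=
  (SpecialLinearGroup.map (Ov v).subtype B).2

lemma em_surj {u : LG n v} (hu : u ∈ U n v) (h1 : u.1.det = 1) :
    ∃ B : SpecialLinearGroup (Fin n) (Ov v), em n v B = u := by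
  have hdet : (Matrix.of fun i j => (⟨u.1 i j, hu.1 i j⟩ : Ov v)).det = 1 := by
    apply Subtype.ext
    have h2 := RingHom.map_det (Ov v).subtype (Matrix.of fun i j => (⟨u.1 i j, hu.1 i j⟩ : Ov v))
    have h3 : (Ov v).subtype.mapMatrix (Matrix.of fun i j => (⟨u.1 i j, hu.1 i j⟩ : Ov v)) =
        u.1 := by
      ext i j
      rfl
    rw [h3, h1] at h2
    exact h2
  refine ⟨⟨_, hdet⟩, ?_⟩
  apply Units.ext
  ext i j
  rfl

end PRFm

open PRFm in
theorem prf : S_PRF := by
  intro n F _ _ v A _ hn ψ hψ u hu hdet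
  -- the homomorphism
  have h1 : ψ 1 = 0 := by
    have := hψ 1 (one_mem _) 1 (one_mem _) (by simp) (by simp)
    rw [one_mul] at this
    exact left_eq_add.mp this
  obtain ⟨Ψ, hΨ⟩ : ∃ Ψ : SpecialLinearGroup (Fin n) (Ov v) →* Multiplicative A,
      ∀ B, Ψ B = Multiplicative.ofAdd (ψ (em n v B)) :=
    ⟨{ toFun := fun B => Multiplicative.ofAdd (ψ (em n v B))
       map_one' := by rw [map_one, h1]; rfl
       map_mul' := fun a b => by
        rw [map_mul, hψ _ (em_mem a) _ (em_mem b) (em_det a) (em_det b)]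
        rfl }, fun _ => rfl⟩
  have h2 : ∀ (i j : Fin n) (h : i ≠ j) (t : Ov v), Ψ (tvr i j h t) = 1 := by
    intro i j hij t
    obtain ⟨k, hki, hkj⟩ : ∃ k : Fin n, k ≠ i ∧ k ≠ j := by
      have hc : ({i, j} : Finset (Fin n)).card < (Finset.univ : Finset (Fin n)).card := by
        rw [Finset.card_univ, Fintype.card_fin]
        exact lt_of_le_of_lt Finset.card_le_two (by omega)
      obtain ⟨k, -, hk⟩ := Finset.exists_mem_notMem_of_card_lt_card hc
      rw [Finset.mem_insert, Finset.mem_singleton, not_or] at hk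
      exact ⟨k, hk.1, hk.2⟩
    have h3 := congrArg Ψ (comm_rel i j k hij hki.symm hkj t)
    rw [map_mul, map_mul, map_mul, mul_comm (Ψ (tvr k j hkj 1))] at h3
    exact (right_eq_mul.mp h3)
  have h3 : ∀ B, Ψ B = 1 := by
    intro B
    have h4 : Ele n (Ov v) ≤ Ψ.ker := by
      unfold Ele
      rw [Subgroup.closure_le]
      rintro _ ⟨i, j, h, t, rfl⟩
      exact h2 i j h t
    exact h4 (ele_top (ev_local (Ov v)) n B)
  obtain ⟨B, rfl⟩ := em_surj hu hdet
  have h5 := h3 B
  rw [hΨ] at h5
  exact h5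

end Pool.Agent.L0h47.NF
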