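import Pool.Agent.L0h47.NF.Stm

/-!
# RPC: representatives of the cosets with the same determinant
-/

set_option autoImplicit false

namespace Pool.Agent.L0h47.NF

open Matrix NumberField IsDedekindDomain
open scoped WithZero

namespace RPC

variable {n : ℕ} {F : Type} [Field F] [NumberField F] {v : Pl F}

lemma vv_det_le {B : Matrix (Fin n) (Fin n) (Kv v)} (hB : Bd B 1) : vv v B.det ≤ 1 := by
  rw [Matrix.det_apply]
  apply Valuation.map_sum_le
  intro σ _
  have h1 : vv v (Equiv.Perm.sign σ • ∏ i, B (σ i) i) = vv v (∏ i, B (σ i) i) := by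
    rcases Int.units_eq_one_or (Equiv.Perm.sign σ) with h | h
    · rw [h, one_smul]
    · rw [h, Units.neg_smul, one_smul, Valuation.map_neg]
  rw [h1, map_prod]
  exact Finset.prod_le_one' (fun i _ => hB _ _)

lemma vv_det_eq {u : LG n v} (hu : u ∈ U n v) : vv v u.1.det = 1 := by
  apply le_antisymm (vv_det_le hu.1)
  have h2 := vv_det_le hu.2
  have h3 : u.1.det * (u⁻¹).1.det = 1 := by
    rw [← Matrix.det_mul, ← Units.val_mul, mul_inv_cancel, Units.val_one, Matrix.det_one]
  have h4 : vv v u.1.det * vv v (u⁻¹).1.det = 1 := by rw [← map_mul, h3, map_one]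
  calc (1 : ℤᵐ⁰) = vv v u.1.det * vv v (u⁻¹).1.det := h4.symm
    _ ≤ vv v u.1.det * 1 := mul_le_mul_right h2 _
    _ = _ := mul_one _

/-- the matrix `diag(1, ..., e, ..., 1)` -/
noncomputable def dgo (i0 : Fin n) (e : Kv v) (he : e ≠ 0) : LG n v where
  val := diagonal (Function.update 1 i0 e)
  inv := diagonal (Function.update 1 i0 e⁻¹)
  val_inv := by
    rw [diagonal_mul_diagonal, ← diagonal_one]
    congr 1
    funext i
    by_cases h : i = i0
    · subst h
      simp [he]
    · simp [Function.update_of_ne h]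
  inv_val := by
    rw [diagonal_mul_diagonal, ← diagonal_one]
    congr 1
    funext i
    by_cases h : i = i0
    · subst h
      simp [he]
    · simp [Function.update_of_ne h]

lemma bd_diag {d : Fin n → Kv v} (h : ∀ i, vv v (d i) ≤ 1) : Bd (diagonal d) 1 := by
  intro i j
  by_cases hij : i = j
  · subst hij
    rw [diagonal_apply_eq]
    exact h i
  · rw [diagonal_apply_ne _ hij, map_zero]
    exact zero_le_one

lemma dgo_mem (i0 : Fin n) (e : Kv v) (he : e ≠ 0) (h1 : vv v e = 1) : dgo i0 e he ∈ U n v := by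
  refine ⟨bd_diag ?_, bd_diag ?_⟩
  · intro i
    by_cases h : i = i0
    · subst h
      rw [Function.update_self, h1]
    · rw [Function.update_of_ne h, Pi.one_apply, map_one]
  · intro i
    by_cases h : i = i0
    · subst h
      rw [Function.update_self, map_inv₀, h1, inv_one]
    · rw [Function.update_of_ne h, Pi.one_apply, map_one]

lemma dgo_det (i0 : Fin n) (e : Kv v) (he : e ≠ 0) : (dgo i0 e he).1.det = e := by
  show (diagonal (Function.update 1 i0 e)).det = e
  rw [det_diagonal, Finset.prod_update_of_mem (Finset.mem_univ i0)]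
  simp

lemma td_det (j : ℕ) (hj : j ≤ n) : (td n v j).1.det = (unif v) ^ j := by
  show (diagonal (fun i : Fin n => if (i : ℕ) < j then unif v else 1)).det = _
  rw [det_diagonal, Finset.prod_ite, Finset.prod_const_one, mul_one, Finset.prod_const]
  congr 1
  rw [Fin.card_filter_val_lt]
  exact min_eq_right hj

end RPC

/-- RPC -/
theorem rpc : S_RPC := by
  intro n F _ _ v j hn hj c
  obtain ⟨q, u, hu, hq⟩ := c
  have h1 := RPC.vv_det_eq hu
  have hne : u.1.det ≠ 0 := by
    intro h
    rw [h, map_zero] at h1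
    exact zero_ne_one h1
  have hne' : (u.1.det)⁻¹ ≠ 0 := inv_ne_zero hne
  have h1' : vv v (u.1.det)⁻¹ = 1 := by rw [map_inv₀, h1, inv_one]
  refine ⟨u * td n v j * RPC.dgo ⟨0, hn⟩ (u.1.det)⁻¹ hne', ?_, ?_⟩
  · show _ = q
    rw [hq]
    symm
    rw [QuotientGroup.eq, inv_mul_cancel_left]
    exact RPC.dgo_mem _ _ _ h1'
  · rw [Units.val_mul, Units.val_mul, det_mul, det_mul, RPC.dgo_det, RPC.td_det j hj]
    field_simp

end Pool.Agent.L0h47.NF
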