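import Pool.Agent.L0h47.NF.Stm
import Pool.Agent.L0h47.CG.RepTh

/-!
# Project NF, module RTH: representations with scalar characteristic polynomials on the kernel of a
cyclic character (helper92)
-/

set_option autoImplicit false

namespace Pool.Agent.L0h47.NF

open Matrix Polynomial
open scoped LinearAlgebra.Projectivization

section rth
variable {n : ℕ} {k : Type} [Field k]

lemma algmap_mulVec (c : k) (v : Fin n → k) :
    (algebraMap k (Matrix (Fin n) (Fin n) k) c) *ᵥ v = c • v := by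
  rw [Algebra.algebraMap_eq_smul_one, Matrix.smul_mulVec, Matrix.one_mulVec]

lemma scal_pow (p : ℕ) [Fact p.Prime] [CharP k p] (hn : n ≠ 0) {A : Matrix (Fin n) (Fin n) k}
    {c : k} (h : A.charpoly = (X - C c) ^ n) :
    A ^ p ^ n = algebraMap k (Matrix (Fin n) (Fin n) k) (c ^ p ^ n) := by
  have h1 : (A - algebraMap k (Matrix (Fin n) (Fin n) k) c) ^ n = 0 := by
    have h2 := Matrix.aeval_self_charpoly A
    rw [h, map_pow, map_sub, aeval_X, aeval_C] at h2
    exact h2
  have h2 : (A - algebraMap k (Matrix (Fin n) (Fin n) k) c) ^ p ^ n = 0 := by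
    have hle : n ≤ p ^ n := (Nat.lt_pow_self (Fact.out (p := p.Prime)).one_lt).le
    obtain ⟨e, he⟩ := Nat.exists_eq_add_of_le hle
    rw [he, pow_add, h1, zero_mul]
  have : Nonempty (Fin n) := ⟨⟨0, Nat.pos_of_ne_zero hn⟩⟩
  have h3 : CharP (Matrix (Fin n) (Fin n) k) p := inferInstance
  have h4 : ExpChar (Matrix (Fin n) (Fin n) k) p := ExpChar.prime Fact.out
  rw [sub_pow_expChar_pow_of_commute p n (Algebra.commute_algebraMap_right c A)] at h2
  rw [map_pow]
  exact sub_eq_zero.mp h2

lemma eig_eq (hn : n ≠ 0) {A : Matrix (Fin n) (Fin n) k} {c a : k}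
    (h : A.charpoly = (X - C c) ^ n) {v : Fin n → k} (hv : v ≠ 0) (hA : A *ᵥ v = a • v) :
    a = c := by
  have h1 : (Matrix.scalar (Fin n) a - A).det = 0 := by
    apply Matrix.exists_mulVec_eq_zero_iff.mp
    refine ⟨v, hv, ?_⟩
    rw [Matrix.sub_mulVec, hA]
    have h2 : (Matrix.scalar (Fin n) a) *ᵥ v = a • v := algmap_mulVec a v
    rw [h2, sub_self]
  rw [← Matrix.eval_charpoly, h, eval_pow, eval_sub, eval_X, eval_C] at h1
  exact sub_eq_zero.mp (pow_eq_zero_iff hn |>.mp h1)

lemma c_unique (hn : n ≠ 0) {c a : k} (h : (X - C a : k[X]) ^ n = (X - C c) ^ n) : a = c := by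
  have h1 := congrArg (Polynomial.eval a) h
  rw [eval_pow, eval_pow, eval_sub, eval_sub, eval_X, eval_C, eval_C, sub_self, zero_pow hn] at h1
  exact sub_eq_zero.mp (pow_eq_zero_iff hn |>.mp h1.symm)

/-- the action of a group on vectors through a representation -/
@[reducible] noncomputable def repAct {H : Type} [Group H] (r : H →* GL (Fin n) k) :
    DistribMulAction H (Fin n → k) where
  smul g v := (r g).1 *ᵥ v
  one_smul v := by
    show (r 1).1 *ᵥ v = v
    rw [map_one]
    exact Matrix.one_mulVec v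
  mul_smul g h v := by
    show (r (g * h)).1 *ᵥ v = (r g).1 *ᵥ ((r h).1 *ᵥ v)
    rw [map_mul, Units.val_mul, Matrix.mulVec_mulVec]
  smul_zero g := Matrix.mulVec_zero _
  smul_add g v w := Matrix.mulVec_add _ _ _

/-- there is a common eigenvector -/
lemma fixed_line (hn : n ≠ 0) (p : ℕ) [Fact p.Prime] [CharP k p] [Finite k] {H : Type} [Group H]
    (r : H →* GL (Fin n) k) (hc : ∀ h : H, ∃ c : k, (r h).1.charpoly = (X - C c) ^ n) :
    ∃ v : Fin n → k, v ≠ 0 ∧
      ∀ h : H, ∀ c, (r h).1.charpoly = (X - C c) ^ n → (r h).1 *ᵥ v = c • v := by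
  let _ := repAct r
  have : SMulCommClass H k (Fin n → k) := ⟨fun g a v => Matrix.mulVec_smul _ _ _⟩
  have hact : ∀ (h : H) (v : Fin n → k), h • v = (r h).1 *ᵥ v := fun _ _ => rfl
  have hG : IsPGroup p (MulAction.toPermHom H (ℙ k (Fin n → k))).range := by
    rintro ⟨_, ⟨h, rfl⟩⟩
    refine ⟨n, ?_⟩
    apply Subtype.ext
    show (MulAction.toPermHom H (ℙ k (Fin n → k)) h) ^ (p ^ n) = 1
    rw [← map_pow]
    apply Equiv.ext
    intro x
    show h ^ (p ^ n) • x = x
    induction x using Projectivization.ind with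
    | h v hv =>
      obtain ⟨c, hc1⟩ := hc h
      rw [Projectivization.smul_mk, Projectivization.mk_eq_mk_iff']
      refine ⟨c ^ p ^ n, ?_⟩
      rw [hact, map_pow, Units.val_pow_eq_pow_val, scal_pow p hn hc1, algmap_mulVec]
  have hcard : p ∣ Nat.card (Fin n → k) := by
    have := Fintype.ofFinite k
    rw [Nat.card_fun, Nat.card_eq_fintype_card (α := Fin n), Fintype.card_fin]
    obtain ⟨m, hm⟩ := FiniteField.card k p
    rw [Nat.card_eq_fintype_card, hm.2, ← pow_mul]
    exact dvd_pow_self p (mul_ne_zero m.ne_zero hn)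
  have hcard2 : ¬ p ∣ Nat.card (ℙ k (Fin n → k)) := by
    intro hd
    have h1 := Projectivization.card' k (Fin n → k)
    rw [h1] at hcard
    have h2 := (Nat.dvd_add_right (hd.mul_right (Nat.card k - 1))).mp hcard
    exact (Fact.out (p := p.Prime)).one_lt.ne' (Nat.dvd_one.mp h2)
  have hfin : Finite (ℙ k (Fin n → k)) := by
    by_contra hinf
    rw [not_finite_iff_infinite] at hinf
    exact hcard2 (by rw [Nat.card_eq_zero_of_infinite]; exact dvd_zero p)
  obtain ⟨x, hx⟩ := hG.nonempty_fixed_point_of_prime_not_dvd_card (ℙ k (Fin n → k)) hcard2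
  induction x using Projectivization.ind with
  | h v hv =>
    refine ⟨v, hv, fun h c hch => ?_⟩
    have h1 := hx ⟨MulAction.toPermHom H (ℙ k (Fin n → k)) h, ⟨h, rfl⟩⟩
    have h2 : h • Projectivization.mk k v hv = Projectivization.mk k v hv := h1
    rw [Projectivization.smul_mk, Projectivization.mk_eq_mk_iff'] at h2
    obtain ⟨a, ha⟩ := h2
    rw [hact] at ha
    rw [← ha, eig_eq hn hch hv ha.symm]

end rth

theorem rth : S_RTH := by
  intro n hn p hp k _ _ _ Γ Γ' _ _ _ π χ ρ hπ hH hirr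
  have : Fact p.Prime := ⟨hp⟩
  have hn0 : n ≠ 0 := by omega
  obtain ⟨v, hv0, hv⟩ := fixed_line hn0 p ((ρ.comp π).comp χ.ker.subtype)
    (fun h => hH h.1 h.2)
  let S : Submodule k (Fin n → k) :=
    { carrier := {w | ∀ g, χ g = 1 → ∀ c : k, (ρ (π g)).1.charpoly = (X - C c) ^ n →
        (ρ (π g)).1 *ᵥ w = c • w}
      add_mem' := by
        intro a b ha hb g hg c hc
        rw [Matrix.mulVec_add, ha g hg c hc, hb g hg c hc, smul_add]
      zero_mem' := by
        intro g _ c _
        rw [Matrix.mulVec_zero, smul_zero]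
      smul_mem' := by
        intro e a ha g hg c hc
        rw [Matrix.mulVec_smul, ha g hg c hc, smul_comm] }
  have hid : ∀ M : Matrix (Fin n) (Fin n) k, M.map (algebraMap k k) = M := by
    intro M; ext i j; rfl
  have hStop : S = ⊤ := by
    have hst := hirr k S (by
      intro σ w hw g hg c hc
      rw [hid]
      obtain ⟨σ', rfl⟩ := hπ σ
      have e1 : (ρ (π g)).1 * (ρ (π σ')).1 =
          (ρ (π σ')).1 * (ρ (π (σ'⁻¹ * g * σ'))).1 := by
        rw [← Units.val_mul, ← Units.val_mul, ← map_mul, ← map_mul, ← map_mul, ← map_mul]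
        congr 3
        group
      have e2 : (ρ (π (σ'⁻¹ * g * σ'))).1.charpoly = (X - C c) ^ n := by
        rw [← hc]
        have e3 : (ρ (π (σ'⁻¹ * g * σ'))).1 =
            ((ρ (π σ'))⁻¹).1 * (ρ (π g)).1 * (ρ (π σ')).1 := by
          rw [map_mul, map_mul, map_mul, map_mul, map_inv, map_inv]
          rfl
        have e4 : (ρ (π σ')).1 * ((ρ (π σ'))⁻¹).1 = 1 := Units.mul_inv _
        rw [e3, Matrix.charpoly_mul_comm, ← mul_assoc, e4, one_mul]
      rw [Matrix.mulVec_mulVec, e1, ← Matrix.mulVec_mulVec, hw _ (by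
        rw [map_mul, map_mul, hg, mul_one, ← map_mul, inv_mul_cancel, map_one]) c e2,
        Matrix.mulVec_smul])
    rcases hst with h | h
    · exfalso
      have : v ∈ S := fun g hg c hc => hv ⟨g, hg⟩ c hc
      rw [h, Submodule.mem_bot] at this
      exact hv0 this
    · exact h
  have hone : ∀ g, χ g = 1 → ∃ c : k, (ρ (π g)).1 = algebraMap k _ c := by
    intro g hg
    obtain ⟨c, hc⟩ := hH g hg
    refine ⟨c, ?_⟩
    ext i j
    have h1 : (Pi.single j (1 : k) : Fin n → k) ∈ S := by rw [hStop]; exact Submodule.mem_top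
    have h2 := congrFun (h1 g hg c hc) i
    rw [Matrix.mulVec_single_one] at h2
    have h3 : (ρ (π g)).1 i j = c * (Pi.single j (1 : k) : Fin n → k) i := h2
    rw [h3, Algebra.algebraMap_eq_smul_one, Matrix.smul_apply, Matrix.one_apply, Pi.single_apply,
      smul_eq_mul]
  have hcen : ∀ g, χ g = 1 → ∀ B : GL (Fin n) k, Commute (ρ (π g)) B := by
    intro g hg B
    obtain ⟨c, hc⟩ := hone g hg
    apply Units.ext
    rw [Units.val_mul, Units.val_mul, hc]
    exact Algebra.commutes c B.1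
  obtain ⟨⟨x, g0, hg0⟩, hx⟩ := IsCyclic.exists_generator (α := χ.range)
  have hdec : ∀ g, ∃ (i : ℤ) (h : Γ), χ h = 1 ∧ g = g0 ^ i * h := by
    intro g
    obtain ⟨i, hi⟩ := Subgroup.mem_zpowers_iff.mp (hx ⟨χ g, ⟨g, rfl⟩⟩)
    have hi' : x ^ i = χ g := congrArg Subtype.val hi
    refine ⟨i, g0 ^ (-i) * g, ?_, ?_⟩
    · rw [map_mul, map_zpow, hg0, ← hi', ← _root_.zpow_add, neg_add_cancel, zpow_zero]
    · rw [← mul_assoc, ← _root_.zpow_add, add_neg_cancel, zpow_zero, one_mul]
  have hcomm : ∀ σ τ, ρ σ * ρ τ = ρ τ * ρ σ := by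
    intro σ τ
    obtain ⟨σ', rfl⟩ := hπ σ
    obtain ⟨τ', rfl⟩ := hπ τ
    obtain ⟨i, h, hh, rfl⟩ := hdec σ'
    obtain ⟨j, h', hh', rfl⟩ := hdec τ'
    rw [map_mul, map_mul, map_mul, map_mul, map_zpow, map_zpow, map_zpow, map_zpow]
    have c1 := hcen h hh
    have c2 := hcen h' hh'
    have c3 : Commute (ρ (π g0) ^ i) (ρ (π g0) ^ j) := (Commute.refl _).zpow_zpow i j
    exact (Commute.mul_left (Commute.mul_right c3 (c2 _).symm)
      (c1 _))
  have hsc : ∀ σ, ∀ i j, i ≠ j → (ρ σ).1 i j = 0 := by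
    intro σ
    apply Pool.Agent.L0h47.CG.scalar_of_comm hn0 ρ hirr
    intro τ
    rw [← Units.val_mul, ← Units.val_mul, hcomm]
  -- the first coordinate line is invariant
  let i0 : Fin n := ⟨0, by omega⟩
  let i1 : Fin n := ⟨1, by omega⟩
  have h01 : i1 ≠ i0 := by
    intro h
    have := congrArg Fin.val h
    exact absurd this one_ne_zero
  let D : Submodule k (Fin n → k) :=
    { carrier := {w | w i1 = 0}
      add_mem' := by
        intro a b ha hb
        show a i1 + b i1 = 0
        rw [show a i1 = 0 from ha, show b i1 = 0 from hb, add_zero]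
      zero_mem' := rfl
      smul_mem' := by
        intro c a ha
        show c * a i1 = 0
        rw [show a i1 = 0 from ha, mul_zero] }
  have hD := hirr k D (by
    intro σ w hw
    rw [hid]
    show ∑ j, (ρ σ).1 i1 j * w j = 0
    apply Finset.sum_eq_zero
    intro j _
    by_cases hj : j = i1
    · rw [hj, show w i1 = 0 from hw, mul_zero]
    · rw [hsc σ i1 j (Ne.symm hj), zero_mul])
  rcases hD with h | h
  · have h1 : (Pi.single i0 (1 : k) : Fin n → k) ∈ D := by
      show (Pi.single i0 (1 : k) : Fin n → k) i1 = 0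
      rw [Pi.single_eq_of_ne h01]
    rw [h, Submodule.mem_bot] at h1
    have := congrFun h1 i0
    rw [Pi.single_eq_same] at this
    exact one_ne_zero this
  · have h1 : (Pi.single i1 (1 : k) : Fin n → k) ∈ D := by rw [h]; exact Submodule.mem_top
    have h2 : (Pi.single i1 (1 : k) : Fin n → k) i1 = 0 := h1
    rw [Pi.single_eq_same] at h2
    exact one_ne_zero h2

end Pool.Agent.L0h47.NF
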