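import Pool.Agent.L0h47.NF.Stm

/-!
# Strong approximation for the special linear group over a number field
-/

set_option autoImplicit false

namespace Pool.Agent.L0h47.NF

open Matrix NumberField IsDedekindDomain
open scoped WithZero
open Pool.Agent.L0h47.CG (tvr Ele EV ele_top mtr mtr_mul mtr_one mtr_inj ev_field)

namespace SAp

variable {n : ℕ} {F : Type} [Field F] [NumberField F] {v : Pl F}

lemma tvr_inv {R : Type*} [CommRing R] (i j : Fin n) (h : i ≠ j) (t : R) :
    (tvr i j h t)⁻¹ = tvr i j h (-t) := by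
  rw [inv_eq_iff_mul_eq_one]
  apply mtr_inj
  rw [mtr_mul, mtr_one]
  show transvection i j t * transvection i j (-t) = 1
  rw [transvection_mul_transvection_same i j h, add_neg_cancel, transvection_zero]

/-- special linear elements in `GL_n(F_v)` -/
noncomputable def sL (v : Pl F) : SpecialLinearGroup (Fin n) (Kv v) →* LG n v :=
  SpecialLinearGroup.toGL

lemma sL_mem (i j : Fin n) (h : i ≠ j) {c : Kv v} {N : ℕ}
    (hc : vv v c ≤ vv v ((N : ℕ) : Kv v)) : sL v (tvr i j h c) ∈ Cg n v N := by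
  have key : ∀ c : Kv v, vv v c ≤ vv v ((N : ℕ) : Kv v) →
      Bd ((sL v (tvr i j h c)).1 - 1) (vv v ((N : ℕ) : Kv v)) := by
    intro c hc a b
    have e : ((sL v (tvr i j h c)).1 - 1) a b = Matrix.single i j c a b := by
      show (transvection i j c - 1) a b = _
      unfold transvection
      rw [add_sub_cancel_left]
    rw [e, Matrix.single_apply]
    split_ifs
    · exact hc
    · rw [map_zero]; exact zero_le
  apply Cg_of (key c hc)
  rw [← map_inv, tvr_inv]
  exact key _ (by rw [Valuation.map_neg]; exact hc)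

/-- the closure of `SL_n(F)` in `GL_n(A_f)` -/
def Hc (n : ℕ) (F : Type) [Field F] [NumberField F] : Submonoid (AG n F) where
  carrier := {g | ∀ N : ℕ, N ≠ 0 → ∃ δ : SpecialLinearGroup (Fin n) F,
    (dg n (sQ δ))⁻¹ * g ∈ KN n F N}
  one_mem' N _ := ⟨1, by rw [map_one, map_one, inv_one, one_mul]; exact one_mem _⟩
  mul_mem' := by
    intro g g' hg hg' N hN
    obtain ⟨γ', h'⟩ := hg' N hN
    obtain ⟨M, hM, hc⟩ := exists_conj_KN (dg n (sQ γ')) hN
    obtain ⟨γ, h⟩ := hg M hM
    refine ⟨γ * γ', ?_⟩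
    have e : (dg n (sQ (γ * γ')))⁻¹ * (g * g') =
        ((dg n (sQ γ'))⁻¹ * ((dg n (sQ γ))⁻¹ * g) * dg n (sQ γ')) * ((dg n (sQ γ'))⁻¹ * g') := by
      rw [map_mul, map_mul]; group
    rw [e]
    exact mul_mem (hc _ h) h'

lemma loc_sQ (v : Pl F) (i j : Fin n) (h : i ≠ j) (q : F) :
    (dg n (sQ (tvr i j h q))).1 v = sL v (tvr i j h (cst v q)) := by
  apply Units.ext
  show (transvection i j q).map (cst v) = transvection i j (cst v q)
  unfold transvection
  rw [Matrix.map_add _ (fun a b => map_add _ a b), Matrix.map_one _ (map_zero _) (map_one _),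
    Matrix.map_single]

lemma inc_tv_mem (hA : S_APX) (v : Pl F) (i j : Fin n) (h : i ≠ j) (c : Kv v) :
    inc n v (sL v (tvr i j h c)) ∈ Hc n F := by
  intro N hN
  obtain ⟨q, hq, hq'⟩ := hA F v c N hN
  refine ⟨tvr i j h q, fun w => ?_⟩
  rw [mul_apply', inv_apply', loc_sQ, ← map_inv, tvr_inv]
  by_cases hw : w = v
  · subst hw
    rw [inc_same, ← map_mul]
    have e : tvr i j h (-(cst w q)) * tvr i j h c = tvr i j h (c - cst w q) := by
      apply mtr_inj
      rw [mtr_mul]
      show transvection i j (-(cst w q)) * transvection i j c = transvection i j (c - cst w q)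
      rw [transvection_mul_transvection_same i j h]
      congr 1
      ring
    rw [e]
    apply sL_mem
    rw [← Valuation.map_neg, neg_sub]
    exact hq
  · rw [inc_ne hw, mul_one]
    apply sL_mem
    rw [Valuation.map_neg]
    exact hq' w hw

lemma inc_sL_mem (hA : S_APX) (v : Pl F) (A : SpecialLinearGroup (Fin n) (Kv v)) :
    inc n v (sL v A) ∈ Hc n F := by
  have h := ele_top (ev_field (Kv v)) n A
  unfold Ele at h
  induction h using Subgroup.closure_induction'' with
  | mem x hx =>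
    obtain ⟨i, j, hij, t, rfl⟩ := hx
    exact inc_tv_mem hA v i j hij t
  | inv_mem x hx =>
    obtain ⟨i, j, hij, t, rfl⟩ := hx
    rw [tvr_inv]
    exact inc_tv_mem hA v i j hij _
  | one => rw [map_one, map_one]; exact one_mem _
  | mul x y _ _ hx hy => rw [map_mul, map_mul]; exact mul_mem hx hy

lemma exists_sL {g : LG n v} (h : g.1.det = 1) : ∃ A, g = sL v A :=
  ⟨⟨g.1, h⟩, Units.ext rfl⟩

lemma key (hA : S_APX) : ∀ (s : Finset (Pl F)) (g : AG n F), (∀ v, (g.1 v).1.det = 1) →
    (∀ v, v ∉ s → g.1 v = 1) → g ∈ Hc n F := by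
  classical
  intro s
  induction s using Finset.induction_on with
  | empty =>
    intro g _ hg
    have : g = 1 := AG_ext (fun v => hg v (Finset.notMem_empty v))
    rw [this]; exact one_mem _
  | insert a s ha ih =>
    intro g hd hg
    rw [← offl_mul a g]
    apply mul_mem
    · apply ih
      · intro v
        by_cases hv : v = a
        · subst hv; rw [offl_same]; exact Matrix.det_one
        · rw [offl_ne hv]; exact hd v
      · intro v hv
        by_cases hva : v = a
        · subst hva; rw [offl_same]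
        · rw [offl_ne hva]
          apply hg
          rw [Finset.mem_insert, not_or]
          exact ⟨hva, hv⟩
    · obtain ⟨A, hA'⟩ := exists_sL (hd a)
      rw [hA']
      exact inc_sL_mem hA a A

/-- the places where `g` or the level matters -/
def bad (g : AG n F) (N : ℕ) : Set (Pl F) :=
  {v | g.1 v ∉ U n v} ∪ {v : Pl F | vv v ((N : ℕ) : Kv v) ≠ 1}

lemma bad_finite (g : AG n F) {N : ℕ} (hN : N ≠ 0) : (bad g N).Finite := by
  have h1 : {v | g.1 v ∉ U n v}.Finite := g.2
  exact h1.union (finite_nat hN)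

open Classical in
/-- the truncation -/
noncomputable def cutf (g : AG n F) (N : ℕ) (v : Pl F) : LG n v :=
  if v ∈ bad g N then g.1 v else 1

lemma cutf_pos {g : AG n F} {N : ℕ} {v : Pl F} (h : v ∈ bad g N) : cutf g N v = g.1 v := if_pos h

lemma cutf_neg {g : AG n F} {N : ℕ} {v : Pl F} (h : v ∉ bad g N) : cutf g N v = 1 := if_neg h

lemma cutf_mem (g : AG n F) {N : ℕ} (hN : N ≠ 0) : cutf g N ∈ AG n F := by
  have h2 : {v | cutf g N v ∉ U n v} ⊆ bad g N := by
    intro v hv
    by_contra h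
    apply hv
    rw [cutf_neg h]
    exact one_mem _
  exact (bad_finite g hN).subset h2

/-- the truncation -/
noncomputable def cut (g : AG n F) {N : ℕ} (hN : N ≠ 0) : AG n F := ⟨cutf g N, cutf_mem g hN⟩

lemma cut_apply (g : AG n F) {N : ℕ} (hN : N ≠ 0) (v : Pl F) : (cut g hN).1 v = cutf g N v := rfl

lemma cut_inv_mul (g : AG n F) {N : ℕ} (hN : N ≠ 0) : (cut g hN)⁻¹ * g ∈ KN n F N := by
  intro v
  rw [mul_apply', inv_apply', cut_apply]
  by_cases hv : v ∈ bad g N
  · rw [cutf_pos hv, inv_mul_cancel]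
    exact one_mem _
  · rw [cutf_neg hv, inv_one, one_mul]
    simp only [bad, Set.mem_union, Set.mem_ofPred_eq, not_or, not_not] at hv
    rw [Cg_one' hv.2]
    exact hv.1

lemma cut_det {g : AG n F} (hg : ∀ v, (g.1 v).1.det = 1) {N : ℕ} (hN : N ≠ 0) (v : Pl F) :
    ((cut g hN).1 v).1.det = 1 := by
  rw [cut_apply]
  by_cases hv : v ∈ bad g N
  · rw [cutf_pos hv]
    exact hg v
  · rw [cutf_neg hv]
    exact Matrix.det_one

lemma cut_mem_Hc (hA : S_APX) {g : AG n F} (hg : ∀ v, (g.1 v).1.det = 1) {N : ℕ} (hN : N ≠ 0) :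
    cut g hN ∈ Hc n F := by
  apply key hA (bad_finite g hN).toFinset (cut g hN) (cut_det hg hN)
  intro v hv
  rw [Set.Finite.mem_toFinset] at hv
  rw [cut_apply, cutf_neg hv]

end SAp

open SAp in
/-- **Strong approximation.** -/
theorem sa (h : S_APX) : S_SA := by
  intro n F _ _ g hg N hN
  obtain ⟨γ, h1⟩ := cut_mem_Hc h hg hN N hN
  refine ⟨γ, ?_⟩
  have e : (dg n (sQ γ))⁻¹ * g = ((dg n (sQ γ))⁻¹ * cut g hN) * ((cut g hN)⁻¹ * g) := by
    rw [mul_assoc, mul_inv_cancel_left]
  rw [e]
  exact mul_mem h1 (cut_inv_mul g hN)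

end Pool.Agent.L0h47.NF
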