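import Pool.Agent.L0h47.NF.Stm

/-! # Module SAT: the shape of the Satake polynomial -/

set_option autoImplicit false

namespace Pool.Agent.L0h47.NF

open Polynomial in
/-- binomial coefficients modulo `p` -/
lemma choose_pow_mul (p : ℕ) (hp : p.Prime) (k : Type) [Field k] [CharP k p] (a m i : ℕ) :
    ((p ^ a * m).choose (p ^ a * i) : k) = (m.choose i : k) := by
  have : Fact p.Prime := ⟨hp⟩
  have h1 : ((X : k[X]) + 1) ^ (p ^ a * m) = expand k (p ^ a) ((X + 1) ^ m) := by
    rw [pow_mul, add_pow_char_pow, one_pow, map_pow, map_add, expand_X, map_one]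
  have h2 := congrArg (fun f => f.coeff (p ^ a * i)) h1
  beta_reduce at h2
  rw [coeff_X_add_one_pow, mul_comm (p ^ a) i, coeff_expand_mul (pow_pos hp.pos a),
    coeff_X_add_one_pow, mul_comm i] at h2
  exact h2

open Polynomial in
theorem sat : S_SAT := by
  intro n p hp hn k _ _ _ a m hnm hpm τ h0 h1
  have : Fact p.Prime := ⟨hp⟩
  subst hnm
  have hpa : 0 < p ^ a := pow_pos hp.pos a
  have hm0 : (m : k) ≠ 0 := by
    rw [Ne, CharP.cast_eq_zero_iff k p]
    exact hpm
  have hm1 : ((p ^ a * m).choose (p ^ a) : k) = m := by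
    have := choose_pow_mul p hp k a m 1
    rwa [mul_one, Nat.choose_one_right] at this
  set b : k := τ (p ^ a) / m with hb
  have hτ : ∀ i, i ≤ m → τ (p ^ a * i) = (m.choose i : k) * b ^ i := by
    intro i hi
    have h2 := h1 i hi
    rw [hm1, choose_pow_mul p hp k] at h2
    rw [hb, div_pow]
    have h3 : (m : k) ^ i ≠ 0 := pow_ne_zero _ hm0
    field_simp
    rw [mul_comm, h2, mul_comm]
  obtain ⟨c, hc⟩ : ∃ c : k, c ^ (p ^ a) = b := by
    have hinj : Function.Injective (fun x : k => x ^ (p ^ a)) := by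
      have := iterateFrobenius_inj k p a
      intro x y hxy
      exact this (by simpa [iterateFrobenius_def] using hxy)
    exact (Finite.injective_iff_surjective.1 hinj) b
  refine ⟨c, ?_⟩
  have e1 : (X - C c : k[X]) ^ (p ^ a * m) = (X ^ (p ^ a) - C b) ^ m := by
    rw [pow_mul, sub_pow_char_pow, ← C_pow, hc]
  have hneg : ((-1 : k)) ^ (p ^ a) = -1 := by
    have := sub_pow_char_pow (p := p) (n := a) (0 : k) 1
    rw [zero_sub, one_pow, zero_pow hpa.ne', zero_sub] at this
    exact this
  have e2 : ∑ j ∈ Finset.range (p ^ a * m + 1), C ((-1) ^ j * τ j) * X ^ (p ^ a * m - j)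
      = ∑ i ∈ Finset.range (m + 1), C ((-1) ^ (p ^ a * i) * τ (p ^ a * i)) *
        (X : k[X]) ^ (p ^ a * m - p ^ a * i) := by
    rw [← Finset.sum_image (s := Finset.range (m + 1)) (g := fun i => p ^ a * i)
      (f := fun j => C ((-1) ^ j * τ j) * (X : k[X]) ^ (p ^ a * m - j))
      (fun x _ y _ h => Nat.eq_of_mul_eq_mul_left hpa h)]
    symm
    apply Finset.sum_subset
    · intro j hj
      obtain ⟨i, hi, rfl⟩ := Finset.mem_image.1 hj
      rw [Finset.mem_range] at hi ⊢
      have : p ^ a * i ≤ p ^ a * m := Nat.mul_le_mul_left _ (by omega)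
      omega
    · intro j hj hj'
      have hnd : ¬ p ^ a ∣ j := by
        rintro ⟨i, rfl⟩
        apply hj'
        rw [Finset.mem_image]
        refine ⟨i, ?_, rfl⟩
        rw [Finset.mem_range] at hj ⊢
        have : p ^ a * i ≤ p ^ a * m := by omega
        have := Nat.le_of_mul_le_mul_left this hpa
        omega
      rw [h0 j (by rw [Finset.mem_range] at hj; omega) hnd, mul_zero, C_0, zero_mul]
  rw [e2, e1, sub_eq_neg_add, add_pow]
  refine Finset.sum_congr rfl fun i hi => ?_
  have hi' : i ≤ m := by rw [Finset.mem_range] at hi; omega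
  rw [hτ i hi', pow_mul (-1 : k), hneg, ← Nat.mul_sub, pow_mul]
  rw [show ((-1 : k)) ^ i * ((m.choose i : k) * b ^ i) = (-b) ^ i * (m.choose i : k) by
    rw [neg_pow b]; ring]
  simp only [C_mul, C_pow, C_neg, map_natCast]
  ring

end Pool.Agent.L0h47.NF
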