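import Pool.Agent.L0h47.NF.Stm

/-!
# Elementary matrices modulo the normal closure of congruence elementary matrices
-/

set_option autoImplicit false

namespace Pool.Agent.L0h47.NF

open Matrix
open Pool.Agent.L0h47.CG

variable {R : Type} [CommRing R] {n : ℕ} {M : R}

/-- elementary matrices as units -/
def el (i j : Fin n) (h : i ≠ j) (t : R) : GL (Fin n) R := SpecialLinearGroup.toGL (tvr i j h t)

lemma el_val (i j : Fin n) (h : i ≠ j) (t : R) : (el i j h t).1 = transvection i j t := rfl

lemma el_add (i j : Fin n) (h : i ≠ j) (s t : R) : el i j h (s + t) = el i j h s * el i j h t := by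
  apply Units.ext
  rw [Units.val_mul, el_val, el_val, el_val, transvection_mul_transvection_same i j h]

lemma el_zero (i j : Fin n) (h : i ≠ j) : el i j h (0 : R) = 1 := by
  apply Units.ext
  rw [el_val, transvection_zero]; rfl

lemma el_neg (i j : Fin n) (h : i ≠ j) (t : R) : el i j h (-t) = (el i j h t)⁻¹ := by
  rw [eq_comm, inv_eq_iff_mul_eq_one, ← el_add, add_neg_cancel, el_zero]

/-- the quotient -/
noncomputable abbrev QQ (n : ℕ) (R : Type) [CommRing R] (M : R) : Type := GL (Fin n) R ⧸ NE n R M

instance instNormNE (M : R) : (NE n R M).Normal := Subgroup.normalClosure_normal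

/-- the projection -/
noncomputable abbrev qq (M : R) : GL (Fin n) R →* QQ n R M := QuotientGroup.mk' _

lemma qq_eq_one {g : GL (Fin n) R} : qq M g = 1 ↔ g ∈ NE n R M := QuotientGroup.eq_one_iff g

lemma qq_el_M (i j : Fin n) (h : i ≠ j) (t : R) : qq M (el i j h (M * t)) = 1 :=
  qq_eq_one.2 (Subgroup.subset_normalClosure ⟨i, j, h, t, rfl⟩)

lemma qq_el_congr (i j : Fin n) (h : i ≠ j) {s t : R} (hst : M ∣ s - t) :
    qq M (el i j h s) = qq M (el i j h t) := by
  obtain ⟨z, hz⟩ := hst
  have e : s = M * z + t := by rw [← hz]; ring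
  rw [e, el_add, map_mul, qq_el_M, one_mul]

/-- the congruence subgroup -/
def CgR (n : ℕ) (R : Type) [CommRing R] (M : R) : Subgroup (GL (Fin n) R) :=
  (Matrix.GeneralLinearGroup.map (n := Fin n) (Ideal.Quotient.mk (Ideal.span {M}))).ker

lemma mem_CgR {g : GL (Fin n) R} :
    g ∈ CgR n R M ↔ ∀ i j, M ∣ g.1 i j - (1 : Matrix (Fin n) (Fin n) R) i j := by
  unfold CgR
  rw [MonoidHom.mem_ker]
  constructor
  · intro h i j
    have h1 := congrArg (fun x : GL (Fin n) (R ⧸ Ideal.span {M}) => x.1 i j) h
    have h2 : Ideal.Quotient.mk (Ideal.span {M}) (g.1 i j) =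
        Ideal.Quotient.mk (Ideal.span {M}) ((1 : Matrix (Fin n) (Fin n) R) i j) := by
      refine h1.trans ?_
      show (1 : Matrix (Fin n) (Fin n) (R ⧸ Ideal.span {M})) i j = _
      rw [Matrix.one_apply, Matrix.one_apply]
      split_ifs <;> simp
    rw [Ideal.Quotient.eq, Ideal.mem_span_singleton] at h2
    exact h2
  · intro h
    apply Units.ext
    ext i j
    have h2 : Ideal.Quotient.mk (Ideal.span {M}) (g.1 i j) =
        Ideal.Quotient.mk (Ideal.span {M}) ((1 : Matrix (Fin n) (Fin n) R) i j) := by
      rw [Ideal.Quotient.eq, Ideal.mem_span_singleton]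
      exact h i j
    refine Eq.trans h2 ?_
    show _ = (1 : Matrix (Fin n) (Fin n) (R ⧸ Ideal.span {M})) i j
    rw [Matrix.one_apply, Matrix.one_apply]
    split_ifs <;> simp

instance instNormCg : (CgR n R M).Normal := MonoidHom.normal_ker _

lemma NE_le : NE n R M ≤ CgR n R M := by
  apply Subgroup.normalClosure_le_normal
  rintro _ ⟨i, j, h, t, rfl⟩
  rw [SetLike.mem_coe, mem_CgR]
  intro a b
  show M ∣ transvection i j (M * t) a b - _
  unfold transvection
  rw [Matrix.add_apply, add_sub_cancel_left, Matrix.single_apply]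
  split_ifs
  · exact dvd_mul_right _ _
  · exact dvd_zero _

lemma el_mulVec (i j : Fin n) (h : i ≠ j) (t : R) (v : Fin n → R) (k : Fin n) :
    ((el i j h t).1 *ᵥ v) k = v k + if k = i then t * v j else 0 := tvr_apply i j h t v k

/-- adding multiples of `M` times the other entries to one entry -/
lemma rowop (i : Fin n) (t : Fin n → R) (s : Finset (Fin n)) (hi : i ∉ s) :
    ∃ g ∈ NE n R M, ∀ (v : Fin n → R) (k : Fin n),
      (g.1 *ᵥ v) k = v k + if k = i then ∑ l ∈ s, M * t l * v l else 0 := by
  induction s using Finset.induction_on with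
  | empty =>
    refine ⟨1, one_mem _, fun v k => ?_⟩
    rw [Units.val_one, one_mulVec]
    simp
  | insert a s ha ih =>
    rw [Finset.mem_insert, not_or] at hi
    obtain ⟨g, hg, h⟩ := ih hi.2
    refine ⟨el i a hi.1 (M * t a) * g, mul_mem (qq_eq_one.1 (qq_el_M _ _ _ _)) hg, fun v k => ?_⟩
    rw [Units.val_mul, ← mulVec_mulVec, el_mulVec, h, h, if_neg (Ne.symm hi.1), add_zero]
    by_cases hk : k = i
    · rw [if_pos hk, if_pos hk, if_pos hk, Finset.sum_insert ha]
      ring
    · rw [if_neg hk, if_neg hk, if_neg hk]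
      ring

/-- the row matrix -/
def rowE {m : ℕ} (u : Fin m → R) : GL (Fin (m + 1)) R := SpecialLinearGroup.toGL (TS u 1)

lemma rowE_val {m : ℕ} (u : Fin m → R) : (rowE u).1 = TM u 1 := rfl

lemma rowE_add {m : ℕ} (u u' : Fin m → R) : rowE (u + u') = rowE u * rowE u' := by
  unfold rowE
  rw [TS_add, map_mul]

lemma rowE_single {m : ℕ} (j : Fin m) (t : R) :
    rowE (Pi.single j t) = el 0 j.succ (Fin.succ_ne_zero j).symm t := by
  unfold rowE
  rw [TS_single]; rfl

lemma rowE_mem {m : ℕ} (u : Fin m → R) (hu : ∀ j, M ∣ u j) : rowE u ∈ NE (m + 1) R M := by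
  have h : ∀ s : Finset (Fin m), rowE (∑ j ∈ s, Pi.single j (u j)) ∈ NE (m + 1) R M := by
    intro s
    induction s using Finset.induction_on with
    | empty =>
      rw [Finset.sum_empty]
      have : rowE (0 : Fin m → R) = 1 := by
        unfold rowE
        rw [TS_zero, map_one]
      rw [this]; exact one_mem _
    | insert a s ha ih =>
      rw [Finset.sum_insert ha, rowE_add]
      refine mul_mem ?_ ih
      rw [rowE_single]
      obtain ⟨z, hz⟩ := hu a
      rw [hz]
      exact qq_eq_one.1 (qq_el_M _ _ _ _)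
  have h2 := h Finset.univ
  rwa [Finset.univ_sum_single] at h2

lemma det_TMT {m : ℕ} (u : Fin m → R) : ((TM u (1 : Matrix (Fin m) (Fin m) R))ᵀ).det = 1 := by
  rw [det_transpose, det_TM, det_one]

/-- the column matrix -/
def colE {m : ℕ} (u : Fin m → R) : GL (Fin (m + 1)) R :=
  SpecialLinearGroup.toGL ⟨(TM u 1)ᵀ, det_TMT u⟩

lemma colE_val {m : ℕ} (u : Fin m → R) : (colE u).1 = (TM u 1)ᵀ := rfl

lemma colE_add {m : ℕ} (u u' : Fin m → R) : colE (u + u') = colE u * colE u' := by
  apply Units.ext
  rw [Units.val_mul, colE_val, colE_val, colE_val, ← transpose_mul, TM_mul, vecMul_one, mul_one]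

lemma colE_single {m : ℕ} (j : Fin m) (t : R) :
    colE (Pi.single j t) = el j.succ 0 (Fin.succ_ne_zero j) t := by
  apply Units.ext
  rw [colE_val, el_val]
  have h := congrArg (fun x : SpecialLinearGroup (Fin (m + 1)) R => x.1ᵀ) (TS_single j t)
  refine Eq.trans h ?_
  show (transvection 0 j.succ t)ᵀ = _
  unfold transvection
  rw [transpose_add, transpose_one, transpose_single]

lemma colE_mem {m : ℕ} (u : Fin m → R) (hu : ∀ j, M ∣ u j) : colE u ∈ NE (m + 1) R M := by
  have h : ∀ s : Finset (Fin m), colE (∑ j ∈ s, Pi.single j (u j)) ∈ NE (m + 1) R M := by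
    intro s
    induction s using Finset.induction_on with
    | empty =>
      rw [Finset.sum_empty]
      have : colE (0 : Fin m → R) = 1 := by
        apply Units.ext
        rw [colE_val, TM_one, transpose_one]; rfl
      rw [this]; exact one_mem _
    | insert a s ha ih =>
      rw [Finset.sum_insert ha, colE_add]
      refine mul_mem ?_ ih
      rw [colE_single]
      obtain ⟨z, hz⟩ := hu a
      rw [hz]
      exact qq_eq_one.1 (qq_el_M _ _ _ _)
  have h2 := h Finset.univ
  rwa [Finset.univ_sum_single] at h2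

lemma comm_id {m : ℕ} {X Y : Matrix (Fin m) (Fin m) R} (h1 : X * X = 0) (h2 : Y * Y = 0)
    (h3 : Y * X = 0) : (1 + X) * (1 + Y) * (1 + -X) * (1 + -Y) = 1 + X * Y := by
  have a1 : X * Y * X = 0 := by rw [mul_assoc, h3, mul_zero]
  have a2 : X * Y * Y = 0 := by rw [mul_assoc, h2, mul_zero]
  simp only [mul_add, add_mul, mul_one, one_mul, mul_neg, h1, h2, h3, a1, a2, neg_zero, zero_mul,
    add_zero, neg_mul]
  abel

/-- **Block matrices commute with the elementary matrices modulo `NE`.** -/
lemma block_comm {m : ℕ} {B : GL (Fin (m + 1)) R} {B' : Matrix (Fin m) (Fin m) R}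
    (hB : B.1 = TM 0 B') (hc : ∀ i j, M ∣ B' i j - (1 : Matrix (Fin m) (Fin m) R) i j)
    {e : SpecialLinearGroup (Fin (m + 1)) R} (he : e ∈ Ele (m + 1) R) :
    qq M (SpecialLinearGroup.toGL e) * qq M B = qq M B * qq M (SpecialLinearGroup.toGL e) := by
  have hrow : ∀ u : Fin m → R, qq M (rowE u) * qq M B = qq M B * qq M (rowE u) := by
    intro u
    have h1 : rowE u * B = B * rowE (u ᵥ* B') := by
      apply Units.ext
      rw [Units.val_mul, Units.val_mul, rowE_val, rowE_val, hB, TM_mul, TM_mul]
      simp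
    have h2 : u ᵥ* B' = u + (u ᵥ* B' - u) := by abel
    have h3 : rowE (u ᵥ* B' - u) ∈ NE (m + 1) R M := by
      apply rowE_mem
      intro j
      have e : (u ᵥ* B' - u) j = ∑ i, u i * (B' i j - (1 : Matrix (Fin m) (Fin m) R) i j) := by
        have h4 : u ᵥ* B' - u = u ᵥ* (B' - 1) := by rw [vecMul_sub, vecMul_one]
        rw [h4]
        rfl
      rw [e]
      exact Finset.dvd_sum (fun i _ => (hc i j).mul_left _)
    rw [← map_mul, h1, map_mul, h2, rowE_add, map_mul, qq_eq_one.2 h3, mul_one]
  have hcol : ∀ u : Fin m → R, qq M (colE u) * qq M B = qq M B * qq M (colE u) := by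
    intro u
    have h1 : B * colE u = colE (B' *ᵥ u) * B := by
      apply Units.ext
      rw [Units.val_mul, Units.val_mul, colE_val, colE_val, hB]
      have h5 : (TM (0 : Fin m → R) B') = (TM 0 B'ᵀ)ᵀ := by
        apply ext4
        · rfl
        · intro j; rfl
        · intro j; rfl
        · intro i j; rfl
      rw [h5, ← transpose_mul, ← transpose_mul, TM_mul, TM_mul]
      congr 2
      · simp [vecMul_transpose]
      · simp
    have h2 : B' *ᵥ u = (B' *ᵥ u - u) + u := by abel
    have h3 : colE (B' *ᵥ u - u) ∈ NE (m + 1) R M := by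
      apply colE_mem
      intro i
      have e : (B' *ᵥ u - u) i = ∑ j, (B' i j - (1 : Matrix (Fin m) (Fin m) R) i j) * u j := by
        have h4 : B' *ᵥ u - u = (B' - 1) *ᵥ u := by rw [sub_mulVec, one_mulVec]
        rw [h4]
        rfl
      rw [e]
      exact Finset.dvd_sum (fun j _ => (hc i j).mul_right _)
    rw [← map_mul _ B, h1, map_mul, h2, colE_add, map_mul, qq_eq_one.2 h3, one_mul]
  have h0 : ∀ (j : Fin m) (t : R), Commute (qq M (el 0 j.succ (Fin.succ_ne_zero j).symm t)) (qq M B) := by
    intro j t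
    rw [← rowE_single]; exact hrow _
  have h0' : ∀ (j : Fin m) (t : R), Commute (qq M (el j.succ 0 (Fin.succ_ne_zero j) t)) (qq M B) := by
    intro j t
    rw [← colE_single]; exact hcol _
  have hgen : ∀ (i j : Fin (m + 1)) (h : i ≠ j) (t : R), Commute (qq M (el i j h t)) (qq M B) := by
    intro i j h t
    rcases Fin.eq_zero_or_eq_succ i with rfl | ⟨i', rfl⟩
    · rcases Fin.eq_zero_or_eq_succ j with rfl | ⟨j', rfl⟩
      · exact absurd rfl h
      · exact h0 j' t
    · rcases Fin.eq_zero_or_eq_succ j with rfl | ⟨j', rfl⟩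
      · exact h0' i' t
      · have e : el i'.succ j'.succ h t = el i'.succ 0 (Fin.succ_ne_zero i') t *
            el 0 j'.succ (Fin.succ_ne_zero j').symm 1 * (el i'.succ 0 (Fin.succ_ne_zero i') t)⁻¹ *
            (el 0 j'.succ (Fin.succ_ne_zero j').symm 1)⁻¹ := by
          rw [← el_neg, ← el_neg]
          apply Units.ext
          simp only [Units.val_mul, el_val]
          unfold transvection
          have a1 : (i'.succ : Fin (m + 1)) ≠ 0 := Fin.succ_ne_zero i'
          have a2 : (0 : Fin (m + 1)) ≠ j'.succ := (Fin.succ_ne_zero j').symm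
          have b1 : Matrix.single i'.succ (0 : Fin (m + 1)) t * Matrix.single i'.succ (0 : Fin (m + 1)) t = 0 :=
            Matrix.single_mul_single_of_ne _ _ _ _ a1.symm _
          have b2 : Matrix.single (0 : Fin (m + 1)) j'.succ (1 : R) * Matrix.single (0 : Fin (m + 1)) j'.succ 1 = 0 :=
            Matrix.single_mul_single_of_ne _ _ _ _ a2.symm _
          have b3 : Matrix.single (0 : Fin (m + 1)) j'.succ (1 : R) * Matrix.single i'.succ (0 : Fin (m + 1)) t = 0 :=
            Matrix.single_mul_single_of_ne _ _ _ _ h.symm _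
          have b4 : Matrix.single i'.succ (0 : Fin (m + 1)) t * Matrix.single (0 : Fin (m + 1)) j'.succ (1 : R) =
            Matrix.single i'.succ j'.succ t := by
            rw [Matrix.single_mul_single_same, mul_one]
          have c1 : Matrix.single i'.succ (0 : Fin (m + 1)) (-t) =
            -Matrix.single i'.succ (0 : Fin (m + 1)) t := by
            ext a b
            simp only [Matrix.single_apply, Matrix.neg_apply]
            split_ifs <;> simp
          have c2 : Matrix.single (0 : Fin (m + 1)) j'.succ (-1 : R) =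
            -Matrix.single (0 : Fin (m + 1)) j'.succ (1 : R) := by
            ext a b
            simp only [Matrix.single_apply, Matrix.neg_apply]
            split_ifs <;> simp
          rw [c1, c2, comm_id b1 b2 b3, b4]
        rw [e, map_mul, map_mul, map_mul, map_inv, map_inv]
        exact (((h0' i' t).mul_left (h0 j' 1)).mul_left (h0' i' t).inv_left).mul_left
          (h0 j' 1).inv_left
  unfold Ele at he
  have : ∀ x ∈ Subgroup.closure {x : SpecialLinearGroup (Fin (m + 1)) R | ∃ (i j : Fin (m + 1)) (h : i ≠ j) (t : R), x = tvr i j h t},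
      Commute (qq M (SpecialLinearGroup.toGL x)) (qq M B) := by
    intro x hx
    induction hx using Subgroup.closure_induction with
    | mem x hx =>
      obtain ⟨i, j, h, t, rfl⟩ := hx
      exact hgen i j h t
    | one => rw [map_one, map_one]; exact Commute.one_left _
    | mul x y _ _ hx hy => rw [map_mul, map_mul]; exact hx.mul_left hy
    | inv x _ hx => rw [map_inv, map_inv]; exact hx.inv_left
  exact this e he

end Pool.Agent.L0h47.NF
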