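import Pool.Agent.L0h47.NF.M.SCF1
import Pool.Agent.L0h47.NF.M.SCF2

/-!
# Congruence matrices commute with elementary matrices modulo the normal closure of congruence
elementary matrices
-/

set_option autoImplicit false

namespace Pool.Agent.L0h47.NF

open Matrix
open Pool.Agent.L0h47.CG

theorem scf : S_SCF := by
  intro R _ _ _ n hn M hM0 hMu B hB e he
  obtain ⟨m, rfl⟩ : ∃ m, n = m + 3 := ⟨n - 3, by omega⟩
  have hBc : B ∈ CgR (m + 3) R M := mem_CgR.2 hB
  have h01 : (1 : Fin (m + 3)) ≠ 0 := by simp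
  have h02 : (2 : Fin (m + 3)) ≠ 0 := by
    intro h
    have := congrArg Fin.val h
    simp only [Fin.coe_ofNat_eq_mod] at this
    rw [Nat.mod_eq_of_lt (by omega), Nat.mod_eq_of_lt (by omega)] at this
    omega
  have h12 : (2 : Fin (m + 3)) ≠ 1 := by
    intro h
    have := congrArg Fin.val h
    simp only [Fin.coe_ofNat_eq_mod] at this
    rw [Nat.mod_eq_of_lt (by omega), Nat.mod_eq_of_lt (by omega)] at this
    omega
  -- the first column
  let v : Fin (m + 3) → R := fun k => B.1 k 0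
  have hv0 : M ∣ v 0 - 1 := by
    have := hB 0 0
    rwa [Matrix.one_apply_eq] at this
  have hvk : ∀ k, k ≠ 0 → M ∣ v k := by
    intro k hk
    have := hB k 0
    rwa [Matrix.one_apply_ne hk, sub_zero] at this
  have huni : ∀ P : Ideal R, P.IsPrime → ∃ k, v k ∉ P := by
    intro P hP
    by_contra hcon
    push Not at hcon
    apply hP.ne_top
    rw [Ideal.eq_top_iff_one]
    have h1 : (1 : R) = ∑ k, (B⁻¹).1 0 k * v k := by
      have h2 : ((B⁻¹).1 * B.1) 0 0 = 1 := by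
        rw [← Units.val_mul, inv_mul_cancel]
        exact Matrix.one_apply_eq 0
      rw [← h2, Matrix.mul_apply]
    rw [h1]
    exact sum_mem (fun k _ => Ideal.mul_mem_left _ _ (hcon k))
  -- step 1
  let s1 : Finset (Fin (m + 3)) := Finset.univ.filter (fun k => k ≠ 0 ∧ k ≠ 1)
  obtain ⟨t, x, y, hxy⟩ := unimod_short (ι := {k : Fin (m + 3) // k ≠ 0 ∧ k ≠ 1})
    (M := M) (a := v 0) (b := v 1) (fun k => v k.1) hMu hv0 (by
      intro P hP h0 h1
      obtain ⟨k, hk⟩ := huni P hP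
      refine ⟨⟨k, ?_, ?_⟩, hk⟩
      · rintro rfl; exact hk h0
      · rintro rfl; exact hk h1)
  classical
  let t' : Fin (m + 3) → R := fun k => if h : k ≠ 0 ∧ k ≠ 1 then t ⟨k, h⟩ else 0
  obtain ⟨g1, hg1, hg1'⟩ := rowop (M := M) (1 : Fin (m + 3)) t' s1 (by simp [s1])
  have hsum : ∑ l ∈ s1, M * t' l * v l =
      ∑ k : {k : Fin (m + 3) // k ≠ 0 ∧ k ≠ 1}, M * t k * v k.1 := by
    rw [Finset.sum_subtype s1 (p := fun k => k ≠ 0 ∧ k ≠ 1) (by intro k; simp [s1])]
    apply Finset.sum_congr rfl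
    intro k _
    simp only [t']
    rw [dif_pos k.2]
  have c1 : ∀ k, (g1.1 *ᵥ v) k = v k + if k = 1 then
      ∑ k : {k : Fin (m + 3) // k ≠ 0 ∧ k ≠ 1}, M * t k * v k.1 else 0 := by
    intro k
    rw [hg1', hsum]
  set v1 : Fin (m + 3) → R := g1.1 *ᵥ v with hv1
  have hv1_0 : v1 0 = v 0 := by rw [c1, if_neg h01.symm, add_zero]
  have hv1_1 : x * v1 0 + y * v1 1 = 1 := by rw [hv1_0, c1, if_pos rfl]; exact hxy
  have hv1k : ∀ k, k ≠ 0 → M ∣ v1 k := by
    intro k hk
    rw [c1]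
    apply dvd_add (hvk k hk)
    split_ifs
    · exact Finset.dvd_sum (fun k _ => Dvd.dvd.mul_right (dvd_mul_right _ _) _)
    · exact dvd_zero _
  -- step 2
  obtain ⟨z, hz⟩ : M ∣ 1 - v1 0 - v1 2 := by
    have h1 : M ∣ 1 - v1 0 := by
      rw [hv1_0, ← neg_sub]
      exact hv0.neg_right
    exact dvd_sub h1 (hv1k 2 h02)
  let t2 : Fin (m + 3) → R := fun k => if k = 0 then z * x else z * y
  obtain ⟨g2, hg2, hg2'⟩ := rowop (M := M) (2 : Fin (m + 3)) t2 {0, 1} (by
    rw [Finset.mem_insert, Finset.mem_singleton, not_or]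
    exact ⟨h02, h12⟩)
  have hsum2 : ∑ l ∈ ({0, 1} : Finset (Fin (m + 3))), M * t2 l * v1 l = 1 - v1 0 - v1 2 := by
    rw [Finset.sum_pair h01.symm]
    simp only [t2]
    rw [if_neg h01, if_true]
    calc M * (z * x) * v1 0 + M * (z * y) * v1 1 = (M * z) * (x * v1 0 + y * v1 1) := by ring
      _ = _ := by rw [hv1_1, mul_one, ← hz]
  set v2 : Fin (m + 3) → R := g2.1 *ᵥ v1 with hv2
  have c2 : ∀ k, v2 k = v1 k + if k = 2 then 1 - v1 0 - v1 2 else 0 := by
    intro k
    rw [hv2, hg2', hsum2]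
  -- step 3
  set v3 : Fin (m + 3) → R := (el 0 2 h02.symm (1 : R)).1 *ᵥ v2 with hv3
  have c3 : ∀ k, v3 k = v2 k + if k = 0 then v2 2 else 0 := by
    intro k
    rw [hv3, el_mulVec, one_mul]
  have hv3_0 : v3 0 = 1 := by
    rw [c3, if_pos rfl, c2, c2, if_pos rfl, if_neg h02.symm]
    ring
  have hv3k : ∀ k, k ≠ 0 → M ∣ v3 k := by
    intro k hk
    rw [c3, if_neg hk, add_zero, c2]
    split_ifs with h2
    · rw [h2]
      have e : v1 2 + (1 - v1 0 - v1 2) = 1 - v1 0 := by ring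
      rw [e, hv1_0, ← neg_sub]
      exact hv0.neg_right
    · rw [add_zero]
      exact hv1k k hk
  -- clearing the column
  obtain ⟨w, hw⟩ : ∃ w : Fin (m + 2) → R, ∀ j, v3 j.succ = M * w j :=
    ⟨fun j => (hv3k j.succ (Fin.succ_ne_zero j)).choose,
      fun j => (hv3k j.succ (Fin.succ_ne_zero j)).choose_spec⟩
  let g3 : GL (Fin (m + 3)) R := colE (fun j => M * -(w j))
  have hg3 : g3 ∈ NE (m + 3) R M := colE_mem _ (fun j => dvd_mul_right _ _)
  have c4 : ∀ k, (g3.1 *ᵥ v3) k = (Pi.single 0 1 : Fin (m + 3) → R) k := by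
    intro k
    show (((TM (fun j => M * -(w j)) 1)ᵀ : Matrix (Fin (m + 3)) (Fin (m + 3)) R) *ᵥ v3) k = _
    rw [mulVec_transpose]
    show ∑ i, v3 i * TM (fun j => M * -(w j)) 1 i k = _
    rw [Fin.sum_univ_succ]
    refine Fin.cases ?_ (fun k' => ?_) k
    · simp only [TM_00, TM_s0, mul_one, mul_zero, Finset.sum_const_zero, add_zero, hv3_0,
        Pi.single_eq_same]
    · rw [Pi.single_eq_of_ne (Fin.succ_ne_zero k')]
      simp only [TM_0s, TM_ss, hv3_0, one_mul]
      rw [Finset.sum_eq_single k']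
      · rw [Matrix.one_apply_eq, mul_one, hw]; ring
      · intro b _ hb
        rw [Matrix.one_apply_ne hb, mul_zero]
      · intro h; exact absurd (Finset.mem_univ _) h
  let E : GL (Fin (m + 3)) R := el 0 2 h02.symm (1 : R)
  let B3 : GL (Fin (m + 3)) R := g3 * (E * (g2 * (g1 * B)))
  have hB3col : ∀ k, B3.1 k 0 = (Pi.single 0 1 : Fin (m + 3) → R) k := by
    intro k
    rw [← c4 k, hv3, hv2, hv1, mulVec_mulVec, mulVec_mulVec, mulVec_mulVec]
    have e : v = B.1 *ᵥ (Pi.single 0 1 : Fin (m + 3) → R) := by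
      funext k
      rw [mulVec_single_one]; rfl
    rw [e, mulVec_mulVec, mulVec_single_one]
    show B3.1 k 0 = _
    simp only [B3, E, Units.val_mul, Matrix.mul_assoc]
    rfl
  have hblock := mat_block B3.1 hB3col
  set b : Fin (m + 2) → R := fun j => B3.1 0 j.succ with hb
  set B' : Matrix (Fin (m + 2)) (Fin (m + 2)) R := B3.1.submatrix Fin.succ Fin.succ with hB'
  -- `B3` is congruent to `E`
  have hB3c : E⁻¹ * B3 ∈ CgR (m + 3) R M := by
    have e : E⁻¹ * B3 = (E⁻¹ * g3 * E) * (g2 * (g1 * B)) := by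
      simp only [B3]; group
    rw [e]
    refine mul_mem ?_ (mul_mem (NE_le hg2) (mul_mem (NE_le hg1) hBc))
    have := (instNormCg (n := m + 3) (M := M)).conj_mem g3 (NE_le hg3) E⁻¹
    rwa [inv_inv] at this
  have hbs : ∀ j, M ∣ b j - (Pi.single (1 : Fin (m + 2)) (1 : R) : Fin (m + 2) → R) j := by
    intro j
    have e : B3.1 = E.1 * (E⁻¹ * B3).1 := by
      rw [← Units.val_mul, mul_inv_cancel_left]
    have h5 := mem_CgR.1 hB3c
    have h6 : B3.1 0 j.succ = (E⁻¹ * B3).1 0 j.succ + (E⁻¹ * B3).1 2 j.succ := by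
      rw [e]
      have := el_mulVec (0 : Fin (m + 3)) 2 h02.symm (1 : R) (fun k => (E⁻¹ * B3).1 k j.succ) 0
      rw [if_pos rfl, one_mul] at this
      rw [← this]
      rfl
    have h7 := h5 0 j.succ
    have h8 := h5 2 j.succ
    rw [Matrix.one_apply_ne (Fin.succ_ne_zero j).symm, sub_zero] at h7
    have h9 : (1 : Matrix (Fin (m + 3)) (Fin (m + 3)) R) 2 j.succ =
        (Pi.single (1 : Fin (m + 2)) (1 : R) : Fin (m + 2) → R) j := by
      have h10 : (2 : Fin (m + 3)) = Fin.succ (1 : Fin (m + 2)) := rfl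
      rw [h10, Matrix.one_apply, Pi.single_apply]
      by_cases hj : j = 1
      · rw [if_pos (by rw [hj]), if_pos hj]
      · rw [if_neg (fun h => hj (Fin.succ_injective _ h).symm), if_neg hj]
    rw [h9] at h8
    show M ∣ B3.1 0 j.succ - _
    rw [h6, add_sub_assoc]
    exact dvd_add h7 h8
  obtain ⟨w2, hw2⟩ : ∃ w2 : Fin (m + 2) → R, ∀ j,
      b j - (Pi.single (1 : Fin (m + 2)) (1 : R) : Fin (m + 2) → R) j = M * w2 j :=
    ⟨fun j => (hbs j).choose, fun j => (hbs j).choose_spec⟩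
  have hbneg : -b = Pi.single (1 : Fin (m + 2)) (-1 : R) + fun j => M * -(w2 j) := by
    funext j
    have := hw2 j
    rw [Pi.add_apply, Pi.neg_apply]
    have e1 : (Pi.single (1 : Fin (m + 2)) (-1 : R) : Fin (m + 2) → R) j =
        -(Pi.single (1 : Fin (m + 2)) (1 : R) : Fin (m + 2) → R) j := by
      rw [Pi.single_apply, Pi.single_apply]
      split_ifs <;> simp
    rw [e1]
    linear_combination -this
  let g4 : GL (Fin (m + 3)) R := rowE (fun j => M * -(w2 j))
  have hg4 : g4 ∈ NE (m + 3) R M := rowE_mem _ (fun j => dvd_mul_right _ _)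
  have hE' : rowE (Pi.single (1 : Fin (m + 2)) (-1 : R)) = E⁻¹ := by
    rw [rowE_single]
    have : el (0 : Fin (m + 3)) (Fin.succ (1 : Fin (m + 2))) (Fin.succ_ne_zero 1).symm (-1 : R) =
      el 0 2 h02.symm (-1 : R) := rfl
    rw [this, el_neg]
  have hrow : rowE (-b) = E⁻¹ * g4 := by
    rw [hbneg, rowE_add, hE']
  let B4 : GL (Fin (m + 3)) R := B3 * rowE (-b)
  have hB4 : B4.1 = TM 0 B' := by
    show B3.1 * (rowE (-b)).1 = _
    rw [hblock, rowE_val, TM_mul]
    simp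
  have hB4c : B4 ∈ CgR (m + 3) R M := by
    have e : B4 = E * (E⁻¹ * B3) * E⁻¹ * g4 := by
      simp only [B4]
      rw [hrow]
      group
    rw [e]
    exact mul_mem ((instNormCg (n := m + 3) (M := M)).conj_mem _ hB3c E) (NE_le hg4)
  have hB'c : ∀ i j, M ∣ B' i j - (1 : Matrix (Fin (m + 2)) (Fin (m + 2)) R) i j := by
    intro i j
    have h1 := mem_CgR.1 hB4c i.succ j.succ
    rw [hB4, TM_ss] at h1
    have h2 : (1 : Matrix (Fin (m + 3)) (Fin (m + 3)) R) i.succ j.succ =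
        (1 : Matrix (Fin (m + 2)) (Fin (m + 2)) R) i j := by
      rw [Matrix.one_apply, Matrix.one_apply]
      by_cases hij : i = j
      · rw [if_pos (by rw [hij]), if_pos hij]
      · rw [if_neg (fun h => hij (Fin.succ_injective _ h)), if_neg hij]
    rwa [h2] at h1
  -- conclusion
  have hcomm := fun (e : SpecialLinearGroup (Fin (m + 3)) R) (he : e ∈ Ele (m + 3) R) =>
    block_comm (M := M) hB4 hB'c he
  have hqB4 : qq M B4 = qq M E * qq M B * (qq M E)⁻¹ := by
    have e : B4 = g3 * E * g2 * g1 * B * E⁻¹ * g4 := by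
      simp only [B4, B3]
      rw [hrow]
      group
    rw [e]
    simp only [map_mul, map_inv]
    rw [qq_eq_one.2 hg1, qq_eq_one.2 hg2, qq_eq_one.2 hg3, qq_eq_one.2 hg4]
    simp only [one_mul, mul_one]
  have hEele : qq M E * qq M B4 = qq M B4 * qq M E := hcomm _ (tvr_mem _ _ _ _)
  have hqB : qq M B = qq M B4 := by
    have h1 : qq M B = (qq M E)⁻¹ * qq M B4 * qq M E := by
      rw [hqB4]; group
    rw [h1, mul_assoc, ← hEele]
    group
  rw [← qq_eq_one]
  simp only [map_mul, map_inv]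
  rw [hqB, hcomm e he]
  group

end Pool.Agent.L0h47.NF
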