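import Pool.Agent.L0h47.NF.Stm

/-! # Module SMC: products and integral combinations -/

set_option autoImplicit false

namespace Pool.Agent.L0h47.NF

open Matrix NumberField IsDedekindDomain
open scoped WithZero

variable {n : ℕ} {F : Type} [Field F] [NumberField F] {Sg : Finset (Pl F)} {L : Level n Sg}
  {p : ℕ} {O : Type} [CommRing O] {W : Type} [AddCommGroup W] [Module O W]

lemma opF_rep (C : Coef L p O W) (P : FreeAlgebra O (HI n Sg)) (γ : GQ n F) :
    ∀ f : C.Fn, opF C P (C.rep γ f) = C.rep γ (opF C P f) := by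
  induction P using FreeAlgebra.induction with
  | grade0 r =>
    intro f
    rw [AlgHom.commutes]
    show r • (C.rep γ f) = C.rep γ (r • f)
    rw [map_smul]
  | grade1 a =>
    intro f
    unfold opF
    rw [FreeAlgebra.lift_ι_apply]
    apply Subtype.ext
    funext g
    exact hecke_left f.1 a.2 (dg n γ)⁻¹ g
  | mul a b iha ihb =>
    intro f
    rw [map_mul]
    show opF C a (opF C b (C.rep γ f)) = C.rep γ (opF C a (opF C b f))
    rw [ihb, iha]
  | add a b iha ihb =>
    intro f
    rw [map_add]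
    show opF C a (C.rep γ f) + opF C b (C.rep γ f) = C.rep γ (opF C a f + opF C b f)
    rw [iha, ihb, map_add]

lemma opF_mul_apply (C : Coef L p O W) (P P' : FreeAlgebra O (HI n Sg)) (f : C.Fn) :
    opF C (P * P') f = opF C P (opF C P' f) := by
  rw [map_mul]
  rfl

lemma rep_apply' (C : Coef L p O W) (γ : GQ n F) (f : C.Fn) (g : AG n F) :
    (C.rep γ f).1 g = f.1 ((dg n γ)⁻¹ * g) := rfl

lemma opF_inv (C : Coef L p O W) (P : FreeAlgebra O (HI n Sg)) (f : C.Fn)
    (hf : ∀ γ g, f.1 (dg n γ * g) = f.1 g) (γ : GQ n F) (g : AG n F) :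
    (opF C P f).1 (dg n γ * g) = (opF C P f).1 g := by
  have h1 : C.rep γ⁻¹ f = f := by
    apply Subtype.ext
    funext x
    rw [rep_apply', map_inv, inv_inv, hf]
  have h2 := opF_rep C P γ⁻¹ f
  rw [h1] at h2
  conv_rhs => rw [h2]
  rw [rep_apply', map_inv, inv_inv]

lemma opF_coc (C : Coef L p O W) (P : FreeAlgebra O (HI n Sg)) (c : GQ n F → C.Fn)
    (hc : IsCoc (fun γ => (c γ).1)) : IsCoc (fun γ => (opF C P (c γ)).1) := by
  intro γ δ x
  have h1 : c (γ * δ) = c γ + C.rep γ (c δ) := by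
    apply Subtype.ext
    funext y
    exact hc γ δ y
  show (opF C P (c (γ * δ))).1 x = (opF C P (c γ)).1 x + (opF C P (c δ)).1 ((dg n γ)⁻¹ * x)
  rw [h1, map_add, opF_rep]
  rfl

lemma LC.right {A : Type} {f : AG n F → A} (hf : LC f) (s : AG n F) : LC (fun x => f (x * s)) := by
  intro g
  obtain ⟨N, hN, h⟩ := hf (g * s)
  obtain ⟨M, hM, h'⟩ := exists_conj_KN s hN
  refine ⟨M, hM, fun κ hκ => ?_⟩
  show f (g * κ * s) = f (g * s)
  rw [← h _ (h' κ hκ)]
  congr 1
  group

lemma LC.comb {A B E : Type} {f : AG n F → A} {f' : AG n F → B} (hf : LC f) (hf' : LC f')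
    (φ : A → B → E) : LC (fun x => φ (f x) (f' x)) := by
  intro g
  obtain ⟨N, hN, h⟩ := hf g
  obtain ⟨N', hN', h'⟩ := hf' g
  refine ⟨N * N', mul_ne_zero hN hN', fun κ hκ => ?_⟩
  show φ (f (g * κ)) (f' (g * κ)) = φ (f g) (f' g)
  rw [h κ (KN_anti (dvd_mul_right _ _) hκ), h' κ (KN_anti (dvd_mul_left _ _) hκ)]

theorem smc : S_SMC := by
  intro n F _ _ Sg L p O _ W _ _ C v
  refine ⟨?_, ?_, ?_⟩
  · intro P D e P' D' e' hP hP'
    constructor
    · intro f hf g
      rw [opF_mul_apply, hP.h0 _ (opF_inv C P' f hf), hP'.h0 f hf, smul_smul, mul_assoc, pow_add]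
    · intro c hc
      obtain ⟨f, hf, h⟩ := hP.z (fun γ => opF C P' (c γ)) (opF_coc C P' c hc)
      obtain ⟨f', hf', h'⟩ := hP'.z c hc
      refine ⟨fun x => f x + D • f' (x * sft n v ^ e),
        hf.comb (hf'.right (sft n v ^ e)) (fun a b => a + D • b), ?_⟩
      intro γ x
      have h1 := h γ x
      have h2 := h' γ (x * sft n v ^ e)
      rw [opF_mul_apply]
      rw [sub_eq_iff_eq_add] at h1 h2
      rw [h1, h2, smul_add, smul_smul, pow_add, mul_assoc x]
      unfold dF
      beta_reduce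
      rw [smul_sub, mul_assoc (dg n γ)⁻¹]
      abel
    · intro f hf c hc
      obtain ⟨f1, hf1, h1, k1⟩ := hP'.k f hf c hc
      obtain ⟨f2, hf2, h2, k2⟩ := hP.k f1 hf1 (fun γ => opF C P' (c γ)) h1
      refine ⟨f2, hf2, fun γ x => ?_, fun κ g => ?_⟩
      · rw [opF_mul_apply]
        exact h2 γ x
      · rw [k2, k1, smul_smul, pow_add, mul_assoc g]
  · intro P D P' D' e a b hP hP'
    have hop : ∀ f : C.Fn, opF C (a • P + b • P') f = a • opF C P f + b • opF C P' f := by
      intro f
      rw [map_add, map_zsmul, map_zsmul]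
      rfl
    have hv : ∀ (f f' : C.Fn) (x : AG n F), (a • f + b • f').1 x = a • f.1 x + b • f'.1 x := by
      intro f f' x
      rfl
    constructor
    · intro f hf g
      rw [hop, hv, hP.h0 f hf, hP'.h0 f hf, smul_smul, smul_smul, ← add_smul]
    · intro c hc
      obtain ⟨f, hf, h⟩ := hP.z c hc
      obtain ⟨f', hf', h'⟩ := hP'.z c hc
      refine ⟨fun x => a • f x + b • f' x, hf.comb hf' (fun s t => a • s + b • t), ?_⟩
      intro γ x
      have h1 := h γ x
      have h2 := h' γ x
      rw [hop, hv]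
      rw [sub_eq_iff_eq_add] at h1 h2
      rw [h1, h2]
      unfold dF
      beta_reduce
      rw [add_smul, smul_add, smul_add, smul_smul, smul_smul, smul_sub, smul_sub]
      abel
    · intro f hf c hc
      obtain ⟨f1, hf1, h1, k1⟩ := hP.k f hf c hc
      obtain ⟨f2, hf2, h2, k2⟩ := hP'.k f hf c hc
      refine ⟨fun x => a • f1 x + b • f2 x, hf1.comb hf2 (fun s t => a • s + b • t),
        fun γ x => ?_, fun κ g => ?_⟩
      · rw [hop, hv, h1, h2]
        unfold dF
        beta_reduce
        rw [smul_sub, smul_sub]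
        abel
      · have e1 := k1 κ g
        have e2 := k2 κ g
        rw [sub_eq_iff_eq_add] at e1 e2
        show C.act κ (a • f1 (g * κ.1) + b • f2 (g * κ.1)) - (a • f1 g + b • f2 g) = _
        rw [map_add, map_zsmul, map_zsmul, e1, e2]
        rw [add_smul, smul_add, smul_add, smul_smul, smul_smul]
        abel
  · constructor
    · intro f hf g
      rw [map_one, pow_zero, mul_one, one_smul]
      rfl
    · intro c hc
      refine ⟨fun _ => 0, fun g => ⟨1, one_ne_zero, fun _ _ => rfl⟩, fun γ x => ?_⟩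
      rw [map_one, pow_zero, mul_one, one_smul]
      unfold dF
      rw [sub_zero]
      exact sub_self _
    · intro f hf c hc
      refine ⟨f, hf, fun γ x => ?_, fun κ g => ?_⟩
      · rw [map_one]
        exact hc γ x
      · rw [pow_zero, mul_one, one_smul]

end Pool.Agent.L0h47.NF
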