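import Pool.Agent.L0h47.NF.Stm

/-!
# Module TJ0: the Hecke operators `T_j` on left invariant functions
-/

set_option autoImplicit false

namespace Pool.Agent.L0h47.NF

open Matrix NumberField IsDedekindDomain
open scoped WithZero

namespace TJm

variable {n : ℕ} {F : Type} [Field F] [NumberField F] {A : Type}

lemma sameDet_inc (v : Pl F) (j : ℕ) (g : AG n F) (hn : 1 ≤ n) {y : LG n v}
    (hy : y.1.det = (unif v) ^ j) : SameDet (g * inc n v y) (g * sft n v ^ j) := by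
  intro w
  rw [mul_apply', mul_apply', Units.val_mul, Units.val_mul, det_mul, det_mul]
  congr 1
  have e1 : sft n v ^ j = inc n v ((td n v 1) ^ j) := by
    rw [map_pow]; rfl
  rw [e1]
  by_cases h : w = v
  · subst h
    rw [inc_same, inc_same, hy, Units.val_pow_eq_pow_val, det_pow]
    congr 1
    have e2 : (td n w 1).1.det = ∏ i : Fin n, (if (i : ℕ) < 1 then unif w else 1) := by
      show (diagonal _).det = _
      rw [det_diagonal]
    rw [e2, Finset.prod_eq_single (⟨0, hn⟩ : Fin n)]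
    · simp
    · intro b _ hb
      rw [if_neg]
      intro h1
      exact hb (Fin.ext (Nat.lt_one_iff.1 h1))
    · intro h; exact absurd (Finset.mem_univ _) h
  · rw [inc_ne h, inc_ne h]

section
variable {Sg : Finset (Pl F)} {L : Level n Sg} {p : ℕ} {O : Type} [CommRing O] {W : Type}
  [AddCommGroup W] [Module O W]

lemma Fn_LC (C : Coef L p O W) (f : C.Fn) : LC f.1 := by
  intro g
  obtain ⟨N1, h1, hN1⟩ := L.isOpen
  obtain ⟨N2, h2, hN2⟩ := C.smooth
  refine ⟨N1 * N2, mul_ne_zero h1 h2, fun κ hκ => ?_⟩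
  have hK : κ ∈ L.Kf := hN1 (KN_anti (dvd_mul_right _ _) hκ)
  have e := f.2 g ⟨κ, hK⟩
  have e2 : C.act (⟨κ, hK⟩ : L.Kf)⁻¹ = 1 := by
    apply hN2
    exact inv_mem (KN_anti (dvd_mul_left _ _) hκ)
  rw [e2] at e
  exact e

lemma opF_iota (C : Coef L p O W) (a : HI n Sg) :
    opF C (FreeAlgebra.ι O a) = C.heckeFn a.1.1 a.1.2 a.2 := by
  unfold opF
  rw [FreeAlgebra.lift_ι_apply]

end

end TJm

open TJm

theorem tj0 (h1 : S_IDT) (h2 : S_RPC) : ∀ (n : ℕ) (F : Type) [Field F] [NumberField F]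
    (Sg : Finset (Pl F)) (L : Level n Sg) (p : ℕ) (O : Type) [CommRing O] (W : Type)
    [AddCommGroup W] [Module O W] (C : Coef L p O W) (v : {v : Pl F // v ∉ Sg}) (j : ℕ), 3 ≤ n →
    p ≠ 0 → j ≤ n → ∀ f : C.Fn, (∀ γ g, f.1 (dg n γ * g) = f.1 g) →
    ∀ g, (opF C (FreeAlgebra.ι O ⟨v, td n v.1 j⟩) f).1 g =
      (deg n v.1 j : ℤ) • f.1 (g * sft n v.1 ^ j) := by
  intro n F _ _ Sg L p O _ W _ _ C v j hn _ hj f hf g
  classical
  rw [opF_iota]
  show hecke v.1 (td n v.1 j) f.1 g = _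
  unfold hecke
  have key : ∀ c : HC n v.1 (td n v.1 j), f.1 (g * inc n v.1 c.1.out) =
      f.1 (g * sft n v.1 ^ j) := by
    intro c
    obtain ⟨y, hy, hy2⟩ := h2 n F v.1 j (by omega) hj c
    have e1 : ((c.1.out : LG n v.1) : LG n v.1 ⧸ U n v.1) = (y : LG n v.1 ⧸ U n v.1) := by
      rw [QuotientGroup.out_eq', hy]
    rw [(Fn_RU C v.2 f).coset g e1]
    exact h1 n F W f.1 hf (Fn_LC C f) _ _ (sameDet_inc v.1 j g (by omega) hy2)
  rw [finsum_congr key]
  have : Fintype (HC n v.1 (td n v.1 j)) := Fintype.ofFinite _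
  rw [finsum_eq_sum_of_fintype, Finset.sum_const, Finset.card_univ, natCast_zsmul]
  congr 1
  unfold deg
  rw [Nat.card_eq_fintype_card]

end Pool.Agent.L0h47.NF
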