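import Pool.Agent.L0h47.NF.Stm

/-!
# The Hecke operators `T_j` on cocycles
-/

set_option autoImplicit false

namespace Pool.Agent.L0h47.NF

open Matrix NumberField IsDedekindDomain
open scoped WithZero
open Pool.Agent.L0h47.CG (tvr Ele EV ele_top mtr mtr_mul mtr_one mtr_inj)

lemma det_td_one (n : ℕ) {F : Type} [Field F] [NumberField F] (v : Pl F) (hn : 1 ≤ n) :
    (td n v 1).1.det = unif v := by
  show (diagonal (fun i : Fin n => if (i : ℕ) < 1 then unif v else 1)).det = unif v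
  rw [Matrix.det_diagonal]
  obtain ⟨m, rfl⟩ : ∃ m, n = m + 1 := ⟨n - 1, by omega⟩
  rw [Fin.prod_univ_succ]
  simp

/-- field `z` of `S_TJ` -/
theorem tjz (h1 : S_HST) (h2 : S_RPC) : ∀ (n : ℕ) (F : Type) [Field F] [NumberField F]
    (Sg : Finset (Pl F)) (L : Level n Sg) (p : ℕ) (O : Type) [CommRing O] (W : Type)
    [AddCommGroup W] [Module O W] (C : Coef L p O W) (v : {v : Pl F // v ∉ Sg}) (j : ℕ), 3 ≤ n →
    p ≠ 0 → j ≤ n →
    ∀ c : GQ n F → C.Fn, IsCoc (fun γ => (c γ).1) →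
      ∃ f : AG n F → W, LC f ∧ ∀ γ x, (opF C (FreeAlgebra.ι O ⟨v, td n v.1 j⟩) (c γ)).1 x -
        (deg n v.1 j : ℤ) • (c γ).1 (x * sft n v.1 ^ j) = dF f γ x := by
  intro n F _ _ Sg L p O _ W _ _ C v j hn hp hj c hc
  classical
  obtain ⟨r, hr⟩ := C.tors
  obtain ⟨N1, hN1, hle⟩ := L.isOpen
  obtain ⟨N2, hN2, hsm⟩ := C.smooth
  have hinv : ∀ γ x, ∀ κ ∈ KN n F (N1 * N2), (c γ).1 (x * κ) = (c γ).1 x := by
    intro γ x κ hκ
    have hκ1 : κ ∈ L.Kf := hle (KN_anti (dvd_mul_right _ _) hκ)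
    have h := (c γ).2 x ⟨κ, hκ1⟩
    have h3 : C.act (⟨κ, hκ1⟩ : L.Kf)⁻¹ = 1 :=
      hsm _ (inv_mem (KN_anti (dvd_mul_left _ _) hκ))
    rw [h3] at h
    exact h
  -- representatives
  choose y hy hydet using h2 n F v.1 j (by omega) hj
  have hsame : ∀ e : HC n v.1 (td n v.1 j), SameDet (inc n v.1 (y e)) (sft n v.1 ^ j) := by
    intro e w
    have e1 : (sft n v.1 ^ j).1 w = ((sft n v.1).1 w) ^ j := rfl
    rw [e1]
    by_cases hw : w = v.1
    · subst hw
      have e2 : (sft n v.1).1 v.1 = td n v.1 1 := inc_same _ _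
      rw [inc_same, e2, hydet e, Units.val_pow_eq_pow_val, Matrix.det_pow,
        det_td_one n v.1 (by omega)]
    · have e2 : (sft n v.1).1 w = 1 := inc_ne hw _
      rw [inc_ne hw, e2, one_pow]
  have hW : ∀ a : W, (p ^ r) • a = 0 := hr
  choose f hf hdf using fun e : HC n v.1 (td n v.1 j) => h1 n F W hn (p ^ r) (pow_ne_zero _ hp) hW
    (fun γ => (c γ).1) hc (N1 * N2) (mul_ne_zero hN1 hN2) hinv (inc n v.1 (y e)) (sft n v.1 ^ j)
    (hsame e)
  have : Fintype (HC n v.1 (td n v.1 j)) := Fintype.ofFinite _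
  refine ⟨fun g => ∑ e, f e g, ?_, ?_⟩
  · intro g
    choose M hM hMf using fun e => hf e g
    refine ⟨∏ e, M e, Finset.prod_ne_zero_iff.2 fun e _ => hM e, ?_⟩
    intro κ hκ
    apply Finset.sum_congr rfl
    intro e _
    exact hMf e κ (KN_anti (Finset.dvd_prod_of_mem M (Finset.mem_univ e)) hκ)
  · intro γ x
    have e1 : (opF C (FreeAlgebra.ι O ⟨v, td n v.1 j⟩) (c γ)).1 x =
        ∑ e : HC n v.1 (td n v.1 j), (c γ).1 (x * inc n v.1 (y e)) := by
      unfold opF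
      rw [FreeAlgebra.lift_ι_apply]
      show hecke v.1 (td n v.1 j) (c γ).1 x = _
      unfold hecke
      rw [finsum_eq_sum_of_fintype]
      apply Finset.sum_congr rfl
      intro e _
      apply (Fn_RU C v.2 (c γ)).coset
      rw [QuotientGroup.out_eq', hy e]
    rw [e1]
    have e2 : (deg n v.1 j : ℤ) • (c γ).1 (x * sft n v.1 ^ j) =
        ∑ _e : HC n v.1 (td n v.1 j), (c γ).1 (x * sft n v.1 ^ j) := by
      rw [Finset.sum_const, Finset.card_univ, natCast_zsmul, deg, Nat.card_eq_fintype_card]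
    rw [e2, ← Finset.sum_sub_distrib]
    show _ = (∑ e, f e ((dg n γ)⁻¹ * x)) - ∑ e, f e x
    rw [← Finset.sum_sub_distrib]
    apply Finset.sum_congr rfl
    intro e _
    exact hdf e γ x

end Pool.Agent.L0h47.NF
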