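import Pool.Agent.L0h47.NF.Stm

/-! # Module APX: approximation at one place -/

set_option autoImplicit false

namespace Pool.Agent.L0h47.NF

open NumberField IsDedekindDomain
open scoped WithZero

lemma apx_exp {F : Type} [Field F] [NumberField F] (w : Pl F) (q : F) {N : ℕ} (hN : N ≠ 0) :
    ∃ e : ℕ, WithZero.exp (-(e : ℤ)) * vv w (cst w q) ≤ vv w ((N : ℕ) : Kv w) := by
  by_cases h : vv w (cst w q) = 0
  · refine ⟨0, ?_⟩
    rw [h, mul_zero]
    exact bot_le
  · have hN' := vv_nat_ne w hN
    have hg : vv w ((N : ℕ) : Kv w) / vv w (cst w q) ≠ 0 := div_ne_zero hN' h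
    refine ⟨(-(WithZero.log (vv w ((N : ℕ) : Kv w) / vv w (cst w q)))).toNat, ?_⟩
    rw [← le_div_iff₀ (zero_lt_iff.2 h)]
    conv_rhs => rw [← WithZero.exp_log hg]
    rw [WithZero.exp_le_exp]
    have h3 := Int.self_le_toNat (-(WithZero.log (vv w ((N : ℕ) : Kv w) / vv w (cst w q))))
    linarith

theorem apx : S_APX := by
  intro F _ _ v c N hN
  classical
  obtain ⟨q0, hq0⟩ := dense_cst v c (vv_nat_ne v hN)
  choose e he using fun w : Pl F => apx_exp w q0 hN
  have hfin := finite_bad (F := F) (q0 / (N : F))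
  obtain ⟨z, hz⟩ := IsDedekindDomain.exists_forall_sub_mem_ideal
    (s := insert v hfin.toFinset) (fun w : Pl F => w.asIdeal) e
    (fun w _ => w.prime) (fun w _ w' _ h h' => h (HeightOneSpectrum.ext h'))
    (fun w => if w.1 = v then 1 else 0)
  have hval : ∀ (w : Pl F) (y : 𝓞 F), y ∈ w.asIdeal ^ e w →
      vv w (cst w q0 * cst w y) ≤ vv w ((N : ℕ) : Kv w) := by
    intro w y hy
    rw [map_mul, mul_comm]
    refine le_trans (mul_le_mul_left ?_ _) (he w)
    have h1 := (HeightOneSpectrum.intValuation_le_pow_iff_mem w y (e w)).2 hy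
    rw [vv_cst]
    have h2 : w.valuation F (algebraMap (𝓞 F) F y) = w.intValuation y :=
      HeightOneSpectrum.valuation_of_algebraMap w y
    exact h2.trans_le h1
  refine ⟨q0 * z, ?_, ?_⟩
  · have h1 := hz v (Finset.mem_insert_self _ _)
    rw [if_pos rfl] at h1
    have h2 := hval v _ h1
    have h3 : cst v (q0 * z) - c = cst v q0 * cst v ((z - 1 : 𝓞 F) : F) + (cst v q0 - c) := by
      have : ((z - 1 : 𝓞 F) : F) = (z : F) - 1 := by
        have := map_sub (algebraMap (𝓞 F) F) z 1
        rw [map_one] at this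
        exact this
      rw [this, map_mul, map_sub, map_one]
      ring
    rw [h3]
    exact (Valuation.map_add _ _ _).trans (max_le h2 hq0)
  · intro w hw
    rw [map_mul]
    by_cases h : w ∈ hfin.toFinset
    · have h1 := hz w (Finset.mem_insert_of_mem h)
      rw [if_neg hw, sub_zero] at h1
      exact hval w z h1
    · rw [hfin.mem_toFinset] at h
      simp only [Set.mem_ofPred_eq, not_not] at h
      rw [map_div₀, map_div₀, map_natCast, div_le_one₀ (zero_lt_iff.2 (vv_nat_ne w hN))] at h
      rw [map_mul]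
      exact (mul_le_of_le_one_right' (vv_int w z)).trans h

end Pool.Agent.L0h47.NF
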