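import Pool.Agent.L0h47.NF.M.TJ0

/-!
# Module TJK: the Hecke operators `T_j` on coboundaries of locally constant functions
-/

set_option autoImplicit false

namespace Pool.Agent.L0h47.NF

open Matrix NumberField IsDedekindDomain
open scoped WithZero

namespace TJm

variable {n : ℕ} {F : Type} [Field F] [NumberField F] {A : Type}

lemma LC_right {f : AG n F → A} (hf : LC f) (y : AG n F) : LC (fun g => f (g * y)) := by
  intro g
  obtain ⟨N, hN, h⟩ := hf (g * y)
  obtain ⟨M, hM, h'⟩ := exists_conj_KN y hN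
  refine ⟨M, hM, fun κ hκ => ?_⟩
  show f (g * κ * y) = f (g * y)
  have e : g * κ * y = g * y * (y⁻¹ * κ * y) := by group
  rw [e]
  exact h _ (h' κ hκ)

lemma LC_map2 {B C' : Type} {f : AG n F → A} {f' : AG n F → B} (hf : LC f) (hf' : LC f')
    (m : A → B → C') : LC (fun g => m (f g) (f' g)) := by
  intro g
  obtain ⟨N, hN, h⟩ := hf g
  obtain ⟨M, hM, h'⟩ := hf' g
  refine ⟨N * M, mul_ne_zero hN hM, fun κ hκ => ?_⟩
  show m (f (g * κ)) (f' (g * κ)) = m (f g) (f' g)
  rw [h κ (KN_anti (dvd_mul_right _ _) hκ), h' κ (KN_anti (dvd_mul_left _ _) hκ)]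

lemma LC_sum [AddCommGroup A] {ι : Type} [Fintype ι] {f : ι → AG n F → A} (hf : ∀ i, LC (f i)) :
    LC (fun g => ∑ i, f i g) := by
  intro g
  choose N hN h using fun i => hf i g
  refine ⟨∏ i, N i, Finset.prod_ne_zero_iff.2 fun i _ => hN i, fun κ hκ => ?_⟩
  show ∑ i, f i (g * κ) = ∑ i, f i g
  refine Finset.sum_congr rfl fun i _ => ?_
  exact h i κ (KN_anti (Finset.dvd_prod_of_mem N (Finset.mem_univ i)) hκ)

lemma det_unit_ne {v : Pl F} (y : LG n v) : y.1.det ≠ 0 := by
  have h : y.1.det * (y⁻¹).1.det = 1 := by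
    rw [← det_mul, ← Units.val_mul, mul_inv_cancel, Units.val_one, det_one]
  exact left_ne_zero_of_mul (h ▸ one_ne_zero)

section
variable {Sg : Finset (Pl F)} {L : Level n Sg} {p : ℕ} {O : Type} [CommRing O] {W : Type}
  [AddCommGroup W] [Module O W]

/-- the defect of equivariance of a function -/
noncomputable def Phi (C : Coef L p O W) (f : AG n F → W) (κ : L.Kf) (g : AG n F) : W :=
  C.act κ (f (g * κ.1)) - f g

lemma act_cancel (C : Coef L p O W) (κ : L.Kf) (w : W) : C.act κ (C.act κ⁻¹ w) = w := by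
  have : (C.act κ * C.act κ⁻¹) w = w := by
    rw [← map_mul, mul_inv_cancel, map_one]; rfl
  exact this

lemma Phi_LC (C : Coef L p O W) {f : AG n F → W} (hf : LC f) (κ : L.Kf) : LC (Phi C f κ) :=
  LC_map2 (LC_right hf κ.1) hf (fun a b => C.act κ a - b)

lemma Phi_left (C : Coef L p O W) {f : AG n F → W} {c : GQ n F → C.Fn}
    (hc : ∀ γ x, (c γ).1 x = dF f γ x) (κ : L.Kf) (γ : GQ n F) (g : AG n F) :
    Phi C f κ (dg n γ * g) = Phi C f κ g := by
  have key : ∀ (γ : GQ n F) (g : AG n F), Phi C f κ ((dg n γ)⁻¹ * g) = Phi C f κ g := by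
    intro γ g
    have h1 := (c γ).2 g κ
    rw [hc, hc] at h1
    have h2 := congrArg (C.act κ) h1
    rw [act_cancel] at h2
    unfold dF at h2
    rw [map_sub] at h2
    unfold Phi
    rw [mul_assoc]
    have e : ∀ a b c d : W, a - b = c - d → a - c = b - d := by
      intro a b c d h
      have : a = c - d + b := by rw [← h]; abel
      rw [this]; abel
    exact e _ _ _ _ h2
  have := key γ⁻¹ g
  rwa [map_inv, inv_inv] at this

lemma Phi_det (h1 : S_IDT) (C : Coef L p O W) {f : AG n F → W} (hf : LC f) {c : GQ n F → C.Fn}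
    (hc : ∀ γ x, (c γ).1 x = dF f γ x) (κ : L.Kf) {g g' : AG n F} (h : SameDet g g') :
    Phi C f κ g = Phi C f κ g' :=
  h1 n F W _ (Phi_left C hc κ) (Phi_LC C hf κ) g g' h

lemma sl_inv (h1 : S_IDT) (h3 : S_PRF) (hn : 3 ≤ n) (C : Coef L p O W) {f : AG n F → W}
    (hf : LC f) {c : GQ n F → C.Fn}
    (hc : ∀ γ x, (c γ).1 x = dF f γ x) {v : Pl F} (hv : v ∉ Sg) (g : AG n F) {u : LG n v}
    (hu : u ∈ U n v) (hd : u.1.det = 1) : f (g * inc n v u) = f g := by
  have hP : ∀ (u : LG n v) (hu : u ∈ U n v) (g : AG n F),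
      Phi C f ⟨inc n v u, L.full v hv u hu⟩ g = f (g * inc n v u) - f g := by
    intro u hu g
    unfold Phi
    rw [C.unr v hv u hu]
    rfl
  have h := h3 n F v W hn (fun u => f (g * inc n v u) - f g) (by
    intro u hu u' hu' hd hd'
    show f (g * inc n v (u * u')) - f g = (f (g * inc n v u) - f g) + (f (g * inc n v u') - f g)
    have e1 : SameDet (g * inc n v u) g := by
      intro w
      rw [mul_apply', Units.val_mul, det_mul]
      by_cases hw : w = v
      · subst hw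
        rw [inc_same, hd, mul_one]
      · rw [inc_ne hw, Units.val_one, det_one, mul_one]
    have e2 := Phi_det h1 C hf hc ⟨inc n v u', L.full v hv u' hu'⟩ e1
    rw [hP u' hu', hP u' hu'] at e2
    rw [map_mul, ← mul_assoc, ← e2]
    abel) u hu hd
  exact sub_eq_zero.1 h

end

end TJm

open TJm

theorem tjk (h1 : S_IDT) (h2 : S_RPC) (h3 : S_PRF) : ∀ (n : ℕ) (F : Type) [Field F]
    [NumberField F] (Sg : Finset (Pl F)) (L : Level n Sg) (p : ℕ) (O : Type) [CommRing O]
    (W : Type) [AddCommGroup W] [Module O W] (C : Coef L p O W) (v : {v : Pl F // v ∉ Sg})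
    (j : ℕ), 3 ≤ n → p ≠ 0 → j ≤ n → ∀ f : AG n F → W, LC f → ∀ c : GQ n F → C.Fn,
    (∀ γ x, (c γ).1 x = dF f γ x) →
    ∃ f' : AG n F → W, LC f' ∧
      (∀ γ x, (opF C (FreeAlgebra.ι O ⟨v, td n v.1 j⟩) (c γ)).1 x = dF f' γ x) ∧
      ∀ (κ : L.Kf) (g : AG n F), C.act κ (f' (g * κ.1)) - f' g =
        (deg n v.1 j : ℤ) • (C.act κ (f (g * sft n v.1 ^ j * κ.1)) - f (g * sft n v.1 ^ j)) := by
  intro n F _ _ Sg L p O _ W _ _ C v j hn _ hj f hf c hc
  classical
  have : Fintype (HC n v.1 (td n v.1 j)) := Fintype.ofFinite _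
  choose y hy hy2 using h2 n F v.1 j (by omega) hj
  refine ⟨fun g => ∑ c : HC n v.1 (td n v.1 j), f (g * inc n v.1 (y c)),
    LC_sum fun c => LC_right hf _, ?_, ?_⟩
  · intro γ x
    rw [opF_iota]
    show hecke v.1 (td n v.1 j) (c γ).1 x = _
    unfold hecke
    rw [finsum_eq_sum_of_fintype]
    unfold dF
    rw [← Finset.sum_sub_distrib]
    refine Finset.sum_congr rfl fun d _ => ?_
    have e1 : ((d.1.out : LG n v.1) : LG n v.1 ⧸ U n v.1) = (y d : LG n v.1 ⧸ U n v.1) := by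
      rw [QuotientGroup.out_eq', hy]
    rw [(Fn_RU C v.2 (c γ)).coset x e1, hc, mul_assoc]
    rfl
  · intro κ g
    have hκ : κ.1.1 v.1 ∈ U n v.1 := L.le κ.1 κ.2 v.1
    have main : ∀ d : HC n v.1 (td n v.1 j), C.act κ (f (g * κ.1 * inc n v.1 (y d))) =
        Phi C f κ (g * sft n v.1 ^ j) +
          f (g * inc n v.1 (y (shift (td n v.1 j) ⟨κ.1.1 v.1, hκ⟩ d))) := by
      intro d
      set d' := shift (td n v.1 j) ⟨κ.1.1 v.1, hκ⟩ d with hd'
      set u : LG n v.1 := (y d')⁻¹ * (κ.1.1 v.1 * y d) with hu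
      have huU : u ∈ U n v.1 := by
        rw [hu, ← QuotientGroup.eq, hy d', hd']
        show κ.1.1 v.1 • d.1 = _
        rw [← hy d]
        rfl
      have hdet : u.1.det = (κ.1.1 v.1).1.det := by
        have e : (y d').1.det * u.1.det = (κ.1.1 v.1).1.det * (y d).1.det := by
          rw [← det_mul, ← det_mul, ← Units.val_mul, ← Units.val_mul, hu, mul_inv_cancel_left]
        rw [hy2 d', hy2 d, mul_comm] at e
        exact mul_right_cancel₀ (pow_ne_zero _ (unif_ne v.1)) e
      have hν : (κ.1.1 v.1)⁻¹ * u ∈ U n v.1 := mul_mem (inv_mem hκ) huU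
      have hνd : ((κ.1.1 v.1)⁻¹ * u).1.det = 1 := by
        have e : (κ.1.1 v.1).1.det * ((κ.1.1 v.1)⁻¹ * u).1.det = (κ.1.1 v.1).1.det * 1 := by
          rw [← det_mul, ← Units.val_mul, mul_inv_cancel_left, hdet, mul_one]
        exact mul_left_cancel₀ (det_unit_ne _) e
      have e1 : g * κ.1 * inc n v.1 (y d) =
          g * inc n v.1 (y d') * κ.1 * inc n v.1 ((κ.1.1 v.1)⁻¹ * u) := by
        conv_lhs => rw [← offl_mul v.1 κ.1]
        have e2 : g * (offl v.1 κ.1 * inc n v.1 (κ.1.1 v.1)) * inc n v.1 (y d) =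
            g * (offl v.1 κ.1 * inc n v.1 (κ.1.1 v.1 * y d)) := by
          rw [map_mul]; simp only [mul_assoc]
        have e3 : κ.1.1 v.1 * y d = y d' * u := by rw [hu, mul_inv_cancel_left]
        rw [e2, e3, offl_comm, map_mul]
        have e4 : inc n v.1 (y d') * inc n v.1 u * offl v.1 κ.1 =
            inc n v.1 (y d') * (κ.1 * inc n v.1 ((κ.1.1 v.1)⁻¹ * u)) := by
          rw [mul_assoc, ← offl_comm]
          congr 1
          conv_rhs => rw [← offl_mul v.1 κ.1]
          rw [mul_assoc, ← map_mul]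
          congr 2
          rw [offl_mul, mul_inv_cancel_left]
        rw [e4]
        simp only [mul_assoc]
      rw [e1, sl_inv h1 h3 hn C hf hc v.2 _ hν hνd]
      have e5 : Phi C f κ (g * inc n v.1 (y d')) = Phi C f κ (g * sft n v.1 ^ j) :=
        Phi_det h1 C hf hc κ (sameDet_inc v.1 j g (by omega) (hy2 d'))
      rw [← e5]
      unfold Phi
      abel
    show C.act κ (∑ d : HC n v.1 (td n v.1 j), f (g * κ.1 * inc n v.1 (y d))) -
      (∑ d : HC n v.1 (td n v.1 j), f (g * inc n v.1 (y d))) = _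
    rw [map_sum, Finset.sum_congr rfl fun d _ => main d, Finset.sum_add_distrib, Finset.sum_const,
      Finset.card_univ]
    rw [Equiv.sum_comp (shift (td n v.1 j) ⟨κ.1.1 v.1, hκ⟩)
      (fun d => f (g * inc n v.1 (y d))), add_sub_cancel_right, natCast_zsmul]
    unfold deg
    rw [Nat.card_eq_fintype_card]
    rfl

end Pool.Agent.L0h47.NF
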