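import Pool.Agent.L0h47.NF.Stm

/-!
# Project VN: homomorphisms on congruence subgroups and conjugation by `SL_n(F)` (module C1)
-/

set_option autoImplicit false

namespace Pool.Agent.L0h47.NF.C1

open Matrix NumberField IsDedekindDomain
open scoped WithZero
open Pool.Agent.L0h47.CG (tvr Ele EV ele_top ev_field tvr_mem mtr mtr_mul mtr_one mtr_inj)

variable {n : ℕ} {F : Type} [Field F] [NumberField F] {A : Type}

/-- the integral matrices in `GL_n(F)` -/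
noncomputable def GR (n : ℕ) (F : Type) [Field F] [NumberField F] :
    GL (Fin n) (𝓞 F) →* GL (Fin n) F :=
  Matrix.GeneralLinearGroup.map (algebraMap (𝓞 F) F)

lemma GR_apply (B : GL (Fin n) (𝓞 F)) (i j : Fin n) :
    (GR n F B).1 i j = algebraMap (𝓞 F) F (B.1 i j) := rfl

lemma GR_det (B : GL (Fin n) (𝓞 F)) : (GR n F B).1.det = algebraMap (𝓞 F) F B.1.det := by
  show ((algebraMap (𝓞 F) F).mapMatrix B.1).det = _
  rw [← RingHom.map_det]

lemma vv_le {x : F} (v : Pl F) : vv v (cst v x) = v.valuation F x := vv_cst v x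

lemma int_of {x : F} (h : ∀ v : Pl F, vv v (cst v x) ≤ 1) : ∃ a : 𝓞 F, algebraMap (𝓞 F) F a = x :=
  HeightOneSpectrum.mem_integers_of_valuation_le_one (R := 𝓞 F) F x (fun v => by
    rw [← vv_cst]; exact h v)

lemma dvd_of {N : ℕ} (hN : N ≠ 0) {a : 𝓞 F}
    (h : ∀ v : Pl F, vv v (cst v (algebraMap (𝓞 F) F a)) ≤ vv v ((N : ℕ) : Kv v)) :
    ((N : ℕ) : 𝓞 F) ∣ a := by
  have hN0 : ((N : ℕ) : F) ≠ 0 := by exact_mod_cast hN
  obtain ⟨b, hb⟩ := int_of (F := F) (x := algebraMap (𝓞 F) F a / ((N : ℕ) : F)) (fun v => by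
    rw [map_div₀, map_div₀, map_natCast]
    exact (div_le_one₀ (zero_lt_iff.2 (vv_nat_ne v hN))).2 (h v))
  refine ⟨b, ?_⟩
  apply FaithfulSMul.algebraMap_injective (𝓞 F) F
  rw [map_mul, map_natCast, hb, mul_div_cancel₀ _ hN0]

lemma entry_loc (v : Pl F) (g : GL (Fin n) F) (i j : Fin n) :
    (loc n v g).1 i j = cst v (g.1 i j) := rfl

lemma cst_one (v : Pl F) (i j : Fin n) :
    cst v ((1 : Matrix (Fin n) (Fin n) F) i j) = (1 : Matrix (Fin n) (Fin n) (Kv v)) i j := by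
  rw [Matrix.one_apply, Matrix.one_apply]
  split_ifs
  · rw [map_one]
  · rw [map_zero]

lemma alg_one (i j : Fin n) :
    algebraMap (𝓞 F) F ((1 : Matrix (Fin n) (Fin n) (𝓞 F)) i j) =
      (1 : Matrix (Fin n) (Fin n) F) i j := by
  rw [Matrix.one_apply, Matrix.one_apply]
  split_ifs
  · rw [map_one]
  · rw [map_zero]

/-- rational elements of congruence subgroups are integral matrices -/
lemma lift {N : ℕ} (hN : N ≠ 0) {γ : GQ n F} (h : dg n γ ∈ KN n F N) :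
    ∃ B : GL (Fin n) (𝓞 F), GR n F B = γ.1 ∧
      ∀ i j, ((N : ℕ) : 𝓞 F) ∣ B.1 i j - (1 : Matrix (Fin n) (Fin n) (𝓞 F)) i j := by
  have h1 : ∀ i j, ∃ a : 𝓞 F, algebraMap (𝓞 F) F a = γ.1.1 i j := by
    intro i j
    apply int_of
    intro v
    exact (h v).1.1 i j
  have h2 : ∀ i j, ∃ a : 𝓞 F, algebraMap (𝓞 F) F a = (γ.1⁻¹).1 i j := by
    intro i j
    apply int_of
    intro v
    have h3 := (h v).1.2 i j
    have h4 : ((dg n γ).1 v)⁻¹ = loc n v (γ.1⁻¹) := (map_inv (loc n v) γ.1).symm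
    rw [h4] at h3
    exact h3
  choose a ha using h1
  choose b hb using h2
  have hinj := FaithfulSMul.algebraMap_injective (𝓞 F) F
  have hA : (algebraMap (𝓞 F) F).mapMatrix (Matrix.of a) = γ.1.1 := by
    ext i j; exact ha i j
  have hB : (algebraMap (𝓞 F) F).mapMatrix (Matrix.of b) = (γ.1⁻¹).1 := by
    ext i j; exact hb i j
  have hmi : Function.Injective ((algebraMap (𝓞 F) F).mapMatrix :
      Matrix (Fin n) (Fin n) (𝓞 F) →+* Matrix (Fin n) (Fin n) F) := by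
    intro x y hxy
    ext i j
    congr 1
    exact hinj (congrFun (congrFun hxy i) j)
  have e1 : Matrix.of a * Matrix.of b = 1 := by
    apply hmi
    rw [map_mul, hA, hB, map_one, ← Units.val_mul, mul_inv_cancel, Units.val_one]
  have e2 : Matrix.of b * Matrix.of a = 1 := by
    apply hmi
    rw [map_mul, hA, hB, map_one, ← Units.val_mul, inv_mul_cancel, Units.val_one]
  refine ⟨⟨Matrix.of a, Matrix.of b, e1, e2⟩, ?_, ?_⟩
  · apply Units.ext
    exact hA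
  · intro i j
    apply dvd_of hN
    intro v
    have h3 := (h v).2 i j
    have h4 : cst v (algebraMap (𝓞 F) F (a i j - (1 : Matrix (Fin n) (Fin n) (𝓞 F)) i j)) =
        ((dg n γ).1 v).1 i j - (1 : Matrix (Fin n) (Fin n) (Kv v)) i j := by
      rw [map_sub, map_sub, alg_one, cst_one, ha]
      rfl
    show vv v (cst v (algebraMap (𝓞 F) F (a i j - (1 : Matrix (Fin n) (Fin n) (𝓞 F)) i j))) ≤ _
    rw [h4]
    exact h3

/-- congruence of integral matrices gives membership in the local groups -/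
lemma desc {N : ℕ} {B : GL (Fin n) (𝓞 F)}
    (h : ∀ i j, ((N : ℕ) : 𝓞 F) ∣ B.1 i j - (1 : Matrix (Fin n) (Fin n) (𝓞 F)) i j) (v : Pl F) :
    loc n v (GR n F B) ∈ Cg n v N := by
  refine ⟨⟨?_, ?_⟩, ?_⟩
  · intro i j
    exact vv_int v (B.1 i j)
  · intro i j
    have e : (loc n v (GR n F B))⁻¹ = loc n v (GR n F B⁻¹) := by
      rw [map_inv, map_inv]
    rw [e]
    exact vv_int v ((B⁻¹).1 i j)
  · intro i j
    obtain ⟨c, hc⟩ := h i j
    have h4 : ((loc n v (GR n F B)).1 - 1) i j = ((N : ℕ) : Kv v) * cst v (algebraMap (𝓞 F) F c) := by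
      have e : ((N : ℕ) : Kv v) * cst v (algebraMap (𝓞 F) F c) =
          cst v (algebraMap (𝓞 F) F (((N : ℕ) : 𝓞 F) * c)) := by
        rw [map_mul, map_mul, map_natCast, map_natCast]
      rw [e, ← hc, map_sub, map_sub, alg_one, cst_one]
      rfl
    rw [h4, map_mul]
    exact mul_le_of_le_one_right' (vv_int v c)

lemma dg_mem {N : ℕ} {B : GL (Fin n) (𝓞 F)} {γ : GQ n F} (e : GR n F B = γ.1)
    (h : ∀ i j, ((N : ℕ) : 𝓞 F) ∣ B.1 i j - (1 : Matrix (Fin n) (Fin n) (𝓞 F)) i j) :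
    dg n γ ∈ KN n F N := by
  intro v
  show loc n v γ.1 ∈ Cg n v N
  rw [← e]
  exact desc h v

section
variable [AddCommGroup A] {N : ℕ} {φ : GQ n F → A}

lemma phi_one (hφ : ∀ γ γ', dg n γ ∈ KN n F N → dg n γ' ∈ KN n F N → φ (γ * γ') = φ γ + φ γ') :
    φ 1 = 0 := by
  have h1 : dg n (1 : GQ n F) ∈ KN n F N := by rw [map_one]; exact one_mem _
  have h := hφ 1 1 h1 h1
  rw [mul_one] at h
  exact left_eq_add.1 h

lemma phi_inv (hφ : ∀ γ γ', dg n γ ∈ KN n F N → dg n γ' ∈ KN n F N → φ (γ * γ') = φ γ + φ γ')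
    {γ : GQ n F} (h : dg n γ ∈ KN n F N) : φ γ⁻¹ = - φ γ := by
  have h1 : dg n γ⁻¹ ∈ KN n F N := by rw [map_inv]; exact inv_mem h
  have h2 := hφ γ γ⁻¹ h h1
  rw [mul_inv_cancel, phi_one hφ] at h2
  exact (neg_eq_of_add_eq_zero_right h2.symm).symm

lemma phi_pow (hφ : ∀ γ γ', dg n γ ∈ KN n F N → dg n γ' ∈ KN n F N → φ (γ * γ') = φ γ + φ γ')
    {γ : GQ n F} (h : dg n γ ∈ KN n F N) (k : ℕ) : φ (γ ^ k) = k • φ γ := by
  induction k with
  | zero => rw [pow_zero, zero_smul, phi_one hφ]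
  | succ k ih =>
    have h1 : dg n (γ ^ k) ∈ KN n F N := by rw [map_pow]; exact pow_mem h k
    rw [pow_succ, hφ _ _ h1 h, ih, succ_nsmul]

/-- the integral matrices on which the homomorphism is zero -/
def PP (hφ : ∀ γ γ', dg n γ ∈ KN n F N → dg n γ' ∈ KN n F N → φ (γ * γ') = φ γ + φ γ') :
    Subgroup (GL (Fin n) (𝓞 F)) where
  carrier := {g | ∃ γ : GQ n F, γ.1 = GR n F g ∧ dg n γ ∈ KN n F N ∧ φ γ = 0}
  one_mem' := ⟨1, (map_one _).symm, by rw [map_one]; exact one_mem _, phi_one hφ⟩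
  mul_mem' := by
    rintro a b ⟨γ, h1, h2, h3⟩ ⟨γ', h1', h2', h3'⟩
    refine ⟨γ * γ', ?_, ?_, ?_⟩
    · rw [map_mul, ← h1, ← h1']; rfl
    · rw [map_mul]; exact mul_mem h2 h2'
    · rw [hφ _ _ h2 h2', h3, h3', add_zero]
  inv_mem' := by
    rintro a ⟨γ, h1, h2, h3⟩
    refine ⟨γ⁻¹, ?_, ?_, ?_⟩
    · rw [map_inv, ← h1]; rfl
    · rw [map_inv]; exact inv_mem h2
    · rw [phi_inv hφ h2, h3, neg_zero]

lemma tvr_pow {R : Type*} [CommRing R] (i j : Fin n) (h : i ≠ j) (t : R) (k : ℕ) :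
    (tvr i j h t) ^ k = tvr i j h (k * t) := by
  induction k with
  | zero =>
    rw [pow_zero, Nat.cast_zero, zero_mul]
    apply Subtype.ext
    show (1 : Matrix (Fin n) (Fin n) R) = transvection i j 0
    rw [transvection_zero]
  | succ k ih =>
    rw [pow_succ, ih]
    apply Subtype.ext
    show transvection i j ((k : R) * t) * transvection i j t = transvection i j (((k + 1 : ℕ) : R) * t)
    rw [transvection_mul_transvection_same _ _ h]
    congr 1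
    push_cast
    ring

lemma cong_conj {R : Type*} [CommRing R] {M : R} (c g : GL (Fin n) R)
    (h : ∀ i j, M ∣ g.1 i j - (1 : Matrix (Fin n) (Fin n) R) i j) (i j : Fin n) :
    M ∣ (c * g * c⁻¹).1 i j - (1 : Matrix (Fin n) (Fin n) R) i j := by
  have e : (c * g * c⁻¹).1 - 1 = c.1 * (g.1 - 1) * (c⁻¹).1 := by
    rw [Matrix.mul_sub, Matrix.sub_mul, Matrix.mul_one, Units.val_mul, Units.val_mul,
      ← Units.val_mul c c⁻¹, mul_inv_cancel, Units.val_one]
  have e2 : (c * g * c⁻¹).1 i j - (1 : Matrix (Fin n) (Fin n) R) i j =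
      (c.1 * (g.1 - 1) * (c⁻¹).1) i j := by
    rw [← e]; rfl
  rw [e2, Matrix.mul_apply]
  apply Finset.dvd_sum
  intro k _
  apply Dvd.dvd.mul_right
  rw [Matrix.mul_apply]
  apply Finset.dvd_sum
  intro l _
  apply Dvd.dvd.mul_left
  exact h l k

lemma det_conj {R : Type*} [CommRing R] (c : GL (Fin n) R) (g : SpecialLinearGroup (Fin n) R) :
    (c * SpecialLinearGroup.toGL g * c⁻¹).1.det = 1 := by
  rw [Units.val_mul, Units.val_mul, Matrix.det_mul, Matrix.det_mul]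
  have h1 : (SpecialLinearGroup.toGL g : GL (Fin n) R).1.det = 1 := g.2
  rw [h1, mul_one, ← Matrix.det_mul, ← Units.val_mul, mul_inv_cancel, Units.val_one,
    Matrix.det_one]

lemma NE_le (hφ : ∀ γ γ', dg n γ ∈ KN n F N → dg n γ' ∈ KN n F N → φ (γ * γ') = φ γ + φ γ')
    {w : ℕ} (hw : ∀ a : A, w • a = 0) :
    NE n (𝓞 F) (((2 * N * w : ℕ)) : 𝓞 F) ≤ PP hφ := by
  unfold NE Subgroup.normalClosure
  rw [Subgroup.closure_le]
  intro g hg
  rw [Group.mem_conjugatesOfSet_iff] at hg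
  obtain ⟨x, ⟨i, j, hij, t, rfl⟩, hc⟩ := hg
  obtain ⟨c, hc⟩ := isConj_iff.1 hc
  have e1 : (tvr i j hij ((((2 * N * w : ℕ)) : 𝓞 F) * t)) =
      (tvr i j hij (((2 * N : ℕ) : 𝓞 F) * t)) ^ w := by
    rw [tvr_pow]
    congr 1
    push_cast
    ring
  obtain ⟨y, hy⟩ : ∃ y : GL (Fin n) (𝓞 F),
      y = c * SpecialLinearGroup.toGL (tvr i j hij (((2 * N : ℕ) : 𝓞 F) * t)) * c⁻¹ := ⟨_, rfl⟩
  have e2 : g = y ^ w := by
    rw [← hc, e1, hy, map_pow, conj_pow]
  have hyd : y.1.det = 1 := by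
    rw [hy]; exact det_conj _ _
  have hyc : ∀ i j, ((N : ℕ) : 𝓞 F) ∣ y.1 i j - (1 : Matrix (Fin n) (Fin n) (𝓞 F)) i j := by
    rw [hy]
    apply cong_conj
    intro k l
    show ((N : ℕ) : 𝓞 F) ∣ transvection i j (((2 * N : ℕ) : 𝓞 F) * t) k l -
      (1 : Matrix (Fin n) (Fin n) (𝓞 F)) k l
    unfold transvection
    rw [Matrix.add_apply, add_sub_cancel_left, Matrix.single_apply]
    split_ifs
    · refine ⟨2 * t, ?_⟩
      push_cast
      ring
    · exact dvd_zero _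
  obtain ⟨γ, hγ⟩ : ∃ γ : GQ n F, γ.1 = GR n F y := by
    refine ⟨⟨GR n F y, ?_⟩, rfl⟩
    intro ψ
    rw [GR_det, hyd, map_one, map_one]
    exact one_pos
  have hγN : dg n γ ∈ KN n F N := dg_mem hγ.symm hyc
  rw [e2]
  refine ⟨γ ^ w, ?_, ?_, ?_⟩
  · rw [map_pow, ← hγ]; rfl
  · rw [map_pow]; exact pow_mem hγN w
  · rw [phi_pow hφ hγN, hw]

/-- the image of an integral matrix of determinant one -/
noncomputable def eF (e : SpecialLinearGroup (Fin n) (𝓞 F)) : SpecialLinearGroup (Fin n) F :=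
  SpecialLinearGroup.map (algebraMap (𝓞 F) F) e

lemma eF_inv (e : SpecialLinearGroup (Fin n) (𝓞 F)) : eF e⁻¹ = (eF e)⁻¹ := map_inv _ _

lemma sQ_eF (e : SpecialLinearGroup (Fin n) (𝓞 F)) :
    (sQ (eF e)).1 = GR n F (SpecialLinearGroup.toGL e) := by
  apply Units.ext
  rfl

lemma not_unit (F : Type) [Field F] [NumberField F] (k : ℕ) : ¬ IsUnit (((2 * k : ℕ)) : 𝓞 F) := by
  intro h
  have h2 : IsUnit ((2 : ℕ) : 𝓞 F) := by
    apply isUnit_of_dvd_unit _ h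
    exact ⟨((k : ℕ) : 𝓞 F), by push_cast; ring⟩
  have h3 : IsUnit (algebraMap ℤ (𝓞 F) 2) := by
    have e : algebraMap ℤ (𝓞 F) 2 = ((2 : ℕ) : 𝓞 F) := by
      rw [Nat.cast_ofNat]
      exact map_ofNat _ _
    rw [e]; exact h2
  have h4 : IsUnit (2 : ℤ) := by
    have h5 := h3.map (Algebra.norm ℤ)
    rw [Algebra.norm_algebraMap] at h5
    exact (isUnit_pow_iff (Module.finrank_pos (R := ℤ) (M := 𝓞 F)).ne').1 h5
  rw [Int.isUnit_iff] at h4
  omega

/-- invariance under conjugation by elementary integral matrices -/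
lemma inv_ele (hS : S_SCF) (hn : 3 ≤ n) {w : ℕ} (hw0 : w ≠ 0) (hw : ∀ a : A, w • a = 0)
    (hN : N ≠ 0)
    (hφ : ∀ γ γ', dg n γ ∈ KN n F N → dg n γ' ∈ KN n F N → φ (γ * γ') = φ γ + φ γ')
    {e : SpecialLinearGroup (Fin n) (𝓞 F)} (he : e ∈ Ele n (𝓞 F)) {γ : GQ n F}
    (hγ : dg n γ ∈ KN n F (2 * N * w)) :
    φ (sQ (eF e) * γ * (sQ (eF e))⁻¹) = φ γ := by
  have hM : 2 * N * w ≠ 0 := mul_ne_zero (mul_ne_zero two_ne_zero hN) hw0
  obtain ⟨B, hB, hBc⟩ := lift hM hγ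
  have hM1 : (((2 * N * w : ℕ)) : 𝓞 F) ≠ 0 := by exact_mod_cast hM
  have hM2 : ¬ IsUnit (((2 * N * w : ℕ)) : 𝓞 F) := by
    rw [mul_assoc]; exact not_unit F _
  have h1 := NE_le hφ hw (hS (𝓞 F) n hn _ hM1 hM2 B hBc e he)
  obtain ⟨γ', h2, h3, h4⟩ := h1
  have h5 : γ' = sQ (eF e) * γ * (sQ (eF e))⁻¹ * γ⁻¹ := by
    apply Subtype.ext
    rw [h2, map_mul, map_mul, map_mul, map_inv, map_inv, hB, ← sQ_eF]
    rfl
  have h6 : sQ (eF e) * γ * (sQ (eF e))⁻¹ = γ' * γ := by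
    rw [h5, inv_mul_cancel_right]
  have h7 : dg n γ ∈ KN n F N := KN_anti ⟨2 * w, by ring⟩ hγ
  rw [h6, hφ _ _ h3 h7, h4, zero_add]

/-- the elements for which the statement is true -/
def QQ (φ : GQ n F → A) : Subgroup (SpecialLinearGroup (Fin n) F) where
  carrier := {δ | ∃ M : ℕ, M ≠ 0 ∧ ∀ γ, dg n γ ∈ KN n F M → φ ((sQ δ)⁻¹ * γ * sQ δ) = φ γ}
  one_mem' := ⟨1, one_ne_zero, fun γ _ => by rw [map_one, inv_one, one_mul, mul_one]⟩
  mul_mem' := by
    rintro a b ⟨M, hM, h⟩ ⟨M', hM', h'⟩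
    obtain ⟨L, hL, hh⟩ := exists_conj_KN (dg n (sQ a)) hM'
    refine ⟨L * M, mul_ne_zero hL hM, fun γ hγ => ?_⟩
    have h1 := h γ (KN_anti (dvd_mul_left _ _) hγ)
    have h2 := h' ((sQ a)⁻¹ * γ * sQ a) (by
      rw [map_mul, map_mul, map_inv]
      exact hh _ (KN_anti (dvd_mul_right _ _) hγ))
    rw [← h1, ← h2]
    congr 1
    rw [map_mul]
    group
  inv_mem' := by
    rintro a ⟨M, hM, h⟩
    obtain ⟨L, hL, hh⟩ := exists_conj_KN' (dg n (sQ a)) hM
    refine ⟨L, hL, fun γ hγ => ?_⟩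
    have h1 := h (sQ a * γ * (sQ a)⁻¹) (by
      rw [map_mul, map_mul, map_inv]
      exact hh _ hγ)
    rw [map_inv, inv_inv, ← h1]
    congr 1
    group

/-- the diagonal matrix with `s` at the place `i` -/
noncomputable def dd (i : Fin n) (s : F) (hs : s ≠ 0) : GL (Fin n) F :=
  Matrix.GeneralLinearGroup.mkOfDetNeZero (Matrix.diagonal (Function.update (1 : Fin n → F) i s)) (by
    rw [Matrix.det_diagonal, Finset.prod_update_of_mem (Finset.mem_univ i)]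
    simp [hs])

lemma dd_det (i : Fin n) (s : F) (hs : s ≠ 0) : (dd i s hs).1.det = s := by
  show (Matrix.diagonal (Function.update (1 : Fin n → F) i s)).det = s
  rw [Matrix.det_diagonal, Finset.prod_update_of_mem (Finset.mem_univ i)]
  simp

lemma dd_conj (i j : Fin n) (h : i ≠ j) (s : F) (hs : s ≠ 0) (q : F) :
    dd i s hs * SpecialLinearGroup.toGL (tvr i j h q) =
      SpecialLinearGroup.toGL (tvr i j h (s * q)) * dd i s hs := by
  apply Units.ext
  rw [Units.val_mul, Units.val_mul]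
  show Matrix.diagonal (Function.update (1 : Fin n → F) i s) * transvection i j q =
    transvection i j (s * q) * Matrix.diagonal (Function.update (1 : Fin n → F) i s)
  ext k l
  rw [Matrix.diagonal_mul, Matrix.mul_diagonal]
  unfold transvection
  rw [Matrix.add_apply, Matrix.add_apply, Matrix.one_apply, Matrix.single_apply,
    Matrix.single_apply]
  by_cases hkl : k = l
  · subst hkl
    rw [if_pos rfl, if_neg, if_neg]
    · ring
    · rintro ⟨rfl, rfl⟩; exact h rfl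
    · rintro ⟨rfl, rfl⟩; exact h rfl
  · rw [if_neg hkl]
    by_cases h2 : i = k ∧ j = l
    · obtain ⟨rfl, rfl⟩ := h2
      rw [if_pos ⟨rfl, rfl⟩, if_pos ⟨rfl, rfl⟩, Function.update_self,
        Function.update_of_ne (Ne.symm h)]
      simp
    · rw [if_neg h2, if_neg h2]
      ring

lemma tvr_in (hS : S_SCF) (hn : 3 ≤ n) {w : ℕ} (hw0 : w ≠ 0) (hw : ∀ a : A, w • a = 0)
    (hN : N ≠ 0)
    (hφ : ∀ γ γ', dg n γ ∈ KN n F N → dg n γ' ∈ KN n F N → φ (γ * γ') = φ γ + φ γ')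
    (i j : Fin n) (h : i ≠ j) (q : F) : tvr i j h q ∈ QQ φ := by
  obtain ⟨b, s, hs, hq⟩ := IsFractionRing.div_surjective (A := 𝓞 F) q
  have hs0 : algebraMap (𝓞 F) F s ≠ 0 := by
    intro h0
    apply nonZeroDivisors.ne_zero hs
    apply FaithfulSMul.algebraMap_injective (𝓞 F) F
    rw [h0, map_zero]
  have hs2 : (algebraMap (𝓞 F) F s) ^ 2 ≠ 0 := pow_ne_zero 2 hs0
  obtain ⟨d, hd⟩ : ∃ d : GQ n F, d.1 = dd i ((algebraMap (𝓞 F) F s) ^ 2) hs2 := by
    refine ⟨⟨dd i ((algebraMap (𝓞 F) F s) ^ 2) hs2, ?_⟩, rfl⟩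
    intro ψ
    rw [dd_det, map_pow]
    have : ψ (algebraMap (𝓞 F) F s) ≠ 0 := by
      rw [Ne, map_eq_zero]
      exact hs0
    positivity
  have hsq : (algebraMap (𝓞 F) F s) ^ 2 * q = algebraMap (𝓞 F) F (s * b) := by
    rw [← hq, map_mul]
    field_simp
  -- the conjugation
  have hconj : d * sQ (tvr i j h q) = sQ (eF (tvr i j h (s * b))) * d := by
    apply Subtype.ext
    show d.1 * SpecialLinearGroup.toGL (tvr i j h q) = (sQ (eF (tvr i j h (s * b)))).1 * d.1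
    rw [hd, dd_conj, hsq]
    congr 1
    apply Units.ext
    show transvection i j (algebraMap (𝓞 F) F (s * b)) =
      (algebraMap (𝓞 F) F).mapMatrix (transvection i j (s * b))
    ext k l
    show _ = algebraMap (𝓞 F) F (transvection i j (s * b) k l)
    unfold transvection
    rw [Matrix.add_apply, Matrix.add_apply, map_add, alg_one, Matrix.single_apply,
      Matrix.single_apply]
    split_ifs
    · rfl
    · rw [map_zero]
  obtain ⟨N', hN', hc⟩ := exists_conj_KN (dg n d) hN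
  have hφ' : ∀ γ γ', dg n γ ∈ KN n F N' → dg n γ' ∈ KN n F N' →
      (fun x => φ (d⁻¹ * x * d)) (γ * γ') =
        (fun x => φ (d⁻¹ * x * d)) γ + (fun x => φ (d⁻¹ * x * d)) γ' := by
    intro γ γ' h1 h2
    have h3 : dg n (d⁻¹ * γ * d) ∈ KN n F N := by
      rw [map_mul, map_mul, map_inv]; exact hc _ h1
    have h4 : dg n (d⁻¹ * γ' * d) ∈ KN n F N := by
      rw [map_mul, map_mul, map_inv]; exact hc _ h2
    have h5 := hφ _ _ h3 h4
    show φ (d⁻¹ * (γ * γ') * d) = φ (d⁻¹ * γ * d) + φ (d⁻¹ * γ' * d)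
    rw [← h5]
    congr 1
    group
  have hM : 2 * N' * w ≠ 0 := mul_ne_zero (mul_ne_zero two_ne_zero hN') hw0
  obtain ⟨M, hM0, hM1⟩ := exists_conj_KN' (dg n d) hM
  refine ⟨M, hM0, fun γ hγ => ?_⟩
  have h1 : dg n (d * γ * d⁻¹) ∈ KN n F (2 * N' * w) := by
    rw [map_mul, map_mul, map_inv]; exact hM1 _ hγ
  have h2 := inv_ele (φ := fun x => φ (d⁻¹ * x * d)) hS hn hw0 hw hN' hφ' (inv_mem (tvr_mem i j h (s * b))) h1
  rw [eF_inv, map_inv, inv_inv] at h2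
  have h3 : φ (d⁻¹ * (d * γ * d⁻¹) * d) = φ γ := by
    congr 1
    group
  rw [h3] at h2
  rw [← h2]
  show _ = φ (d⁻¹ * ((sQ (eF (tvr i j h (s * b))))⁻¹ * (d * γ * d⁻¹) *
    sQ (eF (tvr i j h (s * b)))) * d)
  congr 1
  have h4 : sQ (tvr i j h q) = d⁻¹ * sQ (eF (tvr i j h (s * b))) * d := by
    rw [mul_assoc, ← hconj, inv_mul_cancel_left]
  rw [h4]
  group

end

end Pool.Agent.L0h47.NF.C1

namespace Pool.Agent.L0h47.NF

open Matrix NumberField IsDedekindDomain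
open Pool.Agent.L0h47.CG (tvr Ele EV ele_top ev_field)

/-- module C1 -/
theorem c1 (h : S_SCF) : S_C1 := by
  intro n F _ _ A _ hn w hw0 hw N hN φ hφ δ
  have h1 : δ ∈ Ele n F := ele_top (ev_field F) n δ
  have h2 : Ele n F ≤ C1.QQ φ := by
    unfold Ele
    rw [Subgroup.closure_le]
    rintro _ ⟨i, j, hij, t, rfl⟩
    exact C1.tvr_in h hn hw0 hw hN hφ i j hij t
  exact h2 h1

end Pool.Agent.L0h47.NF
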