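import Pool.Agent.L0h47.NF.Stm
import Pool.Agent.L0h47.CG.Subsp
import Pool.Agent.W189.NF.Residue

/-!
# The degrees of the Hecke operators modulo a divisor of `q - 1` (module DEG)

After `Pool/Agent/L0h47/CG/Count.lean`.
-/

set_option autoImplicit false

namespace Pool.Agent.L0h47.NF.DEG

open Matrix Module NumberField IsDedekindDomain IsLocalRing
open scoped WithZero
open Pool.Agent.L0h47.CG (CS finrank_CS card_subspaces)
open Pool.Agent.W189.NF (Ov mem_max_iff card_residue)

variable {n : ℕ} {F : Type} [Field F] [NumberField F] {v : Pl F}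

/-- the residue field -/
abbrev RF (v : Pl F) : Type := ResidueField (Ov v)

/-- the matrix over the integers -/
def pin (g : U n v) : Matrix (Fin n) (Fin n) (Ov v) := fun i j =>
  ⟨g.1.1 i j, (HeightOneSpectrum.mem_adicCompletionIntegers (𝓞 F) F v).2 (g.2.1 i j)⟩

lemma coe_pin (g : U n v) (i j : Fin n) : ((pin g i j : Ov v) : Kv v) = g.1.1 i j := rfl

lemma pin_mul (g h : U n v) : pin (g * h) = pin g * pin h := by
  ext1 i j
  apply Subtype.ext
  rw [Matrix.mul_apply]
  have e1 : ((∑ k, pin g i k * pin h k j : Ov v) : Kv v) =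
      ∑ k, ((pin g i k * pin h k j : Ov v) : Kv v) :=
    map_sum (v.adicCompletionIntegers F).subtype (fun k => pin g i k * pin h k j) Finset.univ
  rw [e1]
  show ((g.1 * h.1 : LG n v)).1 i j = _
  rw [Units.val_mul, Matrix.mul_apply]
  rfl

lemma pin_one : pin (1 : U n v) = 1 := by
  ext1 i j
  apply Subtype.ext
  show (1 : Matrix (Fin n) (Fin n) (Kv v)) i j = _
  rw [Matrix.one_apply, Matrix.one_apply]
  split_ifs <;> rfl

/-- reduction modulo `v` -/
noncomputable def red (g : U n v) : Matrix (Fin n) (Fin n) (RF v) :=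
  (pin g).map (residue (Ov v))

lemma red_mul (g h : U n v) : red (g * h) = red g * red h := by
  unfold red
  rw [pin_mul, Matrix.map_mul]

lemma red_one : red (1 : U n v) = 1 := by
  unfold red
  rw [pin_one, Matrix.map_one _ (map_zero _) (map_one _)]

lemma lt_one_iff_le_exp (x : ℤᵐ⁰) : x < 1 ↔ x ≤ WithZero.exp (-1 : ℤ) := by
  by_cases hx : x = 0
  · subst hx
    exact ⟨fun _ => zero_le, fun _ => zero_lt_one⟩
  · rw [← WithZero.exp_log hx, ← WithZero.exp_zero, WithZero.exp_lt_exp, WithZero.exp_le_exp]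
    omega

lemma red_zero_iff (g : U n v) (a b : Fin n) :
    red g a b = 0 ↔ vv v (g.1.1 a b) ≤ WithZero.exp (-1 : ℤ) := by
  rw [← lt_one_iff_le_exp]
  have h1 : red g a b = 0 ↔ pin g a b ∈ maximalIdeal (Ov v) := by
    show residue (Ov v) (pin g a b) = 0 ↔ _
    rw [residue_eq_zero_iff]
  rw [h1, mem_max_iff]
  rfl

/-- the diagonal entries -/
noncomputable def xa (v : Pl F) (j : ℕ) (a : Fin n) : Kv v :=
  if (a : ℕ) < j then unif v else 1

lemma conj_entry (w : LG n v) (j : ℕ) (a b : Fin n) :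
    ((td n v j)⁻¹ * w * td n v j).1 a b = (xa v j a)⁻¹ * w.1 a b * xa v j b := by
  have e1 : ((td n v j)⁻¹).1 = diagonal (fun a => (xa v j a)⁻¹) := by
    show diagonal (fun i : Fin n => if (i : ℕ) < j then (unif v)⁻¹ else 1) = _
    congr 1
    funext i
    unfold xa
    split_ifs
    · rfl
    · rw [inv_one]
  have e2 : (td n v j).1 = diagonal (xa v j) := rfl
  rw [Units.val_mul, Units.val_mul, e1, e2, mul_diagonal, diagonal_mul]

lemma conj_bd (w : U n v) (j : ℕ) : Bd ((td n v j)⁻¹ * w.1 * td n v j).1 1 ↔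
    ∀ a b : Fin n, (a : ℕ) < j → j ≤ (b : ℕ) → red w a b = 0 := by
  have hu0 : vv v (unif v) ≠ 0 := (Valuation.ne_zero_iff _).2 (unif_ne v)
  have hu1 : vv v (unif v) ≤ 1 := by
    rw [vv_unif, ← WithZero.exp_zero, WithZero.exp_le_exp]
    norm_num
  constructor
  · intro h a b ha hb
    have h1 := h a b
    rw [conj_entry] at h1
    unfold xa at h1
    rw [if_pos ha, if_neg (not_lt.mpr hb), mul_one, map_mul, map_inv₀] at h1
    rw [red_zero_iff, ← vv_unif v]
    have h2 := mul_le_mul_right h1 (vv v (unif v))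
    rwa [← mul_assoc, mul_inv_cancel₀ hu0, one_mul, mul_one] at h2
  · intro h a b
    rw [conj_entry]
    unfold xa
    have hw := w.2.1 a b
    split_ifs with ha hb hb
    · rw [mul_comm, ← mul_assoc, mul_inv_cancel₀ (unif_ne v), one_mul]; exact hw
    · rw [mul_one, map_mul, map_inv₀]
      have h1 := (red_zero_iff w a b).mp (h a b ha (not_lt.mp hb))
      rw [← vv_unif v] at h1
      calc (vv v (unif v))⁻¹ * vv v (w.1.1 a b) ≤ (vv v (unif v))⁻¹ * vv v (unif v) :=
            mul_le_mul' le_rfl h1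
        _ = 1 := inv_mul_cancel₀ hu0
    · rw [inv_one, one_mul, map_mul]
      exact mul_le_one' hw hu1
    · rw [inv_one, one_mul, mul_one]; exact hw

/-- the indices from `j` on -/
def Sj (n j : ℕ) : Finset (Fin n) := Finset.univ.filter (fun i => j ≤ (i : ℕ))

lemma mem_Sj {j : ℕ} {i : Fin n} : i ∈ Sj n j ↔ j ≤ (i : ℕ) := by
  unfold Sj; simp

lemma card_Sj {j : ℕ} : (Sj n j).card = n - j := by
  have h : (Sj n j).card = (Finset.Ico j n).card := by
    apply Finset.card_bij (fun (i : Fin n) _ => (i : ℕ))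
    · intro i hi
      rw [Finset.mem_Ico]
      exact ⟨mem_Sj.mp hi, i.2⟩
    · intro a _ b _ h
      exact Fin.ext h
    · intro b hb
      rw [Finset.mem_Ico] at hb
      exact ⟨⟨b, hb.2⟩, mem_Sj.mpr hb.1, rfl⟩
  rw [h, Nat.card_Ico]

/-- the linear map of a reduction -/
noncomputable def Mr (w : U n v) : (Fin n → RF v) →ₗ[RF v] (Fin n → RF v) :=
  Matrix.toLin' (red w)

lemma Mr_mul (g h : U n v) : Mr (g * h) = Mr g ∘ₗ Mr h := by
  unfold Mr
  rw [red_mul, Matrix.toLin'_mul]

lemma Mr_one : Mr (1 : U n v) = LinearMap.id := by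
  unfold Mr
  rw [red_one, Matrix.toLin'_one]

lemma Mr_preserve (w : U n v) (j : ℕ) :
    (CS (Sj n j)).map (Mr w) ≤ CS (Sj n j) ↔
      ∀ a b : Fin n, (a : ℕ) < j → j ≤ (b : ℕ) → red w a b = 0 := by
  constructor
  · intro h a b ha hb
    have h1 : Mr w (Pi.single b 1) ∈ CS (Sj n j) := by
      apply h
      refine ⟨_, ?_, rfl⟩
      intro i hi
      rw [Pi.single_eq_of_ne]
      rintro rfl
      exact hi (mem_Sj.mpr hb)
    have h2 := h1 a (fun h => absurd (mem_Sj.mp h) (not_le.mpr ha))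
    unfold Mr at h2
    rw [Matrix.toLin'_apply, Matrix.mulVec_single_one] at h2
    exact h2
  · intro h
    rintro _ ⟨x, hv, rfl⟩ a ha
    rw [mem_Sj, not_le] at ha
    unfold Mr
    rw [Matrix.toLin'_apply]
    show ∑ b, red w a b * x b = 0
    apply Finset.sum_eq_zero
    intro b _
    by_cases hb : j ≤ (b : ℕ)
    · rw [h a b ha hb, zero_mul]
    · rw [hv b (fun h => hb (mem_Sj.mp h)), mul_zero]

lemma Mr_inv_map (u : U n v) (V : Submodule (RF v) (Fin n → RF v)) :
    (V.map (Mr u)).map (Mr u⁻¹) = V := by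
  rw [← Submodule.map_comp, ← Mr_mul, inv_mul_cancel, Mr_one, Submodule.map_id]

lemma Mr_map_inv (u : U n v) (V : Submodule (RF v) (Fin n → RF v)) :
    (V.map (Mr u⁻¹)).map (Mr u) = V := by
  rw [← Submodule.map_comp, ← Mr_mul, mul_inv_cancel, Mr_one, Submodule.map_id]

lemma stab_iff (w : U n v) (j : ℕ) : (CS (Sj n j)).map (Mr w) = CS (Sj n j) ↔
    (td n v j)⁻¹ * w.1 * td n v j ∈ U n v := by
  have e : ((td n v j)⁻¹ * w.1 * td n v j)⁻¹ = (td n v j)⁻¹ * (w⁻¹).1 * td n v j := by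
    rw [Subgroup.coe_inv]; group
  rw [mem_U, e, conj_bd, conj_bd, ← Mr_preserve, ← Mr_preserve]
  constructor
  · intro h
    refine ⟨h.le, ?_⟩
    have := Mr_inv_map w (CS (Sj n j))
    rw [h] at this
    exact this.le
  · rintro ⟨h1, h2⟩
    apply le_antisymm h1
    have h3 := Submodule.map_mono (f := Mr w) h2
    rwa [Mr_map_inv] at h3

lemma coset_iff (u u' : U n v) (j : ℕ) :
    (CS (Sj n j)).map (Mr u) = (CS (Sj n j)).map (Mr u') ↔
      ((u.1 * td n v j : LG n v) : LG n v ⧸ U n v) = ((u'.1 * td n v j : LG n v) : LG n v ⧸ U n v) := by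
  rw [QuotientGroup.eq]
  have e : (u.1 * td n v j)⁻¹ * (u'.1 * td n v j) = (td n v j)⁻¹ * (u⁻¹ * u').1 * td n v j := by
    rw [Subgroup.coe_mul, Subgroup.coe_inv]; group
  rw [e, ← stab_iff, Mr_mul, Submodule.map_comp]
  constructor
  · intro h
    rw [← h, Mr_inv_map]
  · intro h
    have := congrArg (Submodule.map (Mr u)) h
    rw [Mr_map_inv] at this
    exact this.symm

lemma exists_lift (G : Matrix (Fin n) (Fin n) (RF v)) (hG : G.det ≠ 0) :
    ∃ u : U n v, red u = G := by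
  choose z hz using fun a b => residue_surjective (R := Ov v) (G a b)
  obtain ⟨Z, hZdef⟩ : ∃ Z : Matrix (Fin n) (Fin n) (Ov v), Z = Matrix.of z := ⟨_, rfl⟩
  have hZ : Z.map (residue (Ov v)) = G := by
    ext i j
    rw [hZdef]
    exact hz i j
  have hdet : IsUnit Z.det := by
    by_contra h
    have h1 : Z.det ∈ maximalIdeal (Ov v) := h
    rw [← residue_eq_zero_iff, RingHom.map_det, RingHom.mapMatrix_apply, hZ] at h1
    exact hG h1
  have h1 : Z * Z⁻¹ = 1 := Matrix.mul_nonsing_inv Z hdet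
  have h2 : Z⁻¹ * Z = 1 := Matrix.nonsing_inv_mul Z hdet
  let c : Ov v →+* Kv v := (v.adicCompletionIntegers F).subtype
  let g : LG n v := ⟨Z.map c, (Z⁻¹).map c, by
    rw [← Matrix.map_mul, h1, Matrix.map_one _ (map_zero _) (map_one _)], by
    rw [← Matrix.map_mul, h2, Matrix.map_one _ (map_zero _) (map_one _)]⟩
  have hg : g ∈ U n v := by
    refine ⟨fun i j => ?_, fun i j => ?_⟩
    · exact (HeightOneSpectrum.mem_adicCompletionIntegers (𝓞 F) F v).1 (Z i j).2
    · exact (HeightOneSpectrum.mem_adicCompletionIntegers (𝓞 F) F v).1 (Z⁻¹ i j).2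
  refine ⟨⟨g, hg⟩, ?_⟩
  rw [← hZ]
  rfl

/-- **The cosets in the double coset of `diag(ϖ, …, ϖ, 1, …, 1)` are the subspaces.** -/
theorem deg_eq (n : ℕ) (v : Pl F) (j : ℕ) :
    deg n v j = Nat.card {V : Submodule (RF v) (Fin n → RF v) //
      finrank (RF v) V = n - j} := by
  unfold deg
  have hch : ∀ c : HC n v (td n v j), ∃ u : U n v,
      c.1 = ((u.1 * td n v j : LG n v) : LG n v ⧸ U n v) := by
    rintro ⟨c, u, hu, hc⟩
    exact ⟨⟨u, hu⟩, hc⟩
  choose u hu using hch
  have hrank : ∀ w : U n v, finrank (RF v) ((CS (Sj n j)).map (Mr w)) = n - j := by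
    intro w
    rw [← card_Sj (n := n) (j := j), ← finrank_CS (F := RF v) (Sj n j)]
    let e : (Fin n → RF v) ≃ₗ[RF v] (Fin n → RF v) :=
      LinearEquiv.ofLinearMap (Mr w) (Mr w⁻¹) (by rw [← Mr_mul, mul_inv_cancel, Mr_one])
        (by rw [← Mr_mul, inv_mul_cancel, Mr_one])
    exact LinearEquiv.finrank_map_eq e _
  apply Nat.card_congr
  apply Equiv.ofBijective (fun c : HC n v (td n v j) =>
    (⟨(CS (Sj n j)).map (Mr (u c)), hrank _⟩ :
      {V : Submodule (RF v) (Fin n → RF v) // finrank (RF v) V = n - j}))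
  constructor
  · intro c c' h
    apply Subtype.ext
    rw [hu c, hu c', ← coset_iff]
    exact congrArg Subtype.val h
  · rintro ⟨V, hV⟩
    have h1 : finrank (RF v) (CS (F := RF v) (Sj n j)) = finrank (RF v) V := by
      rw [finrank_CS, card_Sj, hV]
    obtain ⟨g, hg⟩ := Submodule.exists_linearEquiv_restrict_eq (LinearEquiv.ofFinrankEq _ _ h1)
    have hgV : (CS (F := RF v) (Sj n j)).map g.toLinearMap = V := by
      ext x
      constructor
      · rintro ⟨w, hw, rfl⟩
        show g w ∈ V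
        rw [← hg ⟨w, hw⟩]
        exact Subtype.coe_prop _
      · intro hv
        obtain ⟨w, hw⟩ := (LinearEquiv.ofFinrankEq _ _ h1).surjective ⟨x, hv⟩
        refine ⟨w.1, w.2, ?_⟩
        show g w = x
        rw [← hg w, hw]
    have hdet : (LinearMap.toMatrix' g.toLinearMap).det ≠ 0 := by
      rw [LinearMap.det_toMatrix']
      exact (LinearEquiv.isUnit_det' g).ne_zero
    obtain ⟨w, hw⟩ := exists_lift _ hdet
    have hMw : Mr w = g.toLinearMap := by
      unfold Mr
      rw [hw, Matrix.toLin'_toMatrix']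
    refine ⟨⟨((w.1 * td n v j : LG n v) : LG n v ⧸ U n v), w.1, w.2, rfl⟩, ?_⟩
    apply Subtype.ext
    show (CS (Sj n j)).map (Mr (u _)) = V
    rw [← hgV, ← hMw, coset_iff]
    exact (hu _).symm

end Pool.Agent.L0h47.NF.DEG

namespace Pool.Agent.L0h47.NF

open NumberField Pool.Agent.L0h47.NF.DEG

/-- **Module DEG.** -/
theorem deg' : S_DEG := by
  intro n F _ _ v p j hp hj hpq
  have hq : Nat.card (RF v) = qv v := Pool.Agent.W189.NF.card_residue v
  have hq0 : qv v ≠ 0 := by
    unfold qv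
    rw [Ne, Ideal.absNorm_eq_zero_iff]
    exact v.ne_bot
  have hfin : Finite (RF v) := by
    apply Nat.finite_of_card_ne_zero
    rw [hq]
    exact hq0
  have : Fintype (RF v) := Fintype.ofFinite _
  have : Fact p.Prime := ⟨hp⟩
  classical
  have hcard : p ∣ Fintype.card (RF v)ˣ := by
    rw [Fintype.card_units, ← Nat.card_eq_fintype_card, hq]
    have h1 : (((qv v - 1 : ℕ) : ℕ) : ℤ) = (qv v : ℤ) - 1 := by
      rw [Nat.cast_sub (Nat.one_le_iff_ne_zero.2 hq0), Nat.cast_one]
    rw [← h1] at hpq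
    exact_mod_cast hpq
  obtain ⟨ζ, hζ⟩ := exists_prime_orderOf_dvd_card p hcard
  rw [deg_eq n v j, ← Nat.choose_symm hj]
  exact Pool.Agent.L0h47.CG.card_subspaces hζ (n - j)

end Pool.Agent.L0h47.NF
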