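import Mathlib

/-!
# Unimodular columns over Dedekind domains
-/

set_option autoImplicit false

namespace Pool.Agent.L0h47.NF

open IsDedekindDomain

/-- the second entry of a unimodular vector can be changed modulo multiples of the later entries
such that it generates the unit ideal together with the first one -/
lemma unimod_short {R : Type} [CommRing R] [IsDedekindDomain R] {ι : Type}
    [Fintype ι] [DecidableEq ι] {M a b : R} (c : ι → R) (hM : ¬ IsUnit M) (ha : M ∣ a - 1)
    (huni : ∀ P : Ideal R, P.IsPrime → a ∈ P → b ∈ P → ∃ k, c k ∉ P) :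
    ∃ (t : ι → R) (x y : R), x * a + y * (b + ∑ k, M * t k * c k) = 1 := by
  classical
  have ha0 : a ≠ 0 := by
    rintro rfl
    apply hM
    obtain ⟨z, hz⟩ := ha
    apply IsUnit.of_mul_eq_one (-z)
    linear_combination hz
  have hfin : {P : HeightOneSpectrum R | P.asIdeal ∣ Ideal.span {a}}.Finite :=
    Ideal.finite_factors (by rwa [Ne, Ideal.zero_eq_bot, Ideal.span_singleton_eq_bot])
  -- the targets
  have hτ : ∀ P : HeightOneSpectrum R, ∃ τ : ι → R, a ∈ P.asIdeal →
      b + ∑ k, M * τ k * c k ∉ P.asIdeal := by
    intro P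
    by_cases haP : a ∈ P.asIdeal
    · have hMP : M ∉ P.asIdeal := by
        intro h
        obtain ⟨z, hz⟩ := ha
        apply P.isPrime.ne_top
        rw [Ideal.eq_top_iff_one]
        have e : (1 : R) = a - M * z := by linear_combination -hz
        rw [e]
        exact sub_mem haP (Ideal.mul_mem_right _ _ h)
      by_cases hb : b ∈ P.asIdeal
      · obtain ⟨k, hk⟩ := huni P.asIdeal P.isPrime haP hb
        refine ⟨fun j => if j = k then 1 else 0, fun _ h => ?_⟩
        have e : ∑ j, M * (if j = k then (1 : R) else 0) * c j = M * c k := by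
          rw [Finset.sum_eq_single k]
          · rw [if_pos rfl, mul_one]
          · intro j _ hj
            rw [if_neg hj, mul_zero, zero_mul]
          · intro h; exact absurd (Finset.mem_univ k) h
        rw [e] at h
        have h2 : M * c k ∈ P.asIdeal := by
          have := sub_mem h hb
          rwa [add_sub_cancel_left] at this
        rcases P.isPrime.mem_or_mem h2 with h3 | h3
        · exact hMP h3
        · exact hk h3
      · refine ⟨fun _ => 0, fun _ => ?_⟩
        simpa using hb
    · exact ⟨fun _ => 0, fun h => absurd h haP⟩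
  choose τ hτ using hτ
  have hcrt : ∀ k : ι, ∃ t : R, ∀ P : HeightOneSpectrum R, P.asIdeal ∣ Ideal.span {a} →
      t - τ P k ∈ P.asIdeal := by
    intro k
    obtain ⟨t, ht⟩ := IsDedekindDomain.exists_forall_sub_mem_ideal (s := hfin.toFinset)
      (fun P : HeightOneSpectrum R => P.asIdeal) (fun _ => 1)
      (fun P _ => P.prime) (by
        intro P _ Q _ hPQ h
        exact hPQ (HeightOneSpectrum.ext h)) (fun P => τ P.1 k)
    refine ⟨t, fun P hP => ?_⟩
    have := ht P (hfin.mem_toFinset.2 hP)
    rwa [pow_one] at this
  choose t ht using hcrt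
  refine ⟨t, ?_⟩
  have htop : Ideal.span {a, b + ∑ k, M * t k * c k} = ⊤ := by
    by_contra hne
    obtain ⟨P, hP, hle⟩ := Ideal.exists_le_maximal _ hne
    have haP : a ∈ P := hle (Ideal.subset_span (by simp))
    have hbP : b + ∑ k, M * t k * c k ∈ P := hle (Ideal.subset_span (by simp))
    have hPbot : P ≠ ⊥ := by
      rintro rfl
      exact ha0 (by simpa using haP)
    let P' : HeightOneSpectrum R := ⟨P, hP.isPrime, hPbot⟩
    have hdvd : P'.asIdeal ∣ Ideal.span {a} := by
      rw [Ideal.dvd_span_singleton]
      exact haP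
    apply hτ P' haP
    have e : b + ∑ k, M * τ P' k * c k = (b + ∑ k, M * t k * c k) -
        ∑ k, M * (t k - τ P' k) * c k := by
      rw [add_sub_assoc, ← Finset.sum_sub_distrib]
      congr 1
      apply Finset.sum_congr rfl
      intro k _
      ring
    rw [e]
    apply sub_mem hbP
    apply sum_mem
    intro k _
    exact Ideal.mul_mem_right _ _ (Ideal.mul_mem_left _ _ (ht k P' hdvd))
  have h1 : (1 : R) ∈ Ideal.span {a, b + ∑ k, M * t k * c k} := by rw [htop]; trivial
  rw [Ideal.mem_span_pair] at h1
  exact h1

end Pool.Agent.L0h47.NF
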